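import Pool.Agent.MP_cb8d3a_ag.H42.GDefs

noncomputable section

open scoped BigOperators

namespace Pool.Agent.MP_cb8d3a_ag.H42

namespace GA

variable {L : Type} [Field L] [Algebra ℂ L]

/-- The localisation of `A` at a prime ideal inside `L`. -/
def loc (A : Subalgebra ℂ L) (m : Ideal A) (hm : m.IsPrime) : Subalgebra ℂ L where
  carrier := {c | ∃ b : A, b ∉ m ∧ c * b ∈ A}
  mul_mem' := fun {c c'} ⟨b, hb, h⟩ ⟨b', hb', h'⟩ =>
    ⟨b * b', fun e => (hm.mem_or_mem e).elim hb hb', by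
      rw [show c * c' * (b * b' : A) = c * b * (c' * b') by push_cast; ring]
      exact A.mul_mem h h'⟩
  add_mem' := fun {c c'} ⟨b, hb, h⟩ ⟨b', hb', h'⟩ =>
    ⟨b * b', fun e => (hm.mem_or_mem e).elim hb hb', by
      rw [show (c + c') * (b * b' : A) = c * b * b' + c' * b' * b by push_cast; ring]
      exact A.add_mem (A.mul_mem h b'.2) (A.mul_mem h' b.2)⟩
  algebraMap_mem' := fun r =>
    ⟨1, (Ideal.ne_top_iff_one m).1 hm.ne_top, A.mul_mem (A.algebraMap_mem r) A.one_mem⟩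

theorem pt_le {A O : Subalgebra ℂ L} (h : GPt A O) : A ≤ O := by
  obtain ⟨m, hm, h⟩ := h
  exact fun c hc => (h c).2 ⟨1, (Ideal.ne_top_iff_one m).1 hm.ne_top, A.mul_mem hc A.one_mem⟩

section

variable {O : Subalgebra ℂ L} {ev : L → ℂ} (h : Loc O ev)
include h

theorem ev0 : ev 0 = 0 := by simpa using h.const 0

theorem ev1 : ev 1 = 1 := by simpa using h.const 1

/-- The residue map on a subalgebra. -/
def hom (B : Subalgebra ℂ L) (hB : B ≤ O) : B →ₐ[ℂ] ℂ where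
  toFun a := ev a
  map_one' := ev1 h
  map_mul' a b := h.mul _ (hB a.2) _ (hB b.2)
  map_zero' := ev0 h
  map_add' a b := h.add _ (hB a.2) _ (hB b.2)
  commutes' := h.const

theorem kmax (B : Subalgebra ℂ L) (hB : B ≤ O) : (RingHom.ker (hom h B hB)).IsMaximal :=
  RingHom.ker_isMaximal_of_surjective _ fun r => ⟨algebraMap ℂ B r, h.const r⟩

theorem of_frac {B : Subalgebra ℂ L} (hB : B ≤ O) {c : L} (hc : Frac B ev c) : c ∈ O := by
  obtain ⟨b, hb, h1, h2⟩ := hc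
  have hb0 : b ≠ 0 := fun e => h1 (e ▸ ev0 h)
  rw [← mul_inv_cancel_right₀ hb0 c]
  exact O.mul_mem (hB h2) (h.inv b (hB hb) h1)

theorem mem_loc {B : Subalgebra ℂ L} (hB : B ≤ O) (c : L) :
    (∃ b : B, b ∉ RingHom.ker (hom h B hB) ∧ c * b ∈ B) ↔ Frac B ev c :=
  ⟨fun ⟨b, h1, h2⟩ => ⟨b, b.2, h1, h2⟩, fun ⟨b, hb, h1, h2⟩ => ⟨⟨b, hb⟩, h1, h2⟩⟩

end

theorem exists_hom (A : Subalgebra ℂ L) (hA : A.FG) (m : Ideal A) (hm : m.IsMaximal) :
    ∃ e : A →ₐ[ℂ] ℂ, ∀ a, e a = 0 ↔ a ∈ m := by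
  have := A.fg_iff_finiteType.1 hA
  let _ := Ideal.Quotient.field m
  have := finite_of_finite_type_of_isJacobsonRing ℂ (A ⧸ m)
  let f : ℂ ≃ₐ[ℂ] A ⧸ m :=
    .ofBijective (Algebra.ofId ℂ (A ⧸ m)) IsAlgClosed.algebraMap_bijective_of_isIntegral
  refine ⟨f.symm.toAlgHom.comp (Ideal.Quotient.mkₐ ℂ m), fun a => ?_⟩
  simp [Ideal.Quotient.eq_zero_iff_mem]

theorem pt_ev (A O : Subalgebra ℂ L) (hA : A.FG) (h : GPt A O) :
    ∃ ev, Loc O ev ∧ A ≤ O ∧ ∀ c ∈ O, Frac A ev c := by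
  classical
  have hle := pt_le h
  obtain ⟨m, hm, h⟩ := h
  obtain ⟨e, he⟩ := exists_hom A hA m hm
  simp only [← he] at h
  obtain ⟨ev, key⟩ : ∃ ev : L → ℂ, ∀ (c : L) (a b : A), e b ≠ 0 → c * b = a → ev c * e b = e a := by
    refine ⟨fun c => if g : ∃ p : A × A, e p.2 ≠ 0 ∧ c * p.2 = p.1 then
      e g.choose.1 / e g.choose.2 else 0, fun c a b hb hc => ?_⟩
    have g : ∃ p : A × A, e p.2 ≠ 0 ∧ c * p.2 = p.1 := ⟨(a, b), hb, hc⟩
    obtain ⟨g1, g2⟩ := g.choose_spec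
    simp only [dif_pos g]
    rw [div_mul_eq_mul_div, div_eq_iff g1, ← map_mul, ← map_mul]
    congr 1
    ext
    push_cast
    rw [← g2, ← hc]
    ring
  have hA' : ∀ a : A, ev a = e a := fun a => by simpa using key a a 1 (by simp) (by simp)
  refine ⟨ev, ⟨fun c hc c' hc' => ?_, fun c hc c' hc' => ?_, fun r => ?_, fun c hc h0 => ?_⟩, hle,
    fun c hc => ?_⟩
  · obtain ⟨b, hb, h1⟩ := (h c).1 hc
    obtain ⟨b', hb', h2⟩ := (h c').1 hc'
    have k := key (c + c') (⟨_, h1⟩ * b' + ⟨_, h2⟩ * b) (b * b')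
      (by rw [map_mul]; exact mul_ne_zero hb hb') (by push_cast; ring)
    rw [map_add, map_mul, map_mul, map_mul, ← key c ⟨_, h1⟩ b hb rfl,
      ← key c' ⟨_, h2⟩ b' hb' rfl] at k
    exact mul_right_cancel₀ (mul_ne_zero hb hb') (by rw [k]; ring)
  · obtain ⟨b, hb, h1⟩ := (h c).1 hc
    obtain ⟨b', hb', h2⟩ := (h c').1 hc'
    have k := key (c * c') (⟨_, h1⟩ * ⟨_, h2⟩) (b * b')
      (by rw [map_mul]; exact mul_ne_zero hb hb') (by push_cast; ring)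
    rw [map_mul, map_mul, ← key c ⟨_, h1⟩ b hb rfl, ← key c' ⟨_, h2⟩ b' hb' rfl] at k
    exact mul_right_cancel₀ (mul_ne_zero hb hb') (by rw [k]; ring)
  · exact (hA' (algebraMap ℂ A r)).trans (e.commutes r)
  · obtain ⟨b, hb, h1⟩ := (h c).1 hc
    have k := key c ⟨_, h1⟩ b hb rfl
    have hc0 : c ≠ 0 := fun e0 => h0 (e0 ▸ (hA' 0).trans (map_zero e))
    refine (h _).2 ⟨⟨_, h1⟩, k ▸ mul_ne_zero h0 hb, ?_⟩
    change c⁻¹ * (c * b) ∈ A
    rw [inv_mul_cancel_left₀ hc0]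
    exact b.2
  · obtain ⟨b, hb, h1⟩ := (h c).1 hc
    exact ⟨b, b.2, (hA' b).symm ▸ hb, h1⟩

theorem mem_of (A : Subalgebra ℂ L) (c : L) (h : ∀ O, GPt A O → c ∈ O) : c ∈ A := by
  let I : Ideal A :=
    { carrier := {b | c * b ∈ A}
      add_mem' := fun {a b} ha hb => by
        change c * (a + b) ∈ A
        rw [mul_add]
        exact A.add_mem ha hb
      zero_mem' := by simp
      smul_mem' := fun a b hb => by
        change c * (a * b) ∈ A
        rw [mul_left_comm]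
        exact A.mul_mem a.2 hb }
  by_contra hc
  obtain ⟨m, hm, hI⟩ := I.exists_le_maximal ((Ideal.ne_top_iff_one I).2 fun h1 =>
    hc (mul_one c ▸ (h1 : c * 1 ∈ A)))
  obtain ⟨b, hb, h1⟩ := h (loc A m hm.isPrime) ⟨m, hm, fun _ => Iff.rfl⟩
  exact hb (hI h1)

theorem exists_pt (B R : Subalgebra ℂ L) (hB : B ≤ R) (hR : IsLocalRing R) :
    ∃ O, GPt B O ∧ O ≤ R := by
  obtain ⟨m, hm, hI⟩ := ((IsLocalRing.maximalIdeal R).comap
    (Subalgebra.inclusion hB)).exists_le_maximal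
    (Ideal.comap_ne_top _ (IsLocalRing.maximalIdeal.isMaximal R).ne_top)
  refine ⟨loc B m hm.isPrime, ⟨m, hm, fun _ => Iff.rfl⟩, fun c ⟨b, hb, h1⟩ => ?_⟩
  obtain ⟨b', hb'⟩ := (IsLocalRing.notMem_maximalIdeal.1 fun g =>
    hb (hI (Ideal.mem_comap.2 g))).exists_right_inv
  have e : (b : L) * b' = 1 := congrArg Subtype.val hb'
  rw [← mul_one c, ← e, ← mul_assoc]
  exact R.mul_mem (hB h1) b'.2

theorem map (A O : Subalgebra ℂ L) (σ : L ≃ₐ[ℂ] L) (h : GPt A O) :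
    GPt (A.map (σ : L →ₐ[ℂ] L)) (O.map (σ : L →ₐ[ℂ] L)) := by
  obtain ⟨m, hm, h⟩ := h
  have hmem : ∀ (S : Subalgebra ℂ L) (c : L), σ c ∈ S.map (σ : L →ₐ[ℂ] L) ↔ c ∈ S := fun S c =>
    ⟨fun ⟨x, hx, e⟩ => σ.injective e ▸ hx, fun hc => ⟨c, hc, rfl⟩⟩
  refine ⟨m.comap (σ.subalgebraMap A).symm,
    Ideal.comap_isMaximal_of_surjective _ (σ.subalgebraMap A).symm.surjective, fun c => ?_⟩
  obtain ⟨c, rfl⟩ := σ.surjective c
  rw [hmem, h, (σ.subalgebraMap A).surjective.exists]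
  refine exists_congr fun b => ?_
  rw [Ideal.mem_comap, AlgEquiv.symm_apply_apply, ← hmem A, map_mul]
  rfl

theorem smax (O : Subalgebra ℂ L) (ev : L → ℂ) (u : Fin 5 → O) (h : Loc O ev)
    (hu : ∀ i, ev (u i) = 0)
    (hf : ∀ c ∈ O, Frac (Algebra.adjoin ℂ (Set.range fun i => (u i : L))) ev c) :
    (Ideal.span (Set.range u)).IsMaximal := by
  have hle : Algebra.adjoin ℂ (Set.range fun i => (u i : L)) ≤ O :=
    Algebra.adjoin_le (Set.range_subset_iff.2 fun i => (u i).2)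
  have key : ∀ a (ha : a ∈ Algebra.adjoin ℂ (Set.range fun i => (u i : L))),
      ∃ r : ℂ, (⟨a, hle ha⟩ : O) - algebraMap ℂ O r ∈ Ideal.span (Set.range u) := by
    intro a ha
    induction ha using Algebra.adjoin_induction with
    | mem x hx =>
      obtain ⟨i, rfl⟩ := hx
      exact ⟨0, by rw [map_zero, sub_zero]; exact Ideal.subset_span ⟨i, rfl⟩⟩
    | algebraMap r => exact ⟨r, by rw [sub_eq_zero.2 (by rfl)]; exact Ideal.zero_mem _⟩
    | add x y hx hy ix iy =>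
      obtain ⟨r, hr⟩ := ix
      obtain ⟨s, hs⟩ := iy
      refine ⟨r + s, ?_⟩
      have := Ideal.add_mem _ hr hs
      rwa [← add_sub_add_comm, ← map_add] at this
    | mul x y hx hy ix iy =>
      obtain ⟨r, hr⟩ := ix
      obtain ⟨s, hs⟩ := iy
      refine ⟨r * s, ?_⟩
      have := Ideal.add_mem _ (Ideal.mul_mem_right ⟨y, hle hy⟩ _ hr)
        (Ideal.mul_mem_left _ (algebraMap ℂ O r) hs)
      rwa [sub_mul, mul_sub, sub_add_sub_cancel, ← map_mul] at this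
  have h1 : Ideal.span (Set.range u) ≤ RingHom.ker (hom h O le_rfl) :=
    Ideal.span_le.2 (Set.range_subset_iff.2 hu)
  rw [le_antisymm h1 fun c hc => ?_]
  · exact kmax h O le_rfl
  obtain ⟨b, hb, h2, h3⟩ := hf c c.2
  obtain ⟨r, hr⟩ := key _ h3
  have h4 : hom h O le_rfl (c * ⟨b, hle hb⟩ - algebraMap ℂ O r) = 0 := h1 hr
  rw [map_sub, map_mul, RingHom.mem_ker.1 hc, zero_mul, zero_sub, AlgHom.commutes,
    neg_eq_zero] at h4
  rw [show r = 0 from h4, map_zero, sub_zero] at hr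
  have hb0 : b ≠ 0 := fun e => h2 (e ▸ ev0 h)
  have := Ideal.mul_mem_right ⟨b⁻¹, h.inv b (hle hb) h2⟩ _ hr
  rwa [show (⟨c * b, hle h3⟩ * ⟨b⁻¹, h.inv b (hle hb) h2⟩ : O) = c from
    Subtype.ext (mul_inv_cancel_right₀ hb0 _)] at this

end GA

open GA in
theorem sGA (L : Type) [Field L] [Algebra ℂ L] : SGA L where
  pt_ev := pt_ev
  pt_le := fun _ _ => pt_le
  pt_of := fun B _ _ h hB hf => ⟨_, kmax h B hB, fun c =>
    ⟨fun hc => (mem_loc h hB c).2 (hf c hc), fun hc => of_frac h hB ((mem_loc h hB c).1 hc)⟩⟩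
  mem_of := mem_of
  exists_pt := exists_pt
  map := GA.map
  frac := fun B O ev h hB => ⟨loc B _ (kmax h B hB).isPrime, mem_loc h hB,
    pt_le ⟨_, kmax h B hB, fun _ => Iff.rfl⟩, fun c hc => of_frac h hB ((mem_loc h hB c).1 hc),
    fun c hc h0 => by
      have hf := (mem_loc h hB c).1 hc
      have hO := of_frac h hB hf
      obtain ⟨b, hb, h1, h2⟩ := hf
      refine (mem_loc h hB _).2 ⟨c * b, h2, ?_, ?_⟩
      · rw [h.mul c hO b (hB hb)]
        exact mul_ne_zero h0 h1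
      · rwa [inv_mul_cancel_left₀ fun e => h0 (by rw [e, ev0 h])]⟩
  der := fun A O d ⟨m, hm, h⟩ hd hA c hc => by
    obtain ⟨b, hb, h1⟩ := (h c).1 hc
    refine (h _).2 ⟨b * b, fun e => (hm.isPrime.mem_or_mem e).elim hb hb, ?_⟩
    rw [show d c * (b * b : A) = d (c * b) * b - c * b * d b by rw [hd]; push_cast; ring]
    exact A.sub_mem (A.mul_mem (hA _ h1) b.2) (A.mul_mem h1 (hA _ b.2))
  ev_zero := fun _ _ => ev0
  ev_one := fun _ _ => ev1
  ev_neg := fun O _ h a ha => map_neg (hom h O le_rfl) ⟨a, ha⟩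
  ev_sub := fun O _ h a ha b hb => map_sub (hom h O le_rfl) ⟨a, ha⟩ ⟨b, hb⟩
  ev_unit := fun _ _ h a ha h0 hi => left_ne_zero_of_mul_eq_one (by
    rw [← h.mul a ha _ hi, mul_inv_cancel₀ h0, ev1 h])
  max := smax

end Pool.Agent.MP_cb8d3a_ag.H42
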