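import Pool.Agent.MP_cb8d3a_ag.H42.GDefs

noncomputable section

open scoped BigOperators

namespace Pool.Agent.MP_cb8d3a_ag.H42

namespace GB

variable {L : Type} [Field L] [Algebra ℂ L] {z : Fin 11 → ℂ} {x : Pt → L}

theorem ed_ne (hc : Conf z x) (τ : Tr) (k : Fin 3) : ed x τ k ≠ 0 := fun h =>
  (by decide : ∀ k : Fin 3, k + 1 ≠ k + 2) k (τ.2 (hc.hx (sub_eq_zero.1 h)))

theorem xJ_ne (hc : Conf z x) (J : Tr → Fin 3) : xJ x J ≠ 0 :=
  Finset.prod_ne_zero_iff.2 fun τ _ => ed_ne hc τ _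

theorem gen (J J' : Tr → Fin 3) : xJ x J' / xJ x J ∈ chartJ x J := Algebra.subset_adjoin ⟨J', rfl⟩

theorem fg (J : Tr → Fin 3) : (chartJ x J).FG :=
  Subalgebra.fg_def.2 ⟨_, Set.finite_range _, rfl⟩

theorem ratio (hc : Conf z x) (J : Tr → Fin 3) (τ : Tr) (k : Fin 3) :
    ed x τ k / ed x τ (J τ) ∈ chartJ x J := by
  have h := gen (x := x) J (Function.update J τ k)
  have e : ∏ τ' ∈ Finset.univ.erase τ, ed x τ' (Function.update J τ k τ') =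
      ∏ τ' ∈ Finset.univ.erase τ, ed x τ' (J τ') :=
    Finset.prod_congr rfl fun τ' h => by rw [Function.update_of_ne (Finset.ne_of_mem_erase h)]
  rwa [xJ, xJ, ← Finset.mul_prod_erase _ _ (Finset.mem_univ τ),
    ← Finset.mul_prod_erase _ _ (Finset.mem_univ τ), e, Function.update_self,
    mul_div_mul_right _ _ (Finset.prod_ne_zero_iff.2 fun τ _ => ed_ne hc τ _)] at h

theorem chart_le (J : Tr → Fin 3) (A : Subalgebra ℂ L)
    (h : ∀ τ k, ed x τ k / ed x τ (J τ) ∈ A) : chartJ x J ≤ A := by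
  refine Algebra.adjoin_le ?_
  rintro _ ⟨J', rfl⟩
  simp only [xJ, ← Finset.prod_div_distrib]
  exact A.prod_mem fun τ _ => h τ _

theorem ed_div {A : Subalgebra ℂ L} (h : HasAt x A) (τ : Tr) (k k' : Fin 3) :
    ed x τ k / ed x τ k' ∈ A := by
  rw [div_eq_mul_inv]
  exact A.mul_mem (h _ _).1 (h _ _).2

theorem chart_at (J : Tr → Fin 3) (A : Subalgebra ℂ L) (h : HasAt x A) : chartJ x J ≤ A :=
  chart_le J A fun _ _ => ed_div h _ _ _

theorem pt (hA : SGA L) {A B O : Subalgebra ℂ L} {ev : L → ℂ} (hO : Loc O ev) (hB : B ≤ O)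
    (hF : ∀ c ∈ O, Frac A ev c)
    (h : ∀ B' : Subalgebra ℂ L, B ≤ B' →
      (∀ c ∈ B', c ≠ 0 → c⁻¹ ∈ O → c⁻¹ ∈ B') → A ≤ B') : GPt B O := by
  obtain ⟨B', h1, h2, h3, h4⟩ := hA.frac B O ev hO hB
  have h5 := h B' h2 fun c hc h0 hi => h4 c hc (hA.ev_unit O ev hO c (h3 hc) h0 hi)
  refine hA.pt_of B O ev hO hB fun c hc => (h1 c).1 ?_
  obtain ⟨b, hb, hb0, hcb⟩ := hF c hc
  have : b ≠ 0 := fun e => hb0 (e ▸ hA.ev_zero O ev hO)
  rw [← mul_inv_cancel_right₀ this c]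
  exact B'.mul_mem (h5 hcb) (h4 b (h5 hb) hb0)

theorem pick (p q : Pt) : ∃ i j : Fin 11, i ≠ j ∧ Sum.inr i ≠ p ∧ Sum.inr i ≠ q ∧ Sum.inr j ≠ p := by
  revert p q
  decide

theorem hasAt (hc : Conf z x) {B : Subalgebra ℂ L} (h : ∀ τ k k', ed x τ k / ed x τ k' ∈ B) :
    HasAt x B := by
  have key : ∀ p q r, p ≠ q → p ≠ r → q ≠ r → (x p - x q) / (x p - x r) ∈ B := by
    intro p q r h1 h2 h3
    have hi : Function.Injective ![p, q, r] := by
      intro a b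
      fin_cases a <;> fin_cases b <;> simp [h1, h2, h3, h1.symm, h2.symm, h3.symm]
    have := B.neg_mem (h ⟨_, hi⟩ 2 1)
    rw [← div_neg, ed, ed, neg_sub] at this
    exact this
  intro p q
  by_cases hpq : p = q
  · simp [hpq]
  obtain ⟨i, j, hij, h1, h2, h3⟩ := pick p q
  have hij' : (Sum.inr i : Pt) ≠ Sum.inr j := fun e => hij (Sum.inr_injective e)
  have hk : x (Sum.inr i) - x (Sum.inr j) = algebraMap ℂ L (z i - z j) := by
    rw [hc.fix, hc.fix, map_sub]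
  have n1 : x p - x q ≠ 0 := sub_ne_zero.2 (hc.hx.ne hpq)
  have n2 : x p - x (Sum.inr i) ≠ 0 := sub_ne_zero.2 (hc.hx.ne h1.symm)
  have n3 : x (Sum.inr i) - x p ≠ 0 := sub_ne_zero.2 (hc.hx.ne h1)
  have n4 : x (Sum.inr i) - x (Sum.inr j) ≠ 0 := sub_ne_zero.2 (hc.hx.ne hij')
  constructor
  · have := B.neg_mem (B.mul_mem (B.mul_mem (key p q _ hpq h1.symm h2.symm)
      (key _ p _ h1 hij' h3.symm)) (hk ▸ B.algebraMap_mem (z i - z j)))
    refine (Eq.mpr (congrArg (· ∈ B) ?_) this)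
    field_simp
    ring
  · have := B.neg_mem (B.mul_mem (B.mul_mem (key p _ q h1.symm hpq h2)
      (key _ _ p hij' h1 h3)) (B.algebraMap_mem (z i - z j)⁻¹))
    rw [map_inv₀, ← hk] at this
    refine (Eq.mpr (congrArg (· ∈ B) ?_) this)
    field_simp
    ring

theorem lam (𝓢 : Set (Finset Pt)) (h : ∀ S ∈ 𝓢, ∀ T ∈ 𝓢, S ⊆ T ∨ T ⊆ S ∨ Disjoint S T) (τ : Tr) :
    ∃ j : Fin 3, ∀ S ∈ 𝓢, ∀ k,
      exS S (τ.1 (j + 1)) (τ.1 (j + 2)) ≤ exS S (τ.1 (k + 1)) (τ.1 (k + 2)) := by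
  by_contra hn
  push Not at hn
  have key : ∀ j : Fin 3, ∃ S ∈ 𝓢, τ.1 (j + 1) ∈ S ∧ τ.1 (j + 2) ∈ S ∧ τ.1 j ∉ S := fun j => by
    obtain ⟨S, hS, k, hk⟩ := hn j
    have h1 : τ.1 (j + 1) ∈ S ∧ τ.1 (j + 2) ∈ S := by
      by_contra h1
      simp only [exS, if_neg h1] at hk
      split_ifs at hk <;> omega
    refine ⟨S, hS, h1.1, h1.2, fun h0 => ?_⟩
    have h2 : ∀ l, τ.1 l ∈ S := fun l => by
      rcases (by decide : ∀ j l : Fin 3, l = j ∨ l = j + 1 ∨ l = j + 2) j l with rfl | rfl | rfl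
      exacts [h0, h1.1, h1.2]
    simp [exS, h2] at hk
  obtain ⟨S, hS, a1, a2, a0⟩ := key 0
  obtain ⟨T, hT, b2, b0, b1⟩ := key 1
  rcases h S hS T hT with h | h | h
  exacts [b1 (h a1), a0 (h b0), Finset.disjoint_left.1 h a2 b2]

theorem perm (σ : L ≃ₐ[ℂ] L) (π : Equiv.Perm Pt) (h : ∀ p, σ (x p) = x (π p)) (J : Tr → Fin 3) :
    ∃ J', (chartJ x J).map (σ : L →ₐ[ℂ] L) = chartJ x J' := by
  let e : Tr ≃ Tr :=
    { toFun := fun τ => ⟨π ∘ τ.1, π.injective.comp τ.2⟩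
      invFun := fun τ => ⟨π.symm ∘ τ.1, π.symm.injective.comp τ.2⟩
      left_inv := fun τ => Subtype.ext (funext fun k => by simp)
      right_inv := fun τ => Subtype.ext (funext fun k => by simp) }
  have h1 : ∀ K : Tr → Fin 3, σ (xJ x K) = xJ x (K ∘ e.symm) := fun K => by
    rw [xJ, map_prod]
    refine Fintype.prod_equiv e _ _ fun τ => ?_
    rw [Function.comp_apply, e.symm_apply_apply, ed, map_sub, h, h]
    rfl
  refine ⟨J ∘ e.symm, ?_⟩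
  rw [chartJ, AlgHom.map_adjoin, ← Set.range_comp, chartJ]
  refine congrArg _ (Set.ext fun c => ⟨?_, ?_⟩)
  · rintro ⟨K, rfl⟩
    exact ⟨K ∘ e.symm, by simp [h1]⟩
  · rintro ⟨K, rfl⟩
    exact ⟨K ∘ e, by simp [h1, Function.comp_assoc]⟩

end GB

theorem sGB {L : Type} [Field L] [Algebra ℂ L] {z : Fin 11 → ℂ} {x : Pt → L} (hA : SGA L)
    (hc : Conf z x) : SGB L z x where
  ed_ne := GB.ed_ne hc
  xJ_ne := GB.xJ_ne hc
  fg := GB.fg
  ratio := GB.ratio hc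
  chart_le := GB.chart_le
  chart_at := GB.chart_at
  sub A hfg hat hmin O J hO := by
    obtain ⟨ev, h1, h2, h3⟩ := hA.pt_ev A O hfg hO
    refine GB.pt hA h1 ((GB.chart_at J A hat).trans h2) h3 fun B' hB hi => hmin B' ?_
    refine GB.hasAt hc fun τ k k' => ?_
    have h4 := hi _ (hB (GB.ratio hc J τ k')) (div_ne_zero (GB.ed_ne hc _ _) (GB.ed_ne hc _ _))
      (by rw [inv_div]; exact h2 (GB.ed_div hat _ _ _))
    have := B'.mul_mem (hB (GB.ratio hc J τ k)) h4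
    rwa [inv_div, div_mul_div_cancel₀ (GB.ed_ne hc _ _)] at this
  two R J J' hR h h' := by
    obtain ⟨O, hO, hOR⟩ := hA.exists_pt _ R (sup_le h h') hR
    obtain ⟨ev, h1, h2, h3⟩ := hA.pt_ev _ O ((GB.fg J).sup (GB.fg J')) hO
    refine ⟨O, GB.pt hA h1 (le_sup_left.trans h2) h3 fun B' hB hi => sup_le hB ?_,
      le_sup_left.trans h2, le_sup_right.trans h2, hOR⟩
    refine Algebra.adjoin_le ?_
    rintro _ ⟨K, rfl⟩
    have h4 := hi _ (hB (GB.gen J J')) (div_ne_zero (GB.xJ_ne hc _) (GB.xJ_ne hc _))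
      (by rw [inv_div]; exact le_sup_right.trans h2 (GB.gen J' J))
    have := B'.mul_mem (hB (GB.gen J K)) h4
    rwa [inv_div, div_mul_div_cancel₀ (GB.xJ_ne hc _)] at this
  perm := GB.perm
  lam 𝓢 h := by
    choose J hJ using GB.lam 𝓢 h
    exact ⟨J, fun S hS τ k => hJ τ S hS k⟩

end Pool.Agent.MP_cb8d3a_ag.H42
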