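import Pool.Agent.MP_cb8d3a_ag.H42.GS

noncomputable section

open scoped BigOperators

namespace Pool.Agent.MP_cb8d3a_ag.H42
open Pool.Agent.MP_cb8d3a_ag.S2

namespace GK

section
variable {L : Type} [Field L]

theorem d_one (d : L → L) (hd : ∀ a b, d (a * b) = d a * b + a * d b) : d 1 = 0 := by
  have h := hd 1 1
  simp only [mul_one, one_mul] at h
  exact left_eq_add.1 h

theorem dl_mul (d : L → L) (hd : ∀ a b, d (a * b) = d a * b + a * d b) {a b : L} (ha : a ≠ 0)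
    (hb : b ≠ 0) : d (a * b) / (a * b) = d a / a + d b / b := by
  rw [hd]; field_simp

theorem dl_zpow (d : L → L) (hd : ∀ a b, d (a * b) = d a * b + a * d b) {a : L} (ha : a ≠ 0)
    (n : ℤ) : d (a ^ n) / a ^ n = n * (d a / a) := by
  induction n using Int.induction_on with
  | zero => simp [d_one d hd]
  | succ n ih =>
    rw [zpow_add_one₀ ha, dl_mul d hd (zpow_ne_zero _ ha) ha, ih]; push_cast; ring
  | pred n ih =>
    have h := dl_mul d hd (zpow_ne_zero (-(n : ℤ) - 1) ha) ha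
    rw [← zpow_add_one₀ ha, sub_add_cancel, ih] at h
    push_cast at h ⊢
    linear_combination -h

theorem dl_prod (d : L → L) (hd : ∀ a b, d (a * b) = d a * b + a * d b) {ι : Type}
    (u : ι → L) (e : ι → ℤ) (D : Finset ι) (hu : ∀ i ∈ D, u i ≠ 0) :
    d (∏ i ∈ D, u i ^ e i) / ∏ i ∈ D, u i ^ e i = ∑ i ∈ D, e i * (d (u i) / u i) := by
  classical
  induction D using Finset.induction_on with
  | empty => simp [d_one d hd]
  | insert i D hi ih =>
    have h1 := hu i (Finset.mem_insert_self _ _)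
    have h2 : ∀ j ∈ D, u j ≠ 0 := fun j hj => hu j (Finset.mem_insert_of_mem hj)
    rw [Finset.prod_insert hi, Finset.sum_insert hi, dl_mul d hd (zpow_ne_zero _ h1)
      (Finset.prod_ne_zero_iff.2 fun j hj => zpow_ne_zero _ (h2 j hj)), ih h2, dl_zpow d hd h1]

theorem res_eq [CharZero L] (d : L → L) (hd : ∀ a b, d (a * b) = d a * b + a * d b) {ι H : Type}
    [Fintype H] (u : ι → L) (e : H → ι → ℤ) (D : Finset ι) (hu : ∀ i ∈ D, u i ≠ 0)
    (w : H → ℚ) (y ε : H → L) (hε : ∀ h, ε h ≠ 0) (hy : ∀ h, y h = ε h * ∏ i ∈ D, u i ^ e h i) :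
    ∑ h, (w h : L) * (d (y h) / y h) -
      ∑ i ∈ D, ((∑ h, w h * e h i : ℚ) : L) * (d (u i) / u i) =
      ∑ h, ((w h : L) * (ε h)⁻¹) * d (ε h) := by
  have h1 : ∀ h, d (y h) / y h = d (ε h) / ε h + ∑ i ∈ D, e h i * (d (u i) / u i) := fun h => by
    rw [hy, dl_mul d hd (hε h) (Finset.prod_ne_zero_iff.2 fun j hj => zpow_ne_zero _ (hu j hj)),
      dl_prod d hd u _ D hu]
  simp only [h1, mul_add, Finset.sum_add_distrib, Finset.mul_sum]
  push_cast
  simp only [Finset.sum_mul]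
  rw [Finset.sum_comm (s := D)]
  simp only [mul_assoc, add_sub_cancel_right]
  exact Finset.sum_congr rfl fun h _ => by rw [div_eq_inv_mul]

variable [Algebra ℂ L]

theorem zp {A : Subalgebra ℂ L} {a : L} (h : a ∈ A) (h' : a⁻¹ ∈ A) (n : ℤ) : a ^ n ∈ A := by
  obtain ⟨k, rfl | rfl⟩ := n.eq_nat_or_neg
  · rw [zpow_natCast]; exact A.pow_mem h k
  · rw [zpow_neg, zpow_natCast, ← inv_pow]; exact A.pow_mem h' k

theorem un {A : Subalgebra ℂ L} {ι : Type} (u : ι → L) (e : ι → ℤ) (D : Finset ι)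
    (hu : ∀ i ∈ D, u i ∈ A ∧ (u i)⁻¹ ∈ A) {ε : L} (h : ε ∈ A) (h' : ε⁻¹ ∈ A) :
    ε * ∏ i ∈ D, u i ^ e i ∈ A ∧ (ε * ∏ i ∈ D, u i ^ e i)⁻¹ ∈ A := by
  refine ⟨A.mul_mem h (A.prod_mem fun i hi => zp (hu i hi).1 (hu i hi).2 _), ?_⟩
  rw [mul_inv, ← Finset.prod_inv_distrib]
  refine A.mul_mem h' (A.prod_mem fun i hi => ?_)
  rw [← zpow_neg]
  exact zp (hu i hi).1 (hu i hi).2 _

theorem iv0 (A : Subalgebra ℂ L) (a : L) : (a - a)⁻¹ ∈ A := by
  rw [sub_self, inv_zero]; exact A.zero_mem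

theorem iv1 {A : Subalgebra ℂ L} {a b : L} (h : (a - b)⁻¹ ∈ A) : (b - a)⁻¹ ∈ A := by
  rw [← neg_sub, inv_neg]; exact A.neg_mem h

theorem iv2 (A : Subalgebra ℂ L) (r s : ℂ) : (algebraMap ℂ L r - algebraMap ℂ L s)⁻¹ ∈ A := by
  rw [← map_sub, ← map_inv₀]; exact A.algebraMap_mem _

theorem bd (x : Pt → L) (O U : Subalgebra ℂ L) (u : Fin 5 → O) (D : Finset (Fin 5))
    (e : Fin 5 → Pt → Pt → ℤ)
    (hε : ∀ p q, p ≠ q → ∃ ε ∈ O, ε⁻¹ ∈ O ∧ x p - x q = ε * ∏ i ∈ D, (u i : L) ^ e i p q)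
    (hmin : ∀ A, HasAt x A → U ≤ A) (hinv : ∀ i ∈ D, (u i : L)⁻¹ ∈ U) :
    O ⊔ U = O ⊔ Algebra.adjoin ℂ ((fun i => (u i : L)⁻¹) '' D) := by
  refine le_antisymm (sup_le le_sup_left (hmin _ fun p q => ?_))
    (sup_le le_sup_left (Algebra.adjoin_le ?_))
  · by_cases h : p = q
    · rw [h, sub_self, inv_zero]; exact ⟨zero_mem _, zero_mem _⟩
    · obtain ⟨ε, h1, h2, h3⟩ := hε p q h
      rw [h3]
      have hl : O ≤ O ⊔ Algebra.adjoin ℂ ((fun i => (u i : L)⁻¹) '' D) := le_sup_left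
      have hr : _ ≤ O ⊔ Algebra.adjoin ℂ ((fun i => (u i : L)⁻¹) '' D) := le_sup_right
      exact un (fun i => (u i : L)) (fun i => e i p q) D
        (fun i hi => ⟨hl (u i).2, hr (Algebra.subset_adjoin ⟨i, hi, rfl⟩)⟩) (hl h1) (hl h2)
  · rintro _ ⟨i, hi, rfl⟩
    exact (le_sup_right : U ≤ O ⊔ U) (hinv i hi)

theorem rat_mem [CharZero L] (O : Subalgebra ℂ L) (r : ℚ) : (r : L) ∈ O := by
  rw [← map_ratCast (algebraMap ℂ L)]; exact O.algebraMap_mem _

end

theorem hyp_eq (z : Fin 11 → ℂ) (h : Hyp) :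
    hyp z h = x2 z (H90.toAt h).1 - x2 z (H90.toAt h).2 := by
  cases h <;> rfl

theorem toAt_ne (h : Hyp) : (H90.toAt h).1 ≠ (H90.toAt h).2 := by
  rcases h with p | p
  · exact Sum.inl_ne_inr
  · exact fun h => p.2.ne (Sum.inl_injective h)

theorem pairs : ∀ A : Finset (Fin 5), 2 * (∑ p : {p : Fin 5 × Fin 5 // p.1 < p.2},
    if p.1.1 ∈ A ∧ p.1.2 ∈ A then (1 : ℤ) else 0) = A.card * (A.card - 1) := by
  decide

theorem npairs : Fintype.card {p : Fin 5 × Fin 5 // p.1 < p.2} = 10 := by decide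

theorem a_lt (S : Finset Pt) (h1 : S ≠ Finset.univ) (h2 : Zs ⊆ S ∨ (S ∩ Zs).card ≤ 1) :
    ∑ h : Hyp, expo h * exS S (H90.toAt h).1 (H90.toAt h).2 < 1 := by
  set A : Finset (Fin 5) := Finset.univ.filter fun a => Sum.inl a ∈ S with hA
  set B : Finset (Fin 11) := Finset.univ.filter fun i => Sum.inr i ∈ S with hB
  have hP := pairs A
  simp only [hA, Finset.mem_filter, Finset.mem_univ, true_and] at hP
  rw [← hA] at hP
  set P : ℤ := ∑ p : {p : Fin 5 × Fin 5 // p.1 < p.2},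
    if Sum.inl p.1.1 ∈ S ∧ Sum.inl p.1.2 ∈ S then (1 : ℤ) else 0 with hPd
  set ζ : ℤ := if Zs ⊆ S then 1 else 0 with hζ
  have e1 : ∑ p : Fin 5 × Fin 11, exS S (Sum.inl p.1) (Sum.inr p.2) =
      A.card * B.card - 55 * ζ := by
    simp only [exS, Finset.sum_sub_distrib, ← hζ, Finset.sum_const, Finset.card_univ,
      Fintype.card_prod, Fintype.card_fin, Fintype.sum_prod_type, ite_zero_mul_ite_zero, hA, hB,
      Finset.card_filter, Nat.cast_sum, Finset.sum_mul_sum, Nat.cast_ite, Nat.cast_one,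
      Nat.cast_zero, mul_one]
    ring
  have e2 : ∑ p : {p : Fin 5 × Fin 5 // p.1 < p.2}, exS S (Sum.inl p.1.1) (Sum.inl p.1.2) =
      P - 10 * ζ := by
    simp only [exS, Finset.sum_sub_distrib, ← hζ, Finset.sum_const, Finset.card_univ, npairs,
      ← hPd]
    ring
  have e3 : ∑ h : Hyp, expo h * exS S (H90.toAt h).1 (H90.toAt h).2 =
      (((A.card * B.card - 55 * ζ) - 2 * (P - 10 * ζ) : ℤ) : ℚ) / 3 := by
    rw [← e1, ← e2, Fintype.sum_sum_type]
    simp only [expo, H90.toAt, ← Finset.mul_sum]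
    push_cast
    ring
  rw [e3, div_lt_one (by norm_num)]
  have e4 : (A.card * B.card - 55 * ζ) - 2 * (P - 10 * ζ) < (3 : ℤ) := by
    by_cases hz : Zs ⊆ S
    · have hB' : B.card ≤ 11 := by simpa using Finset.card_le_univ B
      have hA' : A.card < 5 := by
        have : A ≠ Finset.univ := fun h => h1 (Finset.eq_univ_of_forall fun p => by
          rcases p with a | i
          · have : a ∈ A := h ▸ Finset.mem_univ a
            exact (Finset.mem_filter.1 this).2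
          · exact hz (Finset.mem_image_of_mem _ (Finset.mem_univ i)))
        simpa using (Finset.card_lt_iff_ne_univ A).2 this
      rw [hζ, if_pos hz]
      have hB2 : (B.card : ℤ) ≤ 11 := by exact_mod_cast hB'
      have hA2 : (A.card : ℤ) ≤ 4 := by omega
      have hA0 : (0 : ℤ) ≤ A.card := Int.natCast_nonneg _
      nlinarith
    · have hB' : B.card ≤ 1 := by
        refine le_trans ?_ (h2.resolve_left hz)
        rw [← Finset.card_image_of_injective B (Sum.inr_injective (α := Fin 5))]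
        refine Finset.card_le_card fun p hp => ?_
        obtain ⟨i, hi, rfl⟩ := Finset.mem_image.1 hp
        exact Finset.mem_inter.2 ⟨(Finset.mem_filter.1 hi).2,
          Finset.mem_image_of_mem _ (Finset.mem_univ i)⟩
      rw [hζ, if_neg hz]
      have hB2 : (B.card : ℤ) ≤ 1 := by exact_mod_cast hB'
      have hA0 : (0 : ℤ) ≤ A.card := Int.natCast_nonneg _
      have h3 := mul_le_mul_of_nonneg_left hB2 hA0
      have h4 := sq_nonneg ((A.card : ℤ) - 1)
      generalize (A.card : ℤ) = k at *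
      nlinarith
  exact_mod_cast e4

end GK

theorem sU {z : Fin 11 → ℂ} (hz : Function.Injective z) (hA : H90.SAt z) : SU z where
  conf := ⟨hz, fun p q h => by
    by_contra hne
    exact hA.av_ne (p, q) hne ((e_av z p q).symm.trans (sub_eq_zero.2 h)), fun _ => rfl⟩
  hasAt p q := by
    refine ⟨(e_OU z _).2 (by rw [e_av]; exact hA.av_OU _), ?_⟩
    have h0 : ∀ h : Hyp, (hyp z h)⁻¹ ∈ OU z := fun h => Algebra.subset_adjoin (Or.inr ⟨h, rfl⟩)
    rcases p with a | i <;> rcases q with b | j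
    · rcases lt_trichotomy a b with h | rfl | h
      · exact h0 (Sum.inr ⟨(a, b), h⟩)
      · exact GK.iv0 _ _
      · exact GK.iv1 (h0 (Sum.inr ⟨(b, a), h⟩))
    · exact h0 (Sum.inl (a, j))
    · exact GK.iv1 (h0 (Sum.inl (b, i)))
    · exact GK.iv2 _ _ _
  minAt A h := by
    refine Algebra.adjoin_le ?_
    rintro _ (⟨a, rfl⟩ | ⟨g, rfl⟩)
    · have h1 := A.add_mem (h (Sum.inl a) (Sum.inr 0)).1 (A.algebraMap_mem (z 0))
      change t a - algebraMap ℂ K (z 0) + algebraMap ℂ K (z 0) ∈ A at h1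
      rw [sub_add_cancel] at h1
      exact h1
    · change (hyp z g)⁻¹ ∈ A
      rw [GK.hyp_eq]
      exact (h _ _).2
  fg := Subalgebra.fg_def.2 ⟨_, (Set.finite_range _).union (Set.finite_range _), rfl⟩

theorem sK {z : Fin 11 → ℂ} (hU : SU z) (hT : SGT K (x2 z)) : SK z := by
  intro J O hO
  obtain ⟨u, D, S, hmax, hS, hε, hinv⟩ := hT J O hO
  choose ε hε1 hε2 hε3 using fun h : Hyp => hε _ _ (GK.toAt_ne h)
  have hε0 : ∀ h, ε h ≠ 0 := fun h h0 => GK.toAt_ne h (hU.conf.hx (by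
    have := hε3 h
    rw [h0, zero_mul] at this
    exact sub_eq_zero.1 this))
  refine ⟨⟨u, D, fun i => ∑ h : Hyp, expo h * exS (S i) (H90.toAt h).1 (H90.toAt h).2, hmax,
    GK.bd (x2 z) O (OU z) u D (fun i => exS (S i)) hε hU.minAt fun i hi => hinv i hi _ hU.hasAt,
    ?_⟩, fun i hi => GK.a_lt _ (hS i hi).2.1 (hS i hi).2.2⟩
  · have hm : ∀ h, (expo h : K) * (ε h)⁻¹ ∈ O := fun h => O.mul_mem (GK.rat_mem O _) (hε2 h)
    have key : eta z - ∑ i ∈ D, ((∑ h : Hyp, expo h * exS (S i) (H90.toAt h).1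
        (H90.toAt h).2 : ℚ) : K) • dlog (u i) =
        ∑ h : Hyp, (⟨_, hm h⟩ : O) • dK (ε h) := by
      funext a
      have h1 := GK.res_eq (pd a) (pd_mul a) (fun i => (u i : K))
        (fun h i => exS (S i) (H90.toAt h).1 (H90.toAt h).2) D (fun i hi => (hS i hi).1) expo
        (hyp z) ε hε0 (fun h => by rw [GK.hyp_eq]; exact hε3 h)
      rw [Pi.sub_apply, Finset.sum_apply, Finset.sum_apply]
      exact h1
    rw [key]
    exact Submodule.sum_mem _ fun h _ => Submodule.smul_mem _ _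
      (Submodule.subset_span ⟨⟨ε h, hε1 h⟩, rfl⟩)

end Pool.Agent.MP_cb8d3a_ag.H42
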