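import Pool.Agent.MP_cb8d3a_ag.H42.GS

noncomputable section

open scoped BigOperators

namespace Pool.Agent.MP_cb8d3a_ag.H42
open Pool.Agent.MP_cb8d3a_ag.S2

namespace GR

/-- A finite point as a marked point. -/
def emb : Pt → Fin 5 ⊕ Option (Fin 11) := Sum.map id some

theorem mem_pts (F : H90.Clus) (p : Pt) : emb p ∈ H90.pts F ↔ H90.memC F p = true := by
  cases p <;> simp [emb, H90.pts, H90.memC]

theorem inf_pts (F : H90.Clus) : Sum.inr none ∈ H90.pts F ↔ F.2 = some none := by
  simp [H90.pts]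

/-- The side of the cluster that does not contain the point at infinity. -/
def side (F : H90.Clus) : Finset Pt :=
  Finset.univ.filter fun p => (H90.memC F p = true ↔ F.2 ≠ some none)

theorem mem_side {F : H90.Clus} {p : Pt} :
    p ∈ side F ↔ (H90.memC F p = true ↔ F.2 ≠ some none) := by
  simp [side]

theorem zs_sub (F : H90.Clus) : Zs ⊆ side F ↔ F.2 = some none := by
  constructor
  · intro h
    by_contra hn
    have h1 : ∀ i : Fin 11, F.2 = some (some i) := fun i => by
      have := (mem_side.1 (h (Finset.mem_image_of_mem _ (Finset.mem_univ i)))).2 hn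
      simpa [H90.memC] using this
    have h2 := (h1 0).symm.trans (h1 1)
    simp at h2
  · intro h p hp
    obtain ⟨i, -, rfl⟩ := Finset.mem_image.1 hp
    rw [mem_side]
    simp [H90.memC, h]

theorem vA_eq (F : H90.Clus) (p q : Pt) : H90.vA F (p, q) = exS (side F) p q := by
  unfold H90.vA exS
  simp only [zs_sub, mem_side]
  by_cases h : F.2 = some none <;> cases H90.memC F p <;> cases H90.memC F q <;> simp [h]

theorem laminar {F G : H90.Div} (h : H90.Compat F G) :
    side F.1 ⊆ side G.1 ∨ side G.1 ⊆ side F.1 ∨ Disjoint (side F.1) (side G.1) := by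
  simp only [H90.Compat, Finset.subset_iff, Finset.disjoint_left, mem_side, ← mem_pts, ne_eq,
    ← inf_pts] at h ⊢
  by_cases h1 : Sum.inr none ∈ H90.pts F.1 <;> by_cases h2 : Sum.inr none ∈ H90.pts G.1 <;>
    simp only [h1, h2, not_true, not_false_iff, iff_true, iff_false, not_not] <;>
    rcases h with h | h | h
  · exact .inr (.inl fun _ a b => a (h b))
  · exact .inl fun _ a b => a (h b)
  · exact absurd h2 (h h1)
  · exact absurd (h h1) h2
  · exact .inr (.inr fun _ a b => a (h b))
  · exact .inr (.inl fun _ a b => h b a)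
  · exact .inr (.inr fun _ a => h a)
  · exact absurd (h h2) h1
  · exact .inl fun _ a => h a
  · exact .inl fun _ a => h a
  · exact .inr (.inl fun _ a => h a)
  · exact .inr (.inr fun _ a => h a)

end GR

theorem sR {z : Fin 11 → ℂ} (hB : SGB K z (x2 z)) (hA : H90.SAt z) : SR z := by
  intro τ hτ
  obtain ⟨J, hJ⟩ := hB.lam {S | ∃ F ∈ τ, S = GR.side F.1} (by
    rintro _ ⟨F, hF, rfl⟩ _ ⟨G, hG, rfl⟩
    exact GR.laminar (hτ F hF G hG))
  refine ⟨J, fun F hF => hB.chart_le J _ fun T k => ?_⟩
  have hne : ∀ k : Fin 3, T.1 (k + 1) ≠ T.1 (k + 2) := fun k h => by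
    have := T.2 h
    revert this
    generalize k = j
    revert j
    decide
  have h1 := hA.V_av F (T.1 (k + 1), T.1 (k + 2)) (hne k)
  have h2 := hA.V_av F (T.1 (J T + 1), T.1 (J T + 2)) (hne _)
  have h3 := (h2.inv (by
    rw [hA.co_av F _ (hne _)]
    exact hA.av_ne _ (hA.inA_ne F _ (hne _)))).1
  have h4 := hJ _ ⟨F, hF, rfl⟩ T k
  rw [← GR.vA_eq, ← GR.vA_eq] at h4
  rw [mem_OV, ed, ed, e_av, e_av, div_eq_mul_inv]
  exact (h1.mul h3).mono (by omega)

end Pool.Agent.MP_cb8d3a_ag.H42
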