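import Pool.Agent.MP_cb8d3a_ag.H42.GT_b

/-! Local coordinates at a point of the model. -/

noncomputable section

open scoped BigOperators

namespace Pool.Agent.MP_cb8d3a_ag.H42

namespace GT

variable {L : Type} [Field L] [Algebra ℂ L]
variable {z : Fin 11 → ℂ} {x : Pt → L} {O : Subalgebra ℂ L} {ev : L → ℂ}

open Classical in
/-- Proper clusters. -/
def PC (x : Pt → L) (O : Subalgebra ℂ L) (ev : L → ℂ) : Finset (Finset Pt) :=
  Finset.univ.filter fun T => Cl x O ev T ∧ T ≠ Finset.univ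

theorem mem_PC {T : Finset Pt} : T ∈ PC x O ev ↔ Cl x O ev T ∧ T ≠ Finset.univ := by
  classical
  unfold PC
  simp only [Finset.mem_filter, Finset.mem_univ, true_and]

namespace Tree
variable (W : Tree x O ev)

def D : Finset (Fin 5) := (PC x O ev).image W.idx

def Sf (i : Fin 5) : Finset Pt := Function.invFunOn W.idx (PC x O ev : Set (Finset Pt)) i

def u (i : Fin 5) : L :=
  if i ∈ W.D then W.uT (W.Sf i)
  else W.d i / W.s (W.Sa i) - algebraMap ℂ L (ev (W.d i / W.s (W.Sa i)))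

def B : Subalgebra ℂ L := Algebra.adjoin ℂ (Set.range W.u)

variable {W}

theorem injOn (h : Hy z x O ev) : Set.InjOn W.idx (PC x O ev : Set (Finset Pt)) :=
  fun _ h1 _ h2 e => idx_inj h (mem_PC.1 h1).1 (mem_PC.1 h1).2 (mem_PC.1 h2).1 (mem_PC.1 h2).2 e

theorem Sf_idx (h : Hy z x O ev) {T : Finset Pt} (hT : T ∈ PC x O ev) : W.Sf (W.idx T) = T :=
  (injOn h).leftInvOn_invFunOn hT

theorem u_idx (h : Hy z x O ev) {T : Finset Pt} (hT : T ∈ PC x O ev) :
    W.u (W.idx T) = W.uT T := by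
  rw [u, if_pos (show W.idx T ∈ W.D from Finset.mem_image_of_mem _ hT), Sf_idx h hT]

theorem d_mem (h : Hy z x O ev) (a : Fin 5) : W.d a / W.s (W.Sa a) ∈ O :=
  (gen_s h (W.Sa_cl a)).2.1 _ (W.Sa_mem a) _ (W.b_mem _ _ (W.Sa_mem a))

theorem u_sm (h : Hy z x O ev) (i : Fin 5) : sm O ev (W.u i) := by
  by_cases hi : i ∈ W.D
  · obtain ⟨T, hT, rfl⟩ := Finset.mem_image.1 hi
    rw [u_idx h hT]
    exact uT_sm h (mem_PC.1 hT).1 (mem_PC.1 hT).2
  · rw [u, if_neg hi]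
    refine ⟨O.sub_mem (d_mem h i) (O.algebraMap_mem _), ?_⟩
    rw [h.ga.ev_sub O ev h.loc _ (d_mem h i) _ (O.algebraMap_mem _), h.loc.const, sub_self]

theorem u_B (i : Fin 5) : W.u i ∈ W.B := Algebra.subset_adjoin ⟨i, rfl⟩

theorem uT_B (h : Hy z x O ev) {T : Finset Pt} (hT : T ∈ PC x O ev) : W.uT T ∈ W.B :=
  u_idx (W := W) h hT ▸ u_B _

theorem d_B (h : Hy z x O ev) (a : Fin 5) : W.d a / W.s (W.Sa a) ∈ W.B := by
  by_cases hi : a ∈ W.D
  · obtain ⟨T, hT, rfl⟩ := Finset.mem_image.1 hi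
    obtain ⟨-, h2, h3⟩ := Sa_idx (W := W) h (mem_PC.1 hT).1 (mem_PC.1 hT).2
    have e : W.s (W.Sa (W.idx T)) = W.d (W.idx T) := by rw [s, if_neg h2, h3]
    rw [← e, div_self (gen_s h (W.Sa_cl _)).1]
    exact W.B.one_mem
  · have := W.B.add_mem (u_B (W := W) a) (W.B.algebraMap_mem (ev (W.d a / W.s (W.Sa a))))
    rwa [u, if_neg hi, sub_add_cancel] at this

theorem s_prod (h : Hy z x O ev) (n : ℕ) : ∀ S, Cl x O ev S → Sᶜ.card ≤ n →
    W.s S = W.s Finset.univ * ∏ T ∈ PC x O ev, if S ⊆ T then W.uT T else 1 := by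
  induction n with
  | zero =>
    intro S _ hn
    have : S = Finset.univ := by
      simpa using Finset.card_eq_zero.1 (Nat.le_zero.1 hn)
    subst this
    rw [Finset.prod_eq_one, mul_one]
    intro T hT
    rw [if_neg fun e => (mem_PC.1 hT).2 (Finset.univ_subset_iff.1 e)]
  | succ n ih =>
    intro S hS hn
    by_cases hU : S = Finset.univ
    · exact ih S hS (by simp [hU])
    have hl := W.par_lt S hS hU
    have hc := W.par_cl S hS hU
    have h1 := ih (W.par S) hc (by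
      have := Finset.card_lt_card (Finset.compl_ssubset_compl.2 hl)
      omega)
    have hSP : S ∈ PC x O ev := mem_PC.2 ⟨hS, hU⟩
    have e : W.s S = W.uT S * W.s (W.par S) := by
      rw [uT, div_mul_cancel₀ _ (gen_s h hc).1]
    rw [e, h1, mul_left_comm, ← Finset.mul_prod_erase _ _ hSP, ← Finset.mul_prod_erase _ _ hSP,
      if_neg hl.2, if_pos (Finset.Subset.refl S), one_mul]
    congr 2
    refine Finset.prod_congr rfl fun T hT => ?_
    obtain ⟨t1, t2⟩ := Finset.mem_erase.1 hT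
    refine if_congr ⟨fun e => hl.1.trans e, fun e => ?_⟩ rfl rfl
    exact W.par_min S T hS (mem_PC.1 t2).1 (Finset.ssubset_iff_subset_ne.2 ⟨e, Ne.symm t1⟩)

theorem uT_ne (h : Hy z x O ev) {T : Finset Pt} (hT : T ∈ PC x O ev) : W.uT T ≠ 0 :=
  div_ne_zero (gen_s h (mem_PC.1 hT).1).1
    (gen_s h (W.par_cl T (mem_PC.1 hT).1 (mem_PC.1 hT).2)).1

theorem s_ratio (h : Hy z x O ev) {S S' : Finset Pt} (hS : Cl x O ev S) (hS' : Cl x O ev S') :
    W.s S / W.s S' = ∏ T ∈ PC x O ev,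
      W.uT T ^ ((if S ⊆ T then 1 else 0 : ℤ) - (if S' ⊆ T then 1 else 0)) := by
  rw [s_prod h _ S hS le_rfl, s_prod h _ S' hS' le_rfl,
    mul_div_mul_left _ _ (gen_s h cl_univ).1, ← Finset.prod_div_distrib]
  refine Finset.prod_congr rfl fun T hT => ?_
  have := uT_ne (W := W) h hT
  split_ifs <;> simp [this]

theorem s_B (h : Hy z x O ev) {S S' : Finset Pt} (hS : Cl x O ev S) (hS' : Cl x O ev S')
    (e : S ⊆ S') : W.s S / W.s S' ∈ W.B := by
  rw [s_ratio h hS hS']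
  refine W.B.prod_mem fun T hT => ?_
  by_cases a : S' ⊆ T
  · simp only [a, e.trans a, if_true, sub_self, zpow_zero]
    exact W.B.one_mem
  · by_cases a' : S ⊆ T
    · simp only [a, a', if_true, if_false, sub_zero, zpow_one]
      exact uT_B h hT
    · simp only [a, a', if_false, sub_self, zpow_zero]
      exact W.B.one_mem

theorem S0_cl : Cl x O ev W.S0 := W.M_cl _ _

theorem s_S0 : W.s W.S0 = x (Sum.inr 0) - x (Sum.inr 1) := if_pos rfl

theorem claimA (h : Hy z x O ev) (n : ℕ) : ∀ p, rk p < n → ∀ S, Cl x O ev S → p ∈ S →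
    (x p - x (W.b S)) / W.s S ∈ W.B := by
  induction n with
  | zero => intro p hp; omega
  | succ n ih =>
    intro p hp S hS hpS
    by_cases e : p = W.b S
    · rw [← e, sub_self, zero_div]; exact W.B.zero_mem
    have hlt : rk (W.b S) < rk p :=
      lt_of_le_of_ne (W.b_le S p hpS) fun e' => e (rk_inj _ _ e').symm
    have hbS := W.b_mem S p hpS
    rcases p with a | i
    · have h1 := W.Sa_min a S _ hS hpS hbS hlt
      have h2 := W.Sa_lt a
      have h3 := ih (W.b (W.Sa a)) (by omega) S hS (h1 (W.b_mem _ _ (W.Sa_mem a)))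
      have h4 := W.B.add_mem (W.B.mul_mem (d_B (W := W) h a) (s_B h (W.Sa_cl a) hS h1)) h3
      rwa [div_mul_div_cancel₀ (gen_s h (W.Sa_cl a)).1, ← add_div, d, sub_add_sub_cancel] at h4
    · obtain ⟨j, hj⟩ := rk_lt _ i hlt.le
      rw [hj] at e hbS ⊢
      have hZ := h.fixed hS (fun e' : i = j => e (by rw [e'])) hpS hbS
      have h1 := s_B (W := W) h (S0_cl (W := W)) hS ((S0_sub h hS).2 hZ)
      have h2 : (x (Sum.inr i) - x (Sum.inr j)) / W.s W.S0 ∈ W.B := by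
        rw [s_S0, h.conf.fix, h.conf.fix, h.conf.fix, h.conf.fix, ← map_sub, ← map_sub, ← map_div₀]
        exact W.B.algebraMap_mem _
      have h3 := W.B.mul_mem h2 h1
      rwa [div_mul_div_cancel₀ (gen_s h S0_cl).1] at h3

theorem at_B (h : Hy z x O ev) {S : Finset Pt} (hS : Cl x O ev S) :
    ∀ p ∈ S, ∀ q ∈ S, (x p - x q) / W.s S ∈ W.B :=
  all_of_base (p := W.b S) fun r hr => claimA h _ r (Nat.lt_succ_self _) S hS hr

theorem B_le (h : Hy z x O ev) : W.B ≤ O :=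
  Algebra.adjoin_le (by rintro _ ⟨i, rfl⟩; exact (u_sm h i).1)

theorem ratio_mem (h : Hy z x O ev) {B' : Subalgebra ℂ L} (h1 : W.B ≤ B')
    (h2 : ∀ c ∈ B', ev c ≠ 0 → c⁻¹ ∈ B') {p q r : Pt} (hpq : p ≠ q) (hpr : p ≠ r)
    (hr : (x p - x r) / (x p - x q) ∈ O) :
    ∀ a ∈ ({p, q, r} : Finset Pt), ∀ b ∈ ({p, q, r} : Finset Pt),
      (x a - x b) / (x p - x q) ∈ B' := by
  have hS := W.M_cl p q
  have hrS : r ∈ W.M p q := by
    by_contra hc
    exact h.not_both (h.ne hpq) (h.ne hpr) (hS.2 p (W.M_l p q) q (W.M_r p q) r hc) hr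
  have hsub : ∀ a ∈ ({p, q, r} : Finset Pt), a ∈ W.M p q := by
    intro a ha
    simp only [Finset.mem_insert, Finset.mem_singleton] at ha
    rcases ha with rfl | rfl | rfl
    exacts [W.M_l _ _, W.M_r _ _, hrS]
  intro a ha b hb
  have k1 := at_B (W := W) h hS p (W.M_l p q) q (W.M_r p q)
  have k2 := h2 _ (h1 k1) fun e => M_ns h hpq (gen_s h hS) ⟨B_le h k1, e⟩
  have := B'.mul_mem (h1 (at_B (W := W) h hS a (hsub a ha) b (hsub b hb))) k2
  rwa [inv_div, div_mul_div_cancel₀ (gen_s h hS).1] at this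

theorem factor (h : Hy z x O ev) {p q : Pt} (hpq : p ≠ q) :
    ∃ ε ∈ O, ε⁻¹ ∈ O ∧ x p - x q = ε * ∏ i ∈ W.D, W.u i ^ exS (W.Sf i) p q := by
  have hS := W.M_cl p q
  have g := gen_s (W := W) h hS
  have g0 := gen_s (W := W) h (W.M_cl (Sum.inr 0) (Sum.inr 1))
  have k1 := g.2.1 p (W.M_l p q) q (W.M_r p q)
  have k2 := h.inv_mem k1 (M_ns h hpq g)
  have c1 : W.s W.S0 = algebraMap ℂ L (z 0 - z 1) := by
    rw [s_S0, h.conf.fix, h.conf.fix, map_sub]
  refine ⟨(x p - x q) / W.s (W.M p q) * W.s W.S0, O.mul_mem k1 (c1 ▸ O.algebraMap_mem _), ?_, ?_⟩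
  · rw [mul_inv, c1, ← map_inv₀]
    exact O.mul_mem k2 (O.algebraMap_mem _)
  · have e : ∏ i ∈ W.D, W.u i ^ exS (W.Sf i) p q = W.s (W.M p q) / W.s W.S0 := by
      rw [D, Finset.prod_image (injOn h), s_ratio h hS S0_cl]
      refine Finset.prod_congr rfl fun T hT => ?_
      have hT' := (mem_PC.1 hT).1
      rw [u_idx h hT, Sf_idx h hT, exS]
      congr 2
      · exact if_congr ⟨fun e => W.M_min p q T hT' e.1 e.2,
          fun e => ⟨e (W.M_l p q), e (W.M_r p q)⟩⟩ rfl rfl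
      · exact if_congr (S0_sub h hT').symm rfl rfl
    have n1 := g.1
    have n2 : W.s W.S0 ≠ 0 := g0.1
    rw [e]
    field_simp

end Tree

theorem tri_of (hB : SGB L z x) {J : Tr → Fin 3} (hJ : chartJ x J ≤ O) (p q r : Pt) (hpq : p ≠ q)
    (hpr : p ≠ r) (hqr : q ≠ r) : (x p - x r) / (x p - x q) ∈ O ∨
    (x p - x q) / (x p - x r) ∈ O ∨
      ((x p - x q) / (x q - x r) ∈ O ∧ (x p - x r) / (x q - x r) ∈ O) := by
  have hi : Function.Injective ![p, q, r] := by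
    intro a b
    fin_cases a <;> fin_cases b <;> simp [hpq, hpr, hqr, hpq.symm, hpr.symm, hqr.symm]
  have e0 : ed x ⟨_, hi⟩ 0 = x q - x r := rfl
  have e1 : ed x ⟨_, hi⟩ 1 = x r - x p := rfl
  have e2 : ed x ⟨_, hi⟩ 2 = x p - x q := rfl
  have k := fun k => hJ (hB.ratio J ⟨_, hi⟩ k)
  have k1 := k 1
  have k2 := k 2
  rw [e1] at k1
  rw [e2] at k2
  generalize J ⟨_, hi⟩ = j at k1 k2
  fin_cases j
  · exact Or.inr (Or.inr ⟨e0 ▸ k2, e0 ▸ neg_ratio k1⟩)
  · refine Or.inr (Or.inl ?_)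
    have := O.neg_mem (show (x p - x q) / (x r - x p) ∈ O from k2)
    rwa [← div_neg, neg_sub] at this
  · exact Or.inl (neg_ratio k1)

end GT

open _root_.Pool.Agent.MP_cb8d3a_ag.H42.GT in
theorem sGT {L : Type} [Field L] [Algebra ℂ L] {z : Fin 11 → ℂ} {x : Pt → L} (hA : SGA L)
    (hc : Conf z x) (hB : SGB L z x) : SGT L x := by
  intro J O hO
  obtain ⟨ev, hl, hJ, hf⟩ := hA.pt_ev _ O (hB.fg J) hO
  have h : Hy z x O ev := ⟨hA, hl, hc, tri_of hB hJ⟩
  obtain ⟨W⟩ := h.exists_tree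
  refine ⟨fun i => ⟨W.u i, (Tree.u_sm h i).1⟩, W.D, W.Sf, ?_, ?_, fun p q hpq => Tree.factor h hpq,
    ?_⟩
  · refine hA.max O ev _ hl (fun i => (Tree.u_sm h i).2) fun c hcO => ?_
    obtain ⟨B', b1, b2, -, b4⟩ := hA.frac W.B O ev hl (Tree.B_le h)
    have hle : chartJ x J ≤ B' := by
      refine hB.chart_le J B' fun τ k => ?_
      have n1 : τ.1 (J τ + 1) ≠ τ.1 (J τ + 2) := fun e => by
        have := τ.2 e
        revert this
        generalize J τ = j
        revert j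
        decide
      have n2 : τ.1 (J τ + 1) ≠ τ.1 (J τ) := fun e => by
        have := τ.2 e
        revert this
        generalize J τ = j
        revert j
        decide
      have m : ∀ i, τ.1 i ∈ ({τ.1 (J τ + 1), τ.1 (J τ + 2), τ.1 (J τ)} : Finset Pt) := by
        intro i
        have : ∀ i j : Fin 3, i = j + 1 ∨ i = j + 2 ∨ i = j := by decide
        rcases this i (J τ) with e | e | e <;> simp [e]
      refine Tree.ratio_mem (W := W) h b2 b4 n1 n2 ?_ _ (m _) _ (m _)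
      have k := hJ (hB.ratio J τ (J τ + 2))
      have e1 : ∀ j : Fin 3, j + 2 + 1 = j := by decide
      have e2 : ∀ j : Fin 3, j + 2 + 2 = j + 1 := by decide
      rw [ed, e1, e2] at k
      exact neg_ratio k
    obtain ⟨b, hb, hb0, hcb⟩ := hf c hcO
    have hbne : b ≠ 0 := by
      rintro rfl
      exact hb0 (hA.ev_zero O ev hl)
    have := B'.mul_mem (hle hcb) (b4 b (hle hb) hb0)
    rw [mul_inv_cancel_right₀ hbne] at this
    exact (b1 c).1 this
  · intro i hi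
    obtain ⟨T, hT, rfl⟩ := Finset.mem_image.1 hi
    rw [Tree.Sf_idx h hT]
    refine ⟨by rw [show ((⟨W.u (W.idx T), _⟩ : O) : L) = W.u (W.idx T) from rfl,
      Tree.u_idx h hT]; exact Tree.uT_ne h hT, (mem_PC.1 hT).2, ?_⟩
    by_contra hn
    push Not at hn
    obtain ⟨p, hp, q, hq, hpq⟩ := Finset.one_lt_card.1 hn.2
    obtain ⟨i, -, rfl⟩ := Finset.mem_image.1 (Finset.mem_inter.1 hp).2
    obtain ⟨j, -, rfl⟩ := Finset.mem_image.1 (Finset.mem_inter.1 hq).2
    exact hn.1 (h.fixed (mem_PC.1 hT).1 (fun e : i = j => hpq (by rw [e]))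
      (Finset.mem_inter.1 hp).1 (Finset.mem_inter.1 hq).1)
  · intro i hi A hA'
    obtain ⟨T, hT, rfl⟩ := Finset.mem_image.1 hi
    change (W.u (W.idx T))⁻¹ ∈ A
    obtain ⟨p, -, q, -, e⟩ := Tree.s_at (W := W) h (mem_PC.1 hT).1
    obtain ⟨p', -, q', -, e'⟩ :=
      Tree.s_at (W := W) h (W.par_cl T (mem_PC.1 hT).1 (mem_PC.1 hT).2)
    rw [Tree.u_idx h hT, Tree.uT, inv_div, e, e', div_eq_mul_inv]
    exact A.mul_mem (hA' p' q').1 (hA' p q).2

end Pool.Agent.MP_cb8d3a_ag.H42
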