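import Pool.Agent.MP_cb8d3a_ag.H42.GS

noncomputable section

open scoped BigOperators

namespace Pool.Agent.MP_cb8d3a_ag.H42

namespace GV

section A
open Pool.Agent.MP_cb8d3a_ag.H90

variable {z : Fin 11 → ℂ}

/-- The order along a divisor. -/
def ord (z : Fin 11 → ℂ) (F : Div) (c : K) : ℤ := (ex z F c).order

theorem ord_zero (F : Div) : ord z F 0 = 0 := by simp [ord]

theorem ord_nonneg {F : Div} {c : K} (h : V z F 0 c) : 0 ≤ ord z F c := by
  by_cases hc : c = 0
  · rw [hc, ord_zero]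
  · exact not_lt.1 fun h1 => co_order_ne hc (h _ h1)

theorem inv_of_ord {F : Div} {c : K} (h : ord z F c = 0) : V z F 0 c⁻¹ := by
  by_cases hc : c = 0
  · rw [hc, inv_zero]
    exact V_zero 0
  · have := ((V_order (z := z) (F := F) c).inv (co_order_ne hc)).1
    exact this.mono (by unfold ord at h; omega)

theorem V_zpow (F : Div) (c : K) (n : ℤ) : V z F (n * ord z F c) (c ^ n) := by
  by_cases hc : c = 0
  · rw [hc, ord_zero, mul_zero, zero_zpow_eq]
    split_ifs
    · exact V_one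
    · exact V_zero 0
  · exact ((V_order c).zpow (co_order_ne hc) n).1

theorem V_gen (F : Div) (D : Finset (Fin 5)) (u : Fin 5 → K) (n : Fin 5 → ℤ) :
    V z F (∑ i ∈ D, n i * ord z F (u i)) (∏ i ∈ D, u i ^ n i) :=
  (V_prod D _ _ fun i _ => V_zpow F (u i) (n i)).1

theorem ev1_d (X : VF) (c : K) : ev1 (fun a => pd a c) X = act X c := by
  rw [act_apply]
  exact Finset.sum_congr rfl fun a _ => mul_comm _ _

theorem ev1_zero (X : VF) : ev1 0 X = 0 := by simp [ev1]

theorem ev1_add (α β : Fin 5 → K) (X : VF) : ev1 (α + β) X = ev1 α X + ev1 β X := by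
  simp [ev1, add_mul, Finset.sum_add_distrib]

theorem ev1_smul (b : K) (α : Fin 5 → K) (X : VF) : ev1 (fun a => b * α a) X = b * ev1 α X := by
  simp [ev1, Finset.mul_sum, mul_assoc]

theorem d_theta (hI : SInv z) (F : Div) {c : K} (h : V z F 0 c) :
    V z F 1 (ev1 (fun a => pd a c) (theta z F)) := by
  rw [ev1_d]
  have := (hI.inv_V F _ 0 c (hI.inv_theta F F (Compat.refl F)) h).succ
    (by rw [hI.co_theta]; simp)
  simpa using this

theorem dlog_theta (hI : SInv z) (F : Div) (c : K) :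
    V z F 1 (ev1 (dlog c) (theta z F) - (ord z F c : K)) := by
  rw [hI.ev1_dlog]
  by_cases hc : c = 0
  · rw [hc, ord_zero]
    simpa using V_zero (z := z) (F := F) 1
  · exact hI.V_theta_dlog F _ c (V_order c) (co_order_ne hc)

theorem core (hA : SAt z) (hI : SInv z) (F : Div) (u : Fin 5 → K) (D : Finset (Fin 5))
    (a : Fin 5 → ℚ) (w : Fin 5 → K) (hw : V z F 1 (ev1 w (theta z F)))
    (he : ∀ j, w j = eta z j - ∑ i ∈ D, (a i : K) * dlog (u i) j) :
    (a3 F.1 : ℚ) / 3 = ∑ i ∈ D, a i * ord z F (u i) := by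
  have h1 := hI.V_theta_eta F expo
  rw [hA.aW_expo] at h1
  have h2 : V z F 1 (∑ i ∈ D, (a i : K) * (ev1 (dlog (u i)) (theta z F) - (ord z F (u i) : K))) :=
    V_sum D _ fun i _ => by simpa using (V_ratCast (a i)).mul (dlog_theta hI F (u i))
  have e : ev1 w (theta z F) = ev1 (etaW z expo) (theta z F) -
      ∑ i ∈ D, (a i : K) * ev1 (dlog (u i)) (theta z F) := by
    simp only [ev1, he, sub_mul, Finset.sum_sub_distrib, Finset.sum_mul, Finset.mul_sum, mul_assoc]
    rw [Finset.sum_comm (s := D)]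
    rfl
  have h3 := (hw.sub h1).add h2
  have e2 : ev1 w (theta z F) - (ev1 (etaW z expo) (theta z F) - (((a3 F.1 : ℚ) / 3 : ℚ) : K)) +
      ∑ i ∈ D, (a i : K) * (ev1 (dlog (u i)) (theta z F) - (ord z F (u i) : K)) =
      (((a3 F.1 : ℚ) / 3 - ∑ i ∈ D, a i * ord z F (u i) : ℚ) : K) := by
    rw [e]
    simp only [mul_sub, Finset.sum_sub_distrib]
    push_cast
    ring
  rw [e2] at h3
  have h4 := h3 0 (by norm_num)
  rw [co_ratCast] at h4
  exact sub_eq_zero.1 (by exact_mod_cast h4)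

theorem fil_wedges (hF : SFil z) (F : Div) (θ : Fin 5 → Fin 5 → K)
    (hθ : ∀ i X, Inv z F X → V z F 0 (ev1 (θ i) X)) (l : List (Fin 5)) :
    Fil z F 0 (l.foldr (fun i => wedge (θ i)) (mono ∅ 1)) := by
  induction l with
  | nil =>
    have := hF.monoI (F := F) ∅ V_one
    have e : oVol F.1 ∅ = 0 := by
      unfold oVol
      split <;> simp
    rw [e] at this
    exact this
  | cons i l ih => exact hF.wedge (hθ i) ih

theorem not_le (hA : SAt z) : ¬ V z dE 0 (av z (Sum.inl 4, Sum.inr 0)) := by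
  intro h
  have h1 := hA.co_av dE (Sum.inl 4, Sum.inr 0) (by simp)
  have h2 : vA dE.1 (Sum.inl 4, Sum.inr 0) = -1 := by decide
  rw [h2, h (-1) (by norm_num)] at h1
  exact hA.av_ne _ (hA.inA_ne dE _ (by simp)) h1.symm

theorem unit {F : Div} {c : K} (h : V z F 0 c) (h0 : co z F 0 c ≠ 0) : c ≠ 0 ∧ V z F 0 c⁻¹ :=
  ⟨by rintro rfl; exact h0 (map_zero _), by simpa using (h.inv h0).1⟩

theorem unit' (F : Div) (c : K) (h0 : co z F 0 c = 0) : co z F 0 (1 - c) ≠ 0 := by
  rw [map_sub, h0, co_one]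
  simp

end A

open Pool.Agent.MP_cb8d3a_ag.S2

variable {z : Fin 11 → ℂ}

theorem loc (F : H90.Div) : IsLocalRing (OV z F) := by
  have key : ∀ a : OV z F, H90.co z F 0 a.1 ≠ 0 → IsUnit a := by
    intro a h
    obtain ⟨h1, h2⟩ := unit a.2 h
    have h1' : (a : K) ≠ 0 := h1
    exact IsUnit.of_mul_eq_one (⟨(a : K)⁻¹, h2⟩ : OV z F) (Subtype.ext (mul_inv_cancel₀ h1'))
  refine IsLocalRing.of_isUnit_or_isUnit_one_sub_self fun a => ?_
  by_cases h : H90.co z F 0 a.1 = 0
  · exact Or.inr (key _ (unit' F a.1 h))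
  · exact Or.inl (key _ h)

theorem span_theta (hI : H90.SInv z) (F : H90.Div) {O : Subalgebra ℂ K} (hO : O ≤ OV z F)
    {w : Fin 5 → K} (hw : w ∈ Submodule.span O (Set.range fun c : O => dK c)) :
    H90.V z F 1 (H90.ev1 w (H90.theta z F)) := by
  induction hw using Submodule.span_induction with
  | mem x hx =>
    obtain ⟨c, rfl⟩ := hx
    have := d_theta hI F (c := c.1) (hO c.2)
    rw [← e_pd] at this
    exact this
  | zero =>
    have := H90.V_zero (z := z) (F := F) 1
    rw [← ev1_zero (H90.theta z F)] at this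
    exact this
  | add x y _ _ hx hy =>
    have := hx.add hy
    rw [← ev1_add] at this
    exact this
  | smul b x _ hx =>
    have := H90.V.mul (x := b.1) (hO b.2) hx
    rw [← ev1_smul, zero_add] at this
    exact this

theorem resid (hA : H90.SAt z) (hI : H90.SInv z) (F : H90.Div) {O : Subalgebra ℂ K}
    (hO : O ≤ OV z F) (R : Frame z O) :
    (H90.a3 F.1 : ℚ) / 3 = ∑ i ∈ R.D, R.a i * ord z F (R.u i).1 := by
  refine core hA hI F (fun i => (R.u i).1) R.D R.a _ (span_theta hI F hO R.res) fun j => ?_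
  rw [← e_eta, ← e_dlog, Pi.sub_apply, Finset.sum_apply]
  rfl

theorem fil_gen (hI : H90.SInv z) (hF : H90.SFil z) (F : H90.Div) {O : Subalgebra ℂ K}
    (hO : O ≤ OV z F) (c : Bool) (k : ℤ)
    (hk : ∀ R : Frame z O, k ≤ ∑ i ∈ R.D,
      (if c then 1 - ⌈R.a i⌉ else -⌊R.a i⌋) * ord z F (R.u i).1)
    {p : ℕ} {ω : Form} (h : ω ∈ stalk z c O p) : H90.Fil z F k ω := by
  induction h using AddSubgroup.closure_induction with
  | mem x hx =>
    obtain ⟨R, b, l, -, rfl⟩ := hx
    have h1 := V_gen (z := z) F R.D (fun i => (R.u i).1)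
      fun i => if c then 1 - ⌈R.a i⌉ else -⌊R.a i⌋
    have h2 := H90.V.mul (x := b.1) (hO b.2) h1
    have h3 := fil_wedges hF F R.theta (by
      intro i X hX
      unfold Frame.theta
      split_ifs
      · have := hI.V_dlog F X (R.u i).1 hX
        rw [← hI.ev1_dlog, ← e_dlog] at this
        exact this
      · have := hI.inv_V F X 0 (R.u i).1 hX (hO (R.u i).2)
        rw [← ev1_d, ← e_pd] at this
        exact this) l
    have h4 := hF.smul h2 h3
    rw [zero_add, add_zero] at h4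
    exact hF.le h4 (hk R)
  | zero => exact hF.zero F k
  | add x y _ _ hx hy => exact hF.add hx hy
  | neg x _ hx => exact hF.neg hx

theorem fou (hG : SGA K) (hK : H90.SK1 z) (c : Bool) (O : Subalgebra ℂ K) (p : ℕ) (ω : Form)
    (hO : GPt (OU z) O) (h : ω ∈ stalk z c O p) : ∀ I, ω I ∈ O := by
  have hle := hG.pt_le _ _ hO
  have hd : ∀ a, ∀ x ∈ O, pd a x ∈ O := fun a =>
    hG.der _ _ (pd a) hO (pd_mul a) fun x hx => by
      rw [e_OU] at hx ⊢
      rw [e_pd]
      exact hK.pd_OU a x hx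
  induction h using AddSubgroup.closure_induction with
  | mem x hx =>
    obtain ⟨R, b, l, -, rfl⟩ := hx
    have hi : ∀ i ∈ R.D, (R.u i : K)⁻¹ ∈ O := by
      intro i hi
      have h1 : O ⊔ OU z = O := sup_eq_left.2 hle
      have h2 : Algebra.adjoin ℂ ((fun i => (R.u i : K)⁻¹) '' R.D) ≤ O :=
        le_trans le_sup_right (R.bdry.symm.trans h1).le
      exact h2 (Algebra.subset_adjoin ⟨i, hi, rfl⟩)
    have hθ : ∀ i a, R.theta i a ∈ O := by
      intro i a
      unfold Frame.theta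
      split_ifs with h
      · change pd a _ / _ ∈ O
        rw [div_eq_mul_inv]
        exact O.mul_mem (hd a _ (R.u i).2) (hi i h)
      · exact hd a _ (R.u i).2
    have hg : R.gen c ∈ O := by
      refine O.prod_mem fun i h => ?_
      generalize (if c then 1 - ⌈R.a i⌉ else -⌊R.a i⌋) = n
      obtain ⟨m, rfl | rfl⟩ := Int.eq_nat_or_neg n
      · rw [zpow_natCast]
        exact O.pow_mem (R.u i).2 m
      · rw [zpow_neg, zpow_natCast, ← inv_pow]
        exact O.pow_mem (hi i h) m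
    have hw : ∀ I, l.foldr (fun i => wedge (R.theta i)) (mono ∅ 1) I ∈ O := by
      induction l with
      | nil =>
        intro I
        change (if I = ∅ then 1 else 0) ∈ O
        split_ifs
        · exact O.one_mem
        · exact O.zero_mem
      | cons i l ih =>
        intro I
        exact O.sum_mem fun a _ => O.mul_mem
          (O.mul_mem (O.pow_mem (O.neg_mem O.one_mem) _) (hθ i a)) (ih _)
    exact fun I => O.mul_mem (O.mul_mem b.2 hg) (hw I)
  | zero => exact fun _ => O.zero_mem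
  | add x y _ _ hx hy => exact fun I => O.add_mem (hx I) (hy I)
  | neg x _ hx => exact fun I => O.neg_mem (hx I)

end GV

open Pool.Agent.MP_cb8d3a_ag.S2

open GV in
theorem sV {z : Fin 11 → ℂ} (hG : SGA K) (hA : H90.SAt z) (hI : H90.SInv z) (hK : H90.SK1 z)
    (h1 : H90.SCar1) (hF : H90.SFil z) : SV z where
  loc := GV.loc
  fou := GV.fou hG hK
  fil := by
    intro F O p ω hO h
    refine fil_gen hI hF F hO false _ (fun R => ?_) h
    have e := resid hA hI F hO R
    have h2 : (0 : ℚ) ≤ ∑ i ∈ R.D, (R.a i - ⌊R.a i⌋) * ord z F (R.u i).1 :=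
      Finset.sum_nonneg fun i _ => mul_nonneg (sub_nonneg.2 (Int.floor_le _))
        (by exact_mod_cast ord_nonneg (hO (R.u i).2))
    simp only [sub_mul, Finset.sum_sub_distrib] at h2
    rw [← e] at h2
    have h3 : 0 ≤ H90.a3 F.1 - 3 * ∑ i ∈ R.D, ⌊R.a i⌋ * ord z F (R.u i).1 := by
      have : (0 : ℚ) ≤ H90.a3 F.1 - 3 * ∑ i ∈ R.D, (⌊R.a i⌋ : ℚ) * ord z F (R.u i).1 := by
        linarith
      exact_mod_cast this
    simp only [Bool.false_eq_true, if_false, neg_mul, Finset.sum_neg_distrib, H90.latL]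
    omega
  filE := by
    intro O p ω hO h
    refine fil_gen hI hF _ hO true _ (fun R => ?_) h
    have e := resid hA hI _ hO R
    have e3 : H90.a3 H90.dE.1 = -3 := by decide
    have h0 : ∀ i, 0 ≤ ord z H90.dE (R.u i).1 := fun i => ord_nonneg (hO (R.u i).2)
    have hex : ∃ i ∈ R.D, 0 < ord z H90.dE (R.u i).1 := by
      by_contra hn
      push Not at hn
      have h2 : Algebra.adjoin ℂ ((fun i => (R.u i : K)⁻¹) '' R.D) ≤ OV z H90.dE := by
        refine Algebra.adjoin_le ?_
        rintro _ ⟨i, hi, rfl⟩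
        exact inv_of_ord (le_antisymm (hn i hi) (h0 i))
      have h3 : OU z ≤ OV z H90.dE := by
        refine le_trans (le_sup_right (a := O)) ?_
        rw [R.bdry]
        exact sup_le hO h2
      exact GV.not_le hA (h3 ((e_OU z _).2 (hA.av_OU _)))
    have h2 : (0 : ℚ) < ∑ i ∈ R.D, (1 - ⌈R.a i⌉ + R.a i) * ord z H90.dE (R.u i).1 := by
      obtain ⟨i, hi, hp⟩ := hex
      have hc : ∀ i, (0 : ℚ) < 1 - ⌈R.a i⌉ + R.a i := fun i => by
        linarith [Int.ceil_lt_add_one (R.a i)]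
      exact Finset.sum_pos' (fun i _ => mul_nonneg (hc i).le (by exact_mod_cast h0 i))
        ⟨i, hi, mul_pos (hc i) (by exact_mod_cast hp)⟩
    simp only [add_mul, Finset.sum_add_distrib] at h2
    rw [← e, e3] at h2
    have h3 : 1 < ∑ i ∈ R.D, (1 - ⌈R.a i⌉) * ord z H90.dE (R.u i).1 := by
      have : (1 : ℚ) < ∑ i ∈ R.D, (1 - (⌈R.a i⌉ : ℚ)) * ord z H90.dE (R.u i).1 := by
        push_cast at h2
        linarith
      exact_mod_cast this
    simp only [if_true]
    omega

end Pool.Agent.MP_cb8d3a_ag.H42
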