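import Pool.Agent.MP_cb8d3a_ag.H42.TDefs

noncomputable section

open scoped BigOperators

namespace Pool.Agent.MP_cb8d3a_ag.H42
open Pool.Agent.MP_cb8d3a_ag.S2

namespace TA

theorem smul_vac (m : ℕ) (a : FA) : a • vac m = Submodule.Quotient.mk a := by
  rw [vac, ← Submodule.Quotient.mk_smul, smul_eq_mul, mul_one]

theorem kill {m : ℕ} {r : FA} (h : r ∈ rel m) : r • vac m = 0 := by
  rw [smul_vac, Submodule.Quotient.mk_eq_zero]
  exact Ideal.subset_span h

theorem rep (m : ℕ) : IsRep m (op m) := by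
  intro i n j k
  refine LinearMap.ext fun x => ?_
  obtain ⟨b, rfl⟩ := Submodule.Quotient.mk_surjective _ x
  have h := kill (m := m) (Or.inl ⟨i, n, j, k, b, rfl⟩)
  rw [mul_smul, smul_vac, sub_smul, sub_smul, sub_smul, mul_smul, mul_smul, smul_assoc,
    algebraMap_smul, sub_sub, sub_eq_zero] at h
  exact h

theorem op_pow (m : ℕ) (i : Fin 3) (n : ℤ) (k : ℕ) (x : HM m) :
    (op m i n ^ k) x = md i n ^ k • x := by
  induction k with
  | zero => simp
  | succ k ih => rw [pow_succ', pow_succ', Module.End.mul_apply, ih, mul_smul, op_apply]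

theorem hw {m : ℕ} (hm : 1 ≤ m) : HW m (op m) (vac m) where
  pos i n hn := kill (Or.inr (Or.inl ⟨i, n, hn, rfl⟩))
  e0 := kill (Or.inr (Or.inr (Or.inl rfl)))
  h0 := by
    have h := kill (m := m) (Or.inr (Or.inr (Or.inr (Or.inl rfl))))
    rwa [sub_smul, one_smul, sub_eq_zero] at h
  f2 := by
    have h := kill (m := m) (Or.inr (Or.inr (Or.inr (Or.inr (Or.inl rfl)))))
    rwa [sq, mul_smul] at h
  int := by
    have h := kill (m := m) (Or.inr (Or.inr (Or.inr (Or.inr (Or.inr rfl)))))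
    rwa [Nat.sub_add_cancel hm, ← op_pow] at h

theorem ind {m : ℕ} (W : Submodule ℂ (HM m)) (h0 : vac m ∈ W)
    (h : ∀ i n, ∀ x ∈ W, op m i n x ∈ W) (x : HM m) : x ∈ W := by
  obtain ⟨a, rfl⟩ := Submodule.Quotient.mk_surjective _ x
  rw [← smul_vac]
  suffices H : ∀ x ∈ W, a • x ∈ W from H _ h0
  induction a using FreeAlgebra.induction with
  | grade0 r => exact fun x hx => by rw [algebraMap_smul]; exact W.smul_mem r hx
  | grade1 p => exact h p.1 p.2
  | mul a b ha hb => exact fun x hx => by rw [mul_smul]; exact ha _ (hb x hx)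
  | add a b ha hb => exact fun x hx => by rw [add_smul]; exact W.add_mem (ha x hx) (hb x hx)

theorem lift {m : ℕ} (hm : 1 ≤ m) {Y : Type} [AddCommGroup Y] [Module ℂ Y]
    (ρ : Fin 3 → ℤ → Module.End ℂ Y) (y : Y) (hρ : IsRep m ρ) (hy : HW m ρ y) :
    ∃ θ : HM m →ₗ[ℂ] Y, θ (vac m) = y ∧ ∀ i n x, θ (op m i n x) = ρ i n (θ x) := by
  let R : FA →ₐ[ℂ] Module.End ℂ Y := FreeAlgebra.lift ℂ fun p => ρ p.1 p.2
  have hR : ∀ i n, R (md i n) = ρ i n := fun i n => FreeAlgebra.lift_ι_apply _ _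
  have hk : ∀ a ∈ Ideal.span (rel m), R a y = 0 := by
    intro a ha
    induction ha using Submodule.span_induction with
    | zero => simp
    | add a b _ _ ha hb => rw [map_add, LinearMap.add_apply, ha, hb, add_zero]
    | smul a b _ hb => rw [smul_eq_mul, map_mul, Module.End.mul_apply, hb, map_zero]
    | mem r hr =>
      rcases hr with ⟨i, n, j, k, b, rfl⟩ | ⟨i, n, hn, rfl⟩ | rfl | rfl | rfl | rfl
      · simp only [map_mul, map_sub, map_smul, hR, AlgHom.commutes]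
        rw [hρ i n j k, Algebra.algebraMap_eq_smul_one, add_sub_cancel_left, cc, sub_self,
          zero_mul, LinearMap.zero_apply]
      · rw [hR, hy.pos i n hn]
      · rw [hR, hy.e0]
      · rw [map_sub, map_one, hR, LinearMap.sub_apply, hy.h0, Module.End.one_apply, sub_self]
      · rw [sq, map_mul, hR, Module.End.mul_apply, hy.f2]
      · rw [Nat.sub_add_cancel hm, map_pow, hR, hy.int]
  let L : FA →ₗ[ℂ] Y := (LinearMap.applyₗ y).comp R.toLinearMap
  let θ : HM m →ₗ[ℂ] Y := (((Ideal.span (rel m)).restrictScalars ℂ).liftQ L fun a ha => hk a ha).comp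
    (Submodule.Quotient.restrictScalarsEquiv ℂ (Ideal.span (rel m))).symm.toLinearMap
  have hθ : ∀ a : FA, θ (Submodule.Quotient.mk a) = R a y := fun a => rfl
  refine ⟨θ, by rw [vac, hθ, map_one, Module.End.one_apply], fun i n x => ?_⟩
  obtain ⟨a, rfl⟩ := Submodule.Quotient.mk_surjective _ x
  rw [op_apply, ← Submodule.Quotient.mk_smul, hθ, hθ, smul_eq_mul, map_mul, hR,
    Module.End.mul_apply]

section
variable {Y : Type} [AddCommGroup Y] [Module ℂ Y] {m : ℕ} {ρ : Fin 3 → ℤ → Module.End ℂ Y} {y : Y}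

theorem comm (h : IsRep m ρ) (i : Fin 3) (n : ℤ) (j : Fin 3) (k : ℤ) (x : Y) :
    ρ i n (ρ j k x) = ρ j k (ρ i n x) + (cs i j • ρ (br i j) (n + k) x + cc m i n j k • x) :=
  sub_eq_iff_eq_add'.1 (LinearMap.congr_fun (h i n j k) x)

theorem smooth (hρ : IsRep m ρ) (hy : HW m ρ y)
    (ind : ∀ W : Submodule ℂ Y, y ∈ W → (∀ i n, ∀ x ∈ W, ρ i n x ∈ W) → ∀ x, x ∈ W) (x : Y) :
    ∃ N : ℤ, ∀ i n, N ≤ n → ρ i n x = 0 := by
  let W : Submodule ℂ Y :=
    { carrier := {x | ∃ N : ℤ, ∀ i n, N ≤ n → ρ i n x = 0}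
      zero_mem' := ⟨0, fun i n _ => map_zero _⟩
      add_mem' := fun ⟨N, h⟩ ⟨N', h'⟩ => ⟨max N N', fun i n hn => by
        rw [map_add, h i n (le_of_max_le_left hn), h' i n (le_of_max_le_right hn), add_zero]⟩
      smul_mem' := fun c _ ⟨N, h⟩ => ⟨N, fun i n hn => by rw [map_smul, h i n hn, smul_zero]⟩ }
  refine ind W ⟨1, fun i n hn => hy.pos i n hn⟩ ?_ x
  rintro j k x ⟨N, h⟩
  refine ⟨max N (max (N - k) (1 - k)), fun i n hn => ?_⟩
  simp only [max_le_iff] at hn
  rw [comm hρ, h i n hn.1, h _ (n + k) (by omega), cc, if_neg (by omega)]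
  simp

theorem vpos (hρ : IsRep m ρ) (hy : HW m ρ y) (x : Y) (hx : x ∈ Submodule.span ℂ {y, ρ 2 0 y})
    (i : Fin 3) (n : ℤ) (hn : 0 < n) : ρ i n x = 0 := by
  induction hx using Submodule.span_induction with
  | zero => exact map_zero _
  | add a b _ _ ha hb => rw [map_add, ha, hb, add_zero]
  | smul a b _ hb => rw [map_smul, hb, smul_zero]
  | mem r hr =>
    rcases hr with rfl | rfl
    · exact hy.pos i n hn
    · rw [comm hρ, hy.pos i n hn, hy.pos _ (n + 0) (by omega), cc, if_neg (by omega)]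
      simp

theorem vzero (hρ : IsRep m ρ) (hy : HW m ρ y) (x : Y) (hx : x ∈ Submodule.span ℂ {y, ρ 2 0 y})
    (i : Fin 3) : ρ i 0 x ∈ Submodule.span ℂ {y, ρ 2 0 y} := by
  have h0 : y ∈ Submodule.span ℂ {y, ρ 2 0 y} := Submodule.subset_span (Or.inl rfl)
  have h1 : ρ 2 0 y ∈ Submodule.span ℂ {y, ρ 2 0 y} := Submodule.subset_span (Or.inr rfl)
  have h2 : ∀ i, ρ i 0 y ∈ Submodule.span ℂ {y, ρ 2 0 y} ∧
      ρ 2 0 (ρ i 0 y) ∈ Submodule.span ℂ {y, ρ 2 0 y} := by
    intro i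
    fin_cases i
    · simp [hy.e0]
    · simp [hy.h0, h0, h1]
    · simp [hy.f2, h1]
  induction hx using Submodule.span_induction with
  | zero => simp
  | add a b _ _ ha hb => rw [map_add]; exact add_mem ha hb
  | smul a b _ hb => rw [map_smul]; exact Submodule.smul_mem _ a hb
  | mem r hr =>
    rcases hr with hr | hr
    · rw [hr]; exact (h2 i).1
    · rw [hr, comm hρ, add_zero]
      exact add_mem (h2 i).2
        (add_mem (Submodule.smul_mem _ _ (h2 _).1) (Submodule.smul_mem _ _ h0))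

end

end TA

theorem sA {m : ℕ} (hm : 1 ≤ m) : SA m where
  rep := TA.rep m
  hw := TA.hw hm
  ind := TA.ind
  lift := TA.lift hm
  smooth := TA.smooth (TA.rep m) (TA.hw hm) TA.ind
  Vpos := TA.vpos (TA.rep m) (TA.hw hm)
  Vzero := TA.vzero (TA.rep m) (TA.hw hm)

end Pool.Agent.MP_cb8d3a_ag.H42
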