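import Pool.Agent.MP_cb8d3a_ag.H42.TDefs

noncomputable section

open scoped BigOperators

namespace Pool.Agent.MP_cb8d3a_ag.H42
open Pool.Agent.MP_cb8d3a_ag.S2

namespace TC

variable {m : ℕ} {Y : Type} [AddCommGroup Y] [Module ℂ Y] {ρ : Fin 3 → ℤ → Module.End ℂ Y}

/-- Smooth representations. -/
structure Sm (m : ℕ) (ρ : Fin 3 → ℤ → Module.End ℂ Y) : Prop where
  rep : IsRep m ρ
  smooth : ∀ x, ∃ N : ℤ, ∀ i n, N ≤ n → ρ i n x = 0

/-- The coefficients below `N` vanish. -/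
def Van (N : ℤ) (φ : LS) : Prop := ∀ n < N, φ.coeff n = 0

theorem van_order (φ : LS) : Van φ.order φ := fun _ hn => HahnSeries.coeff_eq_zero_of_lt_order hn

theorem Van.mono {N N' : ℤ} {φ : LS} (h : Van N φ) (hN : N' ≤ N) : Van N' φ :=
  fun n hn => h n (hn.trans_le hN)

theorem Van.mul {a b : ℤ} {φ ψ : LS} (h : Van a φ) (h' : Van b ψ) : Van (a + b) (φ * ψ) := by
  intro n hn
  rw [HahnSeries.coeff_mul]
  refine Finset.sum_eq_zero fun p hp => ?_
  have e := (Finset.mem_antidiagonal.1 hp).2.2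
  by_cases h1 : p.1 < a
  · rw [h _ h1, zero_mul]
  · rw [h' p.2 (by omega), mul_zero]

theorem Van.th {N : ℤ} {φ : LS} (h : Van N φ) : Van N (th φ) := fun n hn => by
  rw [th_coeff, h n hn, mul_zero]

theorem split (φ : LS) (N : ℤ) : ∃ (s : Finset ℤ) (τ : LS), Van N τ ∧
    φ = ∑ n ∈ s, φ.coeff n • (HahnSeries.single n 1 : LS) + τ := by
  refine ⟨Finset.Ico φ.order N,
    φ - ∑ n ∈ Finset.Ico φ.order N, φ.coeff n • (HahnSeries.single n 1 : LS), fun k hk => ?_,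
    by abel⟩
  rw [HahnSeries.coeff_sub, HahnSeries.coeff_sum, Finset.sum_eq_single k]
  · simp
  · intro n _ hn
    rw [HahnSeries.coeff_smul, HahnSeries.coeff_single_of_ne hn.symm, smul_zero]
  · intro h
    have : k < φ.order := by
      by_contra h'
      exact h (Finset.mem_Ico.2 ⟨not_lt.1 h', hk⟩)
    rw [HahnSeries.coeff_smul, van_order φ k this, zero_smul]

theorem fin (hA : Sm m ρ) (i : Fin 3) (φ : LS) (x : Y) :
    Function.HasFiniteSupport fun n => φ.coeff n • ρ i n x := by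
  obtain ⟨N, hN⟩ := hA.smooth x
  refine (Set.finite_Ico φ.order N).subset fun n hn => ⟨?_, ?_⟩
  · by_contra h
    exact hn (by simp only [van_order φ n (not_le.1 h), zero_smul])
  · by_contra h
    exact hn (by simp only [hN i n (not_lt.1 h), smul_zero])

/-- The current as an endomorphism. -/
def C1 (hA : Sm m ρ) (i : Fin 3) (φ : LS) : Module.End ℂ Y where
  toFun x := ∑ᶠ n, φ.coeff n • ρ i n x
  map_add' x y := by
    simp only [map_add, smul_add]
    exact finsum_add_distrib (fin hA i φ x) (fin hA i φ y)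
  map_smul' r x := by
    simp only [map_smul, RingHom.id_apply]
    rw [smul_finsum' r (fin hA i φ x)]
    exact finsum_congr fun n => smul_comm _ _ _

/-- The currents. -/
def CC (hA : Sm m ρ) (i : Fin 3) : LS →ₗ[ℂ] Module.End ℂ Y where
  toFun := C1 hA i
  map_add' φ ψ := LinearMap.ext fun x => by
    change ∑ᶠ n, (φ + ψ).coeff n • ρ i n x =
      ∑ᶠ n, φ.coeff n • ρ i n x + ∑ᶠ n, ψ.coeff n • ρ i n x
    simp only [HahnSeries.coeff_add, add_smul]
    exact finsum_add_distrib (fin hA i φ x) (fin hA i ψ x)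
  map_smul' r φ := LinearMap.ext fun x => by
    change ∑ᶠ n, (r • φ).coeff n • ρ i n x = r • ∑ᶠ n, φ.coeff n • ρ i n x
    simp only [HahnSeries.coeff_smul, smul_eq_mul, mul_smul]
    exact (smul_finsum' r (fin hA i φ x)).symm

theorem cc_app (hA : Sm m ρ) (i : Fin 3) (φ : LS) (x : Y) :
    CC hA i φ x = ∑ᶠ n, φ.coeff n • ρ i n x := rfl

theorem cc_one (hA : Sm m ρ) (i : Fin 3) (φ : LS) (x : Y) (k : ℤ)
    (h : ∀ n, n ≠ k → φ.coeff n = 0 ∨ ρ i n x = 0) :
    CC hA i φ x = φ.coeff k • ρ i k x := by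
  rw [cc_app]
  refine finsum_eq_single _ k fun n hn => ?_
  rcases h n hn with e | e
  · rw [e, zero_smul]
  · rw [e, smul_zero]

theorem cc_single (hA : Sm m ρ) (i : Fin 3) (n : ℤ) :
    CC hA i (HahnSeries.single n 1) = ρ i n := LinearMap.ext fun x => by
  rw [cc_one hA i _ x n fun k hk => Or.inl (HahnSeries.coeff_single_of_ne hk),
    HahnSeries.coeff_single_same, one_smul]

theorem cc_van (hA : Sm m ρ) (x : Y) : ∃ N, ∀ i φ, Van N φ → CC hA i φ x = 0 := by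
  obtain ⟨N, hN⟩ := hA.smooth x
  refine ⟨N, fun i φ h => ?_⟩
  rw [cc_one hA i φ x N fun n _ => (lt_or_ge n N).imp (h n) (hN i n), hN i N le_rfl, smul_zero]

theorem th_add (φ ψ : LS) : th (φ + ψ) = th φ + th ψ := by
  ext n
  simp only [th_coeff, HahnSeries.coeff_add, mul_add]

theorem th_smul (r : ℂ) (φ : LS) : th (r • φ) = r • th φ := by
  ext n
  simp only [th_coeff, HahnSeries.coeff_smul, smul_eq_mul]
  ring

theorem th_single (n : ℤ) : th (HahnSeries.single n 1) = HahnSeries.single n (n : ℂ) := by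
  ext k
  rw [th_coeff]
  by_cases h : k = n
  · subst h
    simp
  · simp [HahnSeries.coeff_single_of_ne h]

theorem smul_mul (r : ℂ) (φ ψ : LS) : r • φ * ψ = r • (φ * ψ) := by
  rw [← HahnSeries.single_zero_mul_eq_smul, ← HahnSeries.single_zero_mul_eq_smul, mul_assoc]

theorem mul_smul' (r : ℂ) (φ ψ : LS) : φ * r • ψ = r • (φ * ψ) := by
  rw [mul_comm, smul_mul, mul_comm]

/-- The defect of the commutation relation. -/
def Df (hA : Sm m ρ) (i j : Fin 3) : LS →ₗ[ℂ] LS →ₗ[ℂ] Module.End ℂ Y :=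
  LinearMap.mk₂ ℂ (fun φ ψ => CC hA i φ * CC hA j ψ - CC hA j ψ * CC hA i φ -
      (cs i j • CC hA (br i j) (φ * ψ) + (kf i j * m * rs φ ψ) • 1))
    (fun φ φ' ψ => by
      simp only [rs, th_add, add_mul, mul_add, map_add, HahnSeries.coeff_add, smul_add, add_smul]
      abel)
    (fun r φ ψ => by
      simp only [rs, th_smul, smul_mul, map_smul, HahnSeries.coeff_smul, smul_eq_mul,
        smul_mul_assoc, mul_smul_comm]
      module)
    (fun φ ψ ψ' => by
      simp only [rs, add_mul, mul_add, map_add, HahnSeries.coeff_add, smul_add, add_smul]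
      abel)
    (fun r φ ψ => by
      simp only [rs, mul_smul', map_smul, HahnSeries.coeff_smul, smul_eq_mul,
        smul_mul_assoc, mul_smul_comm]
      module)

theorem df_app (hA : Sm m ρ) (i j : Fin 3) (φ ψ : LS) (x : Y) : Df hA i j φ ψ x =
    CC hA i φ (CC hA j ψ x) - CC hA j ψ (CC hA i φ x) -
      (cs i j • CC hA (br i j) (φ * ψ) x + (kf i j * m * rs φ ψ) • x) := rfl

theorem df_left (hA : Sm m ρ) (i j : Fin 3) (ψ : LS) (x : Y) :
    ∃ N, ∀ φ, Van N φ → Df hA i j φ ψ x = 0 := by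
  obtain ⟨N₁, h₁⟩ := cc_van hA x
  obtain ⟨N₂, h₂⟩ := cc_van hA (CC hA j ψ x)
  refine ⟨max (max N₁ N₂) (max (N₁ - ψ.order) (1 - ψ.order)), fun φ h => ?_⟩
  rw [df_app, h₁ i φ (h.mono (by omega)), h₂ i φ (h.mono (by omega)),
    h₁ _ _ ((h.mul (van_order ψ)).mono (by omega)), rs, (h.th.mul (van_order ψ)) 0 (by omega)]
  simp

theorem df_right (hA : Sm m ρ) (i j : Fin 3) (φ : LS) (x : Y) :
    ∃ N, ∀ ψ, Van N ψ → Df hA i j φ ψ x = 0 := by
  obtain ⟨N₁, h₁⟩ := cc_van hA x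
  obtain ⟨N₂, h₂⟩ := cc_van hA (CC hA i φ x)
  refine ⟨max (max N₁ N₂) (max (N₁ - φ.order) (1 - φ.order)), fun ψ h => ?_⟩
  rw [df_app, h₁ j ψ (h.mono (by omega)), h₂ j ψ (h.mono (by omega)),
    h₁ _ _ (((van_order φ).mul h).mono (by omega)), rs, ((van_order φ).th.mul h) 0 (by omega)]
  simp

theorem df_single (hA : Sm m ρ) (i j : Fin 3) (n k : ℤ) (x : Y) :
    Df hA i j (HahnSeries.single n 1) (HahnSeries.single k 1) x = 0 := by
  have h := LinearMap.congr_fun (hA.rep i n j k) x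
  have e : kf i j * m * rs (HahnSeries.single n 1) (HahnSeries.single k 1) = cc m i n j k := by
    rw [rs, th_single, HahnSeries.single_mul_single, cc]
    split_ifs with h0
    · rw [← h0, HahnSeries.coeff_single_same]
      ring
    · rw [HahnSeries.coeff_single_of_ne (Ne.symm h0), mul_zero]
  rw [df_app, e, HahnSeries.single_mul_single, one_mul, cc_single, cc_single, cc_single,
    sub_eq_zero]
  exact h

theorem df_zero (hA : Sm m ρ) (i j : Fin 3) (φ ψ : LS) (x : Y) : Df hA i j φ ψ x = 0 := by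
  have h1 : ∀ n, Df hA i j (HahnSeries.single n 1) ψ x = 0 := by
    intro n
    obtain ⟨N, hN⟩ := df_right hA i j (HahnSeries.single n 1) x
    obtain ⟨s, τ, hτ, e⟩ := split ψ N
    rw [e, map_add, map_sum, LinearMap.add_apply, hN τ hτ, add_zero, LinearMap.sum_apply]
    exact Finset.sum_eq_zero fun k _ => by
      rw [map_smul, LinearMap.smul_apply, df_single, smul_zero]
  obtain ⟨N, hN⟩ := df_left hA i j ψ x
  obtain ⟨s, τ, hτ, e⟩ := split φ N
  rw [e, map_add, map_sum, LinearMap.add_apply, LinearMap.add_apply, hN τ hτ, add_zero,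
    LinearMap.sum_apply, LinearMap.sum_apply]
  exact Finset.sum_eq_zero fun k _ => by
    rw [map_smul, LinearMap.smul_apply, LinearMap.smul_apply, h1, smul_zero]

theorem comm (hA : Sm m ρ) (i j : Fin 3) (φ ψ : LS) :
    CC hA i φ * CC hA j ψ - CC hA j ψ * CC hA i φ =
      cs i j • CC hA (br i j) (φ * ψ) + (kf i j * m * rs φ ψ) • 1 :=
  sub_eq_zero.1 (LinearMap.ext fun x => df_zero hA i j φ ψ x)

theorem c22 (hA : Sm m ρ) (φ ψ : LS) : CC hA 2 φ * CC hA 2 ψ = CC hA 2 ψ * CC hA 2 φ := by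
  have h := comm hA 2 2 φ ψ
  have e1 : cs 2 2 = 0 := rfl
  have e2 : kf 2 2 = 0 := rfl
  rw [e1, e2, zero_smul, zero_mul, zero_mul, zero_smul, add_zero] at h
  exact sub_eq_zero.1 h

theorem c21 (hA : Sm m ρ) (φ ψ : LS) :
    CC hA 2 φ * CC hA 1 ψ - CC hA 1 ψ * CC hA 2 φ = (2 : ℂ) • CC hA 2 (φ * ψ) := by
  have h := comm hA 2 1 φ ψ
  have e1 : cs 2 1 = 2 := rfl
  have e2 : kf 2 1 = 0 := rfl
  have e3 : br 2 1 = 2 := rfl
  rwa [e1, e2, e3, zero_mul, zero_mul, zero_smul, add_zero] at h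

theorem step (hL : SL) (hA : Sm m ρ) (φ ψ : LS) (j : Fin 3) (N : ℕ) (x : Y)
    (h : (CC hA 2 φ ^ N) x = 0) : (CC hA 2 φ ^ (N + 2)) (CC hA j ψ x) = 0 := by
  have hj : j = 0 ∨ j = 1 ∨ j = 2 := by omega
  rcases hj with rfl | rfl | rfl
  · have e1 : cs 2 0 = -1 := rfl
    have e3 : br 2 0 = 1 := rfl
    refine hL.nil _ _ _ (-((2 : ℂ) • CC hA 2 (φ * (φ * ψ)))) (comm hA 2 0 φ ψ) ?_ ?_ N x h
    · rw [← c21, e1, e3]
      simp only [mul_add, add_mul, smul_mul_assoc, mul_smul_comm, mul_one, one_mul]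
      module
    · rw [mul_neg, neg_mul, smul_mul_assoc, mul_smul_comm, c22]
  · refine hL.nil _ _ _ 0 (c21 hA φ ψ) ?_ (by simp) N x h
    rw [smul_mul_assoc, mul_smul_comm, c22, sub_self]
  · exact hL.nil _ _ 0 0 (sub_eq_zero.2 (c22 hA φ ψ)) (by simp) (by simp) N x h

/-- The vectors killed by a power of `A`. -/
def Nil (A : Module.End ℂ Y) : Submodule ℂ Y where
  carrier := {x | ∃ N : ℕ, (A ^ N) x = 0}
  zero_mem' := ⟨0, map_zero _⟩
  add_mem' := by
    rintro x y ⟨a, ha⟩ ⟨b, hb⟩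
    refine ⟨a + b, ?_⟩
    rw [map_add]
    nth_rewrite 1 [add_comm a b]
    rw [pow_add, pow_add, Module.End.mul_apply, Module.End.mul_apply, ha, hb, map_zero, map_zero,
      add_zero]
  smul_mem' := by
    rintro c x ⟨a, ha⟩
    exact ⟨a, by rw [map_smul, ha, smul_zero]⟩

theorem nil (hL : SL) (hA : Sm m ρ) {v : Y} (hw : HW m ρ v)
    (ind : ∀ W : Submodule ℂ Y, v ∈ W → (∀ i n, ∀ x ∈ W, ρ i n x ∈ W) → ∀ x, x ∈ W)
    (φ : LS) (hφ : ∀ n < -1, φ.coeff n = 0) (x : Y) :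
    ∃ N : ℕ, (CC hA 2 φ ^ N) x = 0 := by
  have hW : ∀ i n, ∀ y ∈ Nil (CC hA 2 φ), ρ i n y ∈ Nil (CC hA 2 φ) := by
    rintro i n y ⟨N, hN⟩
    exact ⟨N + 2, cc_single hA i n ▸ step hL hA φ _ i N y hN⟩
  obtain ⟨hlw, hv⟩ := hL.hw_lw m ρ v hA.rep hw
  refine ind (Nil (CC hA 2 φ)) (hv ▸ hW 0 0 _ ⟨m, ?_⟩) hW x
  have h1 : CC hA 2 φ (ρ 2 0 v) = φ.coeff (-1) • ρ 2 (-1) (ρ 2 0 v) := by
    refine cc_one hA 2 φ _ (-1) fun n hn => ?_
    rcases lt_trichotomy n 0 with h | h | h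
    · exact Or.inl (hφ n (by omega))
    · exact Or.inr (h ▸ hlw.f0)
    · exact Or.inr (hlw.pos 2 n h)
  have hc : Commute (CC hA 2 φ) (ρ 2 (-1)) := cc_single hA 2 (-1) ▸ c22 hA φ _
  have h2 : ∀ k : ℕ, (CC hA 2 φ ^ k) (ρ 2 0 v) =
      φ.coeff (-1) ^ k • (ρ 2 (-1) ^ k) (ρ 2 0 v) := by
    intro k
    induction k with
    | zero => simp
    | succ k ih =>
      rw [pow_succ, Module.End.mul_apply, h1, map_smul, ← Module.End.mul_apply,
        (hc.pow_left k).eq, Module.End.mul_apply, ih, map_smul, smul_smul, ← pow_succ',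
        ← Module.End.mul_apply, ← pow_succ']
  rw [h2, hlw.int, smul_zero]

end TC

theorem sC {m : ℕ} (hL : SL) (hA : SA m) : ∃ C, SC m C :=
  have h : TC.Sm m (op m) := ⟨hA.rep, hA.smooth⟩
  ⟨TC.CC h, fun _ _ _ => rfl, TC.cc_single h, TC.comm h,
    fun i φ h' x hx => TC.cc_one h i φ x 0 fun n hn =>
      (lt_or_gt_of_ne hn).imp (h' n) (hA.Vpos x hx i n),
    TC.nil hL h hA.hw hA.ind⟩

end Pool.Agent.MP_cb8d3a_ag.H42
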