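import Pool.Agent.MP_cb8d3a_ag.H42.TDefs

noncomputable section

open scoped BigOperators

namespace Pool.Agent.MP_cb8d3a_ag.H42
open Pool.Agent.MP_cb8d3a_ag.S2

namespace TE

lemma sm0 {m : ℕ} (c : ℂ) : c • (0 : HM m) = 0 := smul_zero (A := HM m) c

lemma sm1 {m : ℕ} (x : HM m) : x = (1 : ℂ) • x := (one_smul ℂ x).symm

lemma smn {m : ℕ} (x : HM m) : -x = (-1 : ℂ) • x := (neg_one_smul ℂ x).symm

lemma vec_mem (m : ℕ) (I : Finset (Fin 11)) (p : Option (Fin 11)) : vec m I p ∈ Vs m := by
  have h1 : vac m ∈ Vs m := Submodule.subset_span (by simp)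
  have h2 : md 2 0 • vac m ∈ Vs m := Submodule.subset_span (by simp [op_apply])
  rcases p with _ | i
  · exact h2
  · simp only [vec]
    split_ifs
    · exact h2
    · exact h1

lemma upd (m : ℕ) (J : Finset (Fin 11)) (l : Fin 11) :
    Function.update (vec m J) (some l) (md 2 0 • vac m) = vec m (insert l J) := by
  funext p
  rcases p with _ | i
  · simp [vec]
  · by_cases h : i = l
    · subst h
      simp [vec]
    · rw [Function.update_of_ne (by simpa using h)]
      simp [vec, h]

lemma low {m : ℕ} (hA : SA m) (Φ : ML (Option (Fin 11)) (HM m)) (c : Fin 11 → ℂ)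
    (J : Finset (Fin 11)) (w : Option (Fin 11) → HM m) (h0 : w none = 0)
    (h1 : ∀ l, w (some l) = c l • op m 2 0 (vec m J (some l)))
    (h : ∑ p, Φ (Function.update (vec m J) p (w p)) = 0) :
    St.lower c (fun I => Φ (vec m I)) J = 0 := by
  rw [Fintype.sum_option, h0, MultilinearMap.map_update_zero, zero_add,
    ← Finset.sum_add_sum_compl J] at h
  have e1 : ∑ l ∈ J, Φ (Function.update (vec m J) (some l) (w (some l))) = 0 := by
    refine Finset.sum_eq_zero fun l hl => ?_
    have : op m 2 0 (vec m J (some l)) = 0 := by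
      simp only [vec, hl, if_true]
      exact hA.hw.f2
    have e0 : w (some l) = 0 := by
      rw [h1, this]
      exact sm0 _
    rw [e0, MultilinearMap.map_update_zero]
  rw [e1, zero_add] at h
  rw [← h]
  refine Finset.sum_congr rfl fun l hl => ?_
  have : op m 2 0 (vec m J (some l)) = md 2 0 • vac m := by
    simp only [vec, Finset.mem_compl.1 hl, if_false]
    rfl
  rw [h1, this, MultilinearMap.map_update_smul, upd, smul_eq_mul]

end TE

open TE in
theorem sE {z : Fin 11 → ℂ} {C : Fin 3 → LS →ₗ[ℂ] Module.End ℂ (HM 1)}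
    {E : Option (Fin 11) → RatFunc ℂ →ₐ[ℂ] LS} (hL : SL) (hA : SA 1) (hC : SC 1 C)
    (hF : SF z E) : SE z := by
  rintro ψ ⟨Φ, hΦ, hψ⟩
  obtain rfl : ψ = fun I => Φ (vec 1 I) := funext hψ
  have key : ∀ i, ∀ φ ∈ OC z, ∀ I,
      ∑ p, Φ (Function.update (vec 1 I) p (C i (E p φ) (vec 1 I p))) = 0 := by
    intro i φ hφ I
    simp only [hC.app, hF.eval]
    exact hΦ i φ hφ _
  have one : ∀ i p, C i (E p 1) = op 1 i 0 := by
    intro i p
    rw [map_one, ← hC.single i 0, HahnSeries.single_zero_one]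
  have lw := (hL.hw_lw 1 _ _ hA.rep hA.hw).1
  refine ⟨⟨fun I hI => ?_, funext fun J => ?_⟩, funext fun J => ?_⟩
  · have h := key 1 1 (one_mem _) I
    simp only [one] at h
    have e : ∀ p, op 1 1 0 (vec 1 I p) =
        (Option.elim p (-1) (fun l => if l ∈ I then -1 else 1) : ℂ) • vec 1 I p := by
      rintro (_ | l)
      · exact lw.h0.trans (smn _)
      · by_cases hl : l ∈ I
        · simp only [vec, Option.elim, hl, if_true]
          exact lw.h0.trans (smn _)
        · simp only [vec, Option.elim, hl, if_false]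
          exact hA.hw.h0.trans (sm1 _)
    simp only [e, MultilinearMap.map_update_smul, Function.update_eq_self, smul_eq_mul,
      ← Finset.sum_mul] at h
    refine (mul_eq_zero.1 h).resolve_left ?_
    rw [Fintype.sum_option, ← Finset.sum_add_sum_compl I]
    simp only [Option.elim]
    rw [Finset.sum_congr rfl fun l hl => if_pos hl,
      Finset.sum_congr rfl fun l hl => if_neg (Finset.mem_compl.1 hl)]
    have hc := Finset.card_add_card_compl I
    rw [Fintype.card_fin] at hc
    have hc' : (I.card : ℂ) + (Iᶜ.card : ℂ) = 11 := by exact_mod_cast hc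
    simp only [Finset.sum_const, nsmul_eq_mul]
    intro h0
    apply hI
    have : (I.card : ℂ) = 5 := by linear_combination hc' / 2 - h0 / 2
    exact_mod_cast this
  · refine low hA Φ _ J _ ?_ (fun l => ?_) (key 2 1 (one_mem _) J)
    · rw [one]
      exact hA.hw.f2
    · rw [one]
      exact (sm1 _)
  · have hX : (RatFunc.X : RatFunc ℂ) ∈ OC z := Algebra.subset_adjoin (Or.inl rfl)
    have hX' : (RatFunc.X : RatFunc ℂ) ∈ OS z ∅ := Algebra.subset_adjoin (Or.inl rfl)
    refine low hA Φ _ J _ ?_ (fun l => ?_) (key 2 _ hX J)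
    · have h1 := hF.X_inf 1
      rw [pow_one] at h1
      rw [h1, hC.single]
      have := lw.int
      rw [pow_one] at this
      exact this
    · have h1 := hF.X_fin l 1
      rw [pow_one, pow_one] at h1
      rw [hC.onV 2 _ (hF.reg ∅ _ hX' l (Finset.notMem_empty l)) _ (vec_mem 1 J _), h1]

open TE in
theorem block_of {z : Fin 11 → ℂ} {m : ℕ} {C : Fin 3 → LS →ₗ[ℂ] Module.End ℂ (HM m)}
    {E : Option (Fin 11) → RatFunc ℂ →ₐ[ℂ] LS} (hC : SC m C) (hF : SF z E)
    (hS : SS z m C E) (hZ : SZ z m C E) {ψ : Dual} (h : St.Block z m ψ) : Block z m ψ := by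
  have main : ∀ S : Finset (Fin 11), ∃ Φ, Inv z m C E S Φ ∧ ∀ I, ψ I = Φ (vec m I) := by
    intro S
    induction S using Finset.induction_on with
    | empty => exact hZ ψ h
    | insert j S hj ih =>
      obtain ⟨Φ, h1, h2⟩ := ih
      obtain ⟨Φ', h3, h4⟩ := hS S j hj Φ h1
      exact ⟨Φ', h3, fun I => by rw [h2, h4 _ fun i _ => vec_mem m I _]⟩
  obtain ⟨Φ, h1, h2⟩ := main Finset.univ
  refine ⟨Φ, fun i φ hφ v => ?_, h2⟩
  have := h1 i φ (hF.top ▸ hφ) v fun i hi => absurd (Finset.mem_univ i) hi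
  rw [LinearMap.sum_apply, sum_apply] at this
  simpa only [slot_apply, hC.app, hF.eval] using this

end Pool.Agent.MP_cb8d3a_ag.H42
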