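import Pool.Agent.MP_cb8d3a_ag.H42.TDefs

noncomputable section

open scoped BigOperators

namespace Pool.Agent.MP_cb8d3a_ag.H42
open Pool.Agent.MP_cb8d3a_ag.S2

namespace TI

theorem cs_anti (i j : Fin 3) : cs j i = -cs i j := by
  fin_cases i <;> fin_cases j <;> simp [cs]

theorem br_comm (i j : Fin 3) : br j i = br i j := by
  unfold br; rw [add_comm]

theorem kf_comm (i j : Fin 3) : kf j i = kf i j := by
  fin_cases i <;> fin_cases j <;> simp [kf]

theorem cc_anti (m : ℕ) (i : Fin 3) (n : ℤ) (j : Fin 3) (k : ℤ) :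
    cc m j k i n = -cc m i n j k := by
  unfold cc
  rw [add_comm k n, kf_comm]
  split_ifs with h
  · have : k = -n := by omega
    subst this
    push_cast
    ring
  · simp

theorem br_cyc (i j l : Fin 3) : br (br j l) i = br (br i j) l := by
  revert i j l; decide

theorem br00 : br 0 0 = 2 := by decide
theorem br01 : br 0 1 = 0 := by decide
theorem br02 : br 0 2 = 1 := by decide
theorem br10 : br 1 0 = 0 := by decide
theorem br11 : br 1 1 = 1 := by decide
theorem br12 : br 1 2 = 2 := by decide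
theorem br20 : br 2 0 = 1 := by decide
theorem br21 : br 2 1 = 2 := by decide
theorem br22 : br 2 2 = 0 := by decide

theorem fin3 (i : Fin 3) : i = 0 ∨ i = 1 ∨ i = 2 := by
  revert i; decide

theorem cs_jac (i j l : Fin 3) :
    cs i j * cs (br i j) l + cs j l * cs (br j l) i + cs l i * cs (br l i) j = 0 := by
  rcases fin3 i with rfl | rfl | rfl <;> rcases fin3 j with rfl | rfl | rfl <;>
    rcases fin3 l with rfl | rfl | rfl <;>
    simp [br00, br01, br02, br10, br11, br12, br20, br21, br22, cs] <;> norm_num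

theorem kf_cyc (i j l : Fin 3) : cs j l * kf (br j l) i = cs i j * kf (br i j) l := by
  rcases fin3 i with rfl | rfl | rfl <;> rcases fin3 j with rfl | rfl | rfl <;>
    rcases fin3 l with rfl | rfl | rfl <;>
    simp [br00, br01, br02, br10, br11, br12, br20, br21, br22, cs, kf]

theorem cc_jac (m : ℕ) (i : Fin 3) (n : ℤ) (j : Fin 3) (k : ℤ) (l : Fin 3) (q : ℤ) :
    cs i j * cc m (br i j) (n + k) l q + cs j l * cc m (br j l) (k + q) i n +
      cs l i * cc m (br l i) (q + n) j k = 0 := by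
  unfold cc
  by_cases h : n + k + q = 0
  · rw [if_pos h, if_pos (by omega), if_pos (by omega)]
    have h1 := kf_cyc i j l
    have h2 := kf_cyc j l i
    have h3 : ((n : ℂ) + k + q) = 0 := by exact_mod_cast h
    push_cast
    linear_combination ((k : ℂ) + q + (q + n)) * m * h1 + ((q : ℂ) + n) * m * h2 +
      2 * (cs i j * kf (br i j) l) * m * h3
  · rw [if_neg h, if_neg (by omega), if_neg (by omega)]
    simp

section
variable {A : Type} [Ring A] [Algebra ℂ A]

/-- The defect of a commutation relation. -/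
def df (m : ℕ) (ρ : Fin 3 → ℤ → A) (i : Fin 3) (n : ℤ) (j : Fin 3) (k : ℤ) : A :=
  ρ i n * ρ j k - ρ j k * ρ i n - (cs i j • ρ (br i j) (n + k) + cc m i n j k • 1)

theorem df_anti (m : ℕ) (ρ : Fin 3 → ℤ → A) (i : Fin 3) (n : ℤ) (j : Fin 3) (k : ℤ) :
    df m ρ j k i n = -df m ρ i n j k := by
  unfold df
  rw [cs_anti i j, br_comm i j, cc_anti m i n j k, add_comm k n, neg_smul, neg_smul]
  abel

theorem df_jac (m : ℕ) (ρ : Fin 3 → ℤ → A) (i : Fin 3) (n : ℤ) (j : Fin 3) (k : ℤ) (l : Fin 3)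
    (q : ℤ) :
    (df m ρ i n j k * ρ l q - ρ l q * df m ρ i n j k) +
      (df m ρ j k l q * ρ i n - ρ i n * df m ρ j k l q) +
      (df m ρ l q i n * ρ j k - ρ j k * df m ρ l q i n) +
      (cs i j • df m ρ (br i j) (n + k) l q + cs j l • df m ρ (br j l) (k + q) i n +
        cs l i • df m ρ (br l i) (q + n) j k) = 0 := by
  have h1 := cs_jac i j l
  have h2 := cc_jac m i n j k l q
  have e1 : k + q + n = n + k + q := by ring
  have e2 : q + n + k = n + k + q := by ring
  have h3 : (cs i j * cs (br i j) l + cs j l * cs (br j l) i + cs l i * cs (br l i) j) •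
      ρ (br (br i j) l) (n + k + q) = 0 := by rw [h1, zero_smul]
  have h4 : (cs i j * cc m (br i j) (n + k) l q + cs j l * cc m (br j l) (k + q) i n +
      cs l i * cc m (br l i) (q + n) j k) • (1 : A) = 0 := by rw [h2, zero_smul]
  unfold df
  rw [br_cyc j l i, br_cyc i j l, e1, e2]
  simp only [add_smul, mul_smul] at h3 h4
  simp only [mul_sub, sub_mul, mul_add, add_mul, smul_mul_assoc, mul_smul_comm, one_mul, mul_one,
    smul_sub, smul_add, mul_assoc]
  rw [← neg_zero, ← add_zero (0 : A)]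
  nth_rewrite 1 [← h3]
  rw [← h4]
  abel

end

section
variable {Y : Type} [AddCommGroup Y] [Module ℂ Y]

theorem df_app (m : ℕ) (ρ : Fin 3 → ℤ → Module.End ℂ Y) (i : Fin 3) (n : ℤ) (j : Fin 3) (k : ℤ)
    (w : Y) : df m ρ i n j k w = ρ i n (ρ j k w) - ρ j k (ρ i n w) -
      (cs i j • ρ (br i j) (n + k) w + cc m i n j k • w) := rfl

theorem df_anti_app (m : ℕ) (ρ : Fin 3 → ℤ → Module.End ℂ Y) (i : Fin 3) (n : ℤ) (j : Fin 3)
    (k : ℤ) (w : Y) : df m ρ j k i n w = -df m ρ i n j k w :=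
  LinearMap.congr_fun (df_anti m ρ i n j k) w

theorem df_jac_app (m : ℕ) (ρ : Fin 3 → ℤ → Module.End ℂ Y) (i : Fin 3) (n : ℤ) (j : Fin 3)
    (k : ℤ) (l : Fin 3) (q : ℤ) (w : Y) :
    (df m ρ i n j k (ρ l q w) - ρ l q (df m ρ i n j k w)) +
      (df m ρ j k l q (ρ i n w) - ρ i n (df m ρ j k l q w)) +
      (df m ρ l q i n (ρ j k w) - ρ j k (df m ρ l q i n w)) +
      (cs i j • df m ρ (br i j) (n + k) l q w + cs j l • df m ρ (br j l) (k + q) i n w +
        cs l i • df m ρ (br l i) (q + n) j k w) = 0 :=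
  LinearMap.congr_fun (df_jac m ρ i n j k l q) w

end

/-- The free vector space on words. -/
abbrev T : Type := List (Fin 3 × ℕ) →₀ ℂ

/-- Adding a letter. -/
def L (p : Fin 3 × ℕ) : Module.End ℂ T := Finsupp.lmapDomain ℂ ℂ (List.cons p)

theorem L_single (p : Fin 3 × ℕ) (w : List (Fin 3 × ℕ)) (c : ℂ) :
    L p (Finsupp.single w c) = Finsupp.single (p :: w) c := by
  simp [L]

/-- The action on words. -/
def r (m : ℕ) : List (Fin 3 × ℕ) → Fin 3 → ℤ → T
  | [], i, n => if n ≤ 0 then Finsupp.single [(i, (-n).toNat)] 1 else 0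
  | p :: w, i, n => if n ≤ 0 then Finsupp.single ((i, (-n).toNat) :: p :: w) 1 else
      L p (r m w i n) + (cs i p.1 • r m w (br i p.1) (n + -(p.2 : ℤ)) +
        cc m i n p.1 (-(p.2 : ℤ)) • Finsupp.single w 1)

/-- The action. -/
def ro (m : ℕ) (i : Fin 3) (n : ℤ) : Module.End ℂ T :=
  Finsupp.linearCombination ℂ fun w => r m w i n

theorem ro_single (m : ℕ) (i : Fin 3) (n : ℤ) (w : List (Fin 3 × ℕ)) :
    ro m i n (Finsupp.single w 1) = r m w i n := by
  simp [ro]

theorem ext_T {Y : Type} [AddCommGroup Y] [Module ℂ Y] {f g : T →ₗ[ℂ] Y}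
    (h : ∀ w, f (Finsupp.single w 1) = g (Finsupp.single w 1)) : f = g := by
  refine Finsupp.lhom_ext' fun w => LinearMap.ext_ring ?_
  exact h w

theorem ro_nonpos (m : ℕ) (i : Fin 3) {n : ℤ} (hn : n ≤ 0) : ro m i n = L (i, (-n).toNat) := by
  refine ext_T fun w => ?_
  rw [ro_single, L_single]
  cases w with
  | nil => simp [r, hn]
  | cons p w => simp [r, hn]

theorem ro_neg (m : ℕ) (i : Fin 3) (k : ℕ) : ro m i (-(k : ℤ)) = L (i, k) := by
  rw [ro_nonpos m i (by omega)]
  simp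

/-- The empty word. -/
def e : T := Finsupp.single [] 1

theorem ro_e (m : ℕ) (i : Fin 3) {n : ℤ} (hn : 0 < n) : ro m i n e = 0 := by
  rw [e, ro_single]
  simp [r, not_le.2 hn]

theorem df_pn (m : ℕ) (i j : Fin 3) {n k : ℤ} (hn : 0 < n) (hk : k ≤ 0) (w : T) :
    df m (ro m) i n j k w = 0 := by
  obtain ⟨k, rfl⟩ : ∃ k' : ℕ, k = -(k' : ℤ) := ⟨(-k).toNat, by omega⟩
  have : df m (ro m) i n j (-(k : ℤ)) = (0 : T →ₗ[ℂ] T) := by
    refine ext_T fun w => ?_
    rw [df_app, ro_neg, L_single, ro_single, ro_single, ro_single]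
    simp [r, not_le.2 hn]
  rw [this]
  rfl

theorem df_np (m : ℕ) (i j : Fin 3) {n k : ℤ} (hn : n ≤ 0) (hk : 0 < k) (w : T) :
    df m (ro m) i n j k w = 0 := by
  rw [df_anti_app, df_pn m j i hk hn, neg_zero]

theorem df_pp (m : ℕ) (w : List (Fin 3 × ℕ)) : ∀ (i j : Fin 3) (n k : ℤ), 0 < n →
    df m (ro m) i n j k (Finsupp.single w 1) = 0 := by
  induction w with
  | nil =>
    intro i j n k hn
    rcases le_or_gt k 0 with hk | hk
    · exact df_pn m i j hn hk _
    · have h0 : cc m i n j k = 0 := by unfold cc; rw [if_neg (by omega)]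
      show df m (ro m) i n j k e = 0
      rw [df_app, ro_e m _ hn, ro_e m _ hk, ro_e m _ (show 0 < n + k by omega), h0]
      simp
  | cons p w ih =>
    intro i j n k hn
    rcases le_or_gt k 0 with hk | hk
    · exact df_pn m i j hn hk _
    · obtain ⟨l, q⟩ := p
      have hq : -(q : ℤ) ≤ 0 := by omega
      have h := df_jac_app m (ro m) i n j k l (-(q : ℤ)) (Finsupp.single w 1)
      rw [df_pn m j l hk hq, df_pn m j l hk hq, df_np m l i hq hn, df_np m l i hq hn,
        df_pn m _ l (show 0 < n + k by omega) hq, df_anti_app m (ro m) i n (br j l),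
        df_anti_app m (ro m) j k (br l i), ih i _ n _ hn, ih i _ n _ hn, ih j _ k _ hk,
        ro_neg, L_single] at h
      simpa using h

theorem df_p (m : ℕ) (i j : Fin 3) {n : ℤ} (k : ℤ) (hn : 0 < n) (w : T) :
    df m (ro m) i n j k w = 0 :=
  LinearMap.congr_fun (ext_T (f := df m (ro m) i n j k) (g := 0) fun w => df_pp m w i j n k hn) w

/-- The closure of a set under the letters. -/
def cl (S : Set T) : Submodule ℂ T :=
  sInf {W | S ⊆ W ∧ ∀ p, ∀ w ∈ W, L p w ∈ W}

theorem cl_le {S : Set T} {W : Submodule ℂ T} (h1 : S ⊆ W) (h2 : ∀ p, ∀ w ∈ W, L p w ∈ W) :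
    cl S ≤ W := sInf_le ⟨h1, h2⟩

theorem cl_sub {S : Set T} {s : T} (hs : s ∈ S) : s ∈ cl S :=
  (Submodule.mem_sInf).2 fun _ hW => hW.1 hs

theorem cl_L {S : Set T} (p : Fin 3 × ℕ) {w : T} (hw : w ∈ cl S) : L p w ∈ cl S :=
  (Submodule.mem_sInf).2 fun W hW => hW.2 p w ((Submodule.mem_sInf).1 hw W hW)

theorem cl_stab (m : ℕ) {S : Set T} (h : ∀ s ∈ S, ∀ i n, 0 < n → ro m i n s ∈ cl S)
    (i : Fin 3) (n : ℤ) {w : T} (hw : w ∈ cl S) : ro m i n w ∈ cl S := by
  let W : Submodule ℂ T :=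
    { carrier := {w | w ∈ cl S ∧ ∀ i n, ro m i n w ∈ cl S}
      add_mem' := fun ha hb => ⟨add_mem ha.1 hb.1, fun i n => by
        rw [map_add]; exact add_mem (ha.2 i n) (hb.2 i n)⟩
      zero_mem' := ⟨zero_mem _, fun i n => by rw [map_zero]; exact zero_mem _⟩
      smul_mem' := fun c _ ha => ⟨Submodule.smul_mem _ c ha.1, fun i n => by
        rw [map_smul]; exact Submodule.smul_mem _ c (ha.2 i n)⟩ }
  have hle : cl S ≤ W := by
    refine cl_le (fun s hs => ⟨cl_sub hs, fun i n => ?_⟩) fun p w hw => ⟨cl_L p hw.1, fun i n => ?_⟩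
    · rcases le_or_gt n 0 with hn | hn
      · rw [ro_nonpos m i hn]; exact cl_L _ (cl_sub hs)
      · exact h s hs i n hn
    · rcases le_or_gt n 0 with hn | hn
      · rw [ro_nonpos m i hn]; exact cl_L _ (cl_L p hw.1)
      · obtain ⟨l, q⟩ := p
        have h0 := df_p m i l (-(q : ℤ)) hn w
        rw [df_app, ro_neg, sub_eq_zero, sub_eq_iff_eq_add] at h0
        rw [h0]
        exact add_mem (add_mem (Submodule.smul_mem _ _ (hw.2 _ _)) (Submodule.smul_mem _ _ hw.1))
          (cl_L _ (hw.2 i n))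
  exact (hle hw).2 i n

/-- The first set of relations. -/
def S1 (m : ℕ) : Set T :=
  {s | (∃ i n j k w, s = df m (ro m) i n j k w) ∨ s = ro m 2 0 e ∨ s = ro m 1 0 e + e ∨
    s = ro m 0 0 (ro m 0 0 e)}

theorem ro_ro0 (m : ℕ) (i j : Fin 3) {n : ℤ} (hn : 0 < n) {w : T}
    (hw : ∀ i n, 0 < n → ro m i n w = 0) : ro m i n (ro m j 0 w) = 0 := by
  have h0 := df_p m i j 0 hn w
  have h1 : cc m i n j 0 = 0 := by unfold cc; rw [if_neg (by omega)]
  rw [df_app, add_zero, hw _ n hn, hw _ n hn, h1] at h0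
  simpa using h0

theorem S1_stab (m : ℕ) {S : Set T} (hS : S1 m ⊆ S) :
    ∀ s ∈ S1 m, ∀ i n, 0 < n → ro m i n s ∈ cl S := by
  have hd : ∀ i n j k w, df m (ro m) i n j k w ∈ cl S := fun i n j k w =>
    cl_sub (hS (Or.inl ⟨i, n, j, k, w, rfl⟩))
  have he : ∀ i n, 0 < n → ro m i n e = 0 := fun i n hn => ro_e m i hn
  rintro s (⟨i, n, j, k, w, rfl⟩ | rfl | rfl | rfl) l q hq
  · have h := df_jac_app m (ro m) i n j k l q w
    rw [df_anti_app m (ro m) l q j k, df_anti_app m (ro m) l q j k, df_p m l j k hq,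
      df_p m l j k hq, df_p m l i n hq, df_p m l i n hq] at h
    have h' : df m (ro m) i n j k (ro m l q w) +
        (cs i j • df m (ro m) (br i j) (n + k) l q w + cs j l • df m (ro m) (br j l) (k + q) i n w +
        cs l i • df m (ro m) (br l i) (q + n) j k w) = ro m l q (df m (ro m) i n j k w) := by
      simp only [neg_zero, map_zero, sub_zero, add_zero] at h
      rwa [sub_add_eq_add_sub, sub_eq_zero] at h
    rw [← h']
    exact add_mem (hd _ _ _ _ _) (add_mem (add_mem (Submodule.smul_mem _ _ (hd _ _ _ _ _))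
      (Submodule.smul_mem _ _ (hd _ _ _ _ _))) (Submodule.smul_mem _ _ (hd _ _ _ _ _)))
  · rw [ro_ro0 m l 2 hq he]; exact zero_mem _
  · rw [map_add, ro_ro0 m l 1 hq he, he l q hq, add_zero]; exact zero_mem _
  · rw [ro_ro0 m l 0 hq fun i n hn => ro_ro0 m i 0 hn he]; exact zero_mem _

/-- The action on a quotient. -/
def rq (m : ℕ) (W : Submodule ℂ T) (hW : ∀ i n, ∀ w ∈ W, ro m i n w ∈ W) (i : Fin 3) (n : ℤ) :
    Module.End ℂ (T ⧸ W) := W.mapQ W (ro m i n) (hW i n)

theorem rq_mk (m : ℕ) (W : Submodule ℂ T) (hW : ∀ i n, ∀ w ∈ W, ro m i n w ∈ W) (i : Fin 3)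
    (n : ℤ) (w : T) : rq m W hW i n (W.mkQ w) = W.mkQ (ro m i n w) := rfl

theorem rq_pow (m : ℕ) (W : Submodule ℂ T) (hW : ∀ i n, ∀ w ∈ W, ro m i n w ∈ W) (i : Fin 3)
    (n : ℤ) (k : ℕ) (w : T) : (rq m W hW i n ^ k) (W.mkQ w) = W.mkQ ((ro m i n ^ k) w) := by
  induction k with
  | zero => rfl
  | succ k ih => rw [pow_succ', pow_succ', Module.End.mul_apply, Module.End.mul_apply, ih, rq_mk]

theorem mk_zero {W : Submodule ℂ T} {w : T} : W.mkQ w = 0 ↔ w ∈ W :=
  Submodule.Quotient.mk_eq_zero W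

theorem rq_rep (m : ℕ) (W : Submodule ℂ T) (hW : ∀ i n, ∀ w ∈ W, ro m i n w ∈ W)
    (hS : S1 m ⊆ W) : IsRep m (rq m W hW) := by
  intro i n j k
  refine LinearMap.ext fun x => ?_
  obtain ⟨w, rfl⟩ := W.mkQ_surjective x
  have h0 : W.mkQ (df m (ro m) i n j k w) = 0 := mk_zero.2 (hS (Or.inl ⟨i, n, j, k, w, rfl⟩))
  unfold df at h0
  simp only [LinearMap.sub_apply, Module.End.mul_apply, LinearMap.add_apply,
    LinearMap.smul_apply, Module.End.one_apply, map_sub, map_add, map_smul] at h0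
  simp only [LinearMap.sub_apply, Module.End.mul_apply, LinearMap.add_apply,
    LinearMap.smul_apply, Module.End.one_apply, rq_mk]
  exact sub_eq_zero.1 h0

/-- The singular vector. -/
theorem sing {m : ℕ} (hm : 1 ≤ m) (hL : SL) {Y : Type} [AddCommGroup Y] [Module ℂ Y]
    (ρ : Fin 3 → ℤ → Module.End ℂ Y) (y : Y) (hρ : IsRep m ρ)
    (hp : ∀ i n, 0 < n → ρ i n y = 0) (hf : ρ 2 0 y = 0) (hh : ρ 1 0 y = -y) :
    ∀ i n, 0 < n → ρ i n ((ρ 2 (-1) ^ m) y) = 0 := by
  have app : ∀ i n j k x, ρ i n (ρ j k x) =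
      ρ j k (ρ i n x) + (cs i j • ρ (br i j) (n + k) x + cc m i n j k • x) := by
    intro i n j k x
    have := LinearMap.congr_fun (hρ i n j k) x
    simp only [LinearMap.sub_apply, Module.End.mul_apply, LinearMap.add_apply,
      LinearMap.smul_apply, Module.End.one_apply] at this
    rw [← this]; abel
  have hF : ∀ k : ℕ, ∀ n, 0 ≤ n → ρ 2 n ((ρ 2 (-1) ^ k) y) = 0 := by
    intro k
    induction k with
    | zero =>
      intro n hn
      rcases hn.lt_or_eq with h | h
      · exact hp 2 n h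
      · rw [← h]; exact hf
    | succ k ih =>
      intro n hn
      rw [pow_succ', Module.End.mul_apply, app, ih n hn]
      simp [cs, cc, kf]
  have hH : ∀ k : ℕ, ∀ n, 0 < n → ρ 1 n ((ρ 2 (-1) ^ k) y) = 0 := by
    intro k
    induction k with
    | zero => exact fun n hn => hp 1 n hn
    | succ k ih =>
      intro n hn
      rw [pow_succ', Module.End.mul_apply, app, ih n hn, br12, hF k _ (by omega)]
      simp [cc, kf]
  have hE : ∀ k : ℕ, ∀ n, 1 < n → ρ 0 n ((ρ 2 (-1) ^ k) y) = 0 := by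
    intro k
    induction k with
    | zero => exact fun n hn => hp 0 n (by omega)
    | succ k ih =>
      intro n hn
      have h1 : cc m 0 n 2 (-1) = 0 := by unfold cc; rw [if_neg (by omega)]
      rw [pow_succ', Module.End.mul_apply, app, ih n hn, br02, hH k _ (by omega), h1]
      simp
  intro i n hn
  rcases fin3 i with rfl | rfl | rfl
  · rcases (show n = 1 ∨ 1 < n by omega) with rfl | h
    · obtain ⟨μ, rfl⟩ : ∃ μ, m = μ + 1 := ⟨m - 1, by omega⟩
      refine (hL.sing (ρ 2 (-1)) (ρ 0 1) _ y μ rfl ?_ (hp 0 1 one_pos) ?_).1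
      · rw [hρ 2 (-1) 0 1, br20]
        have h1 := hρ 1 0 2 (-1)
        rw [br12] at h1
        have h2 : cs 2 0 = -1 := by simp [cs]
        have h3 : cs 1 2 = -2 := by simp [cs]
        have h4 : cc (μ + 1) 1 0 2 (-1) = 0 := by simp [cc]
        rw [h3, h4, zero_smul, add_zero, zero_add] at h1
        rw [h2, neg_add_cancel]
        simp only [add_mul, mul_add, smul_mul_assoc, mul_smul_comm, one_mul, mul_one]
        rw [add_sub_add_right_eq_sub, ← smul_sub, h1, smul_smul]
        norm_num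
      · rw [hρ 2 (-1) 0 1, br20]
        have h2 : cs 2 0 = -1 := by simp [cs]
        have h4 : cc (μ + 1) 2 (-1) 0 1 = -((μ : ℂ) + 1) := by simp [cc, kf]
        rw [h2, h4, neg_add_cancel]
        simp only [LinearMap.add_apply, LinearMap.smul_apply, Module.End.one_apply, hh]
        module
    · exact hE m n h
  · exact hH m n hn
  · exact hF m n hn.le

/-- The second set of relations. -/
def S2' (m : ℕ) : Set T := S1 m ∪ {(ro m 2 (-1) ^ m) e}

theorem S2_stab {m : ℕ} (hm : 1 ≤ m) (hL : SL) :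
    ∀ i n, ∀ w ∈ cl (S2' m), ro m i n w ∈ cl (S2' m) := by
  intro i n w hw
  refine cl_stab m ?_ i n hw
  rintro s (hs | hs) l q hq
  · exact S1_stab m Set.subset_union_left s hs l q hq
  · rw [hs]
    have hW : ∀ i n, ∀ w ∈ cl (S1 m), ro m i n w ∈ cl (S1 m) := fun i n w hw =>
      cl_stab m (S1_stab m subset_rfl) i n hw
    have hS : S1 m ⊆ cl (S1 m) := fun s hs => cl_sub hs
    have h := sing hm hL (rq m _ hW) ((cl (S1 m)).mkQ e) (rq_rep m _ hW hS)
      (fun i n hn => by rw [rq_mk, ro_e m i hn, map_zero])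
      (by rw [rq_mk]; exact mk_zero.2 (hS (Or.inr (Or.inl rfl))))
      (by
        rw [rq_mk, eq_neg_iff_add_eq_zero, ← map_add]
        exact mk_zero.2 (hS (Or.inr (Or.inr (Or.inl rfl))))) l q hq
    rw [rq_pow, rq_mk, mk_zero] at h
    exact cl_le (fun s hs => cl_sub (Or.inl hs)) (fun p w hw => cl_L p hw) h

end TI

open TI in
theorem sI {m : ℕ} (hm : 1 ≤ m) (hL : SL) (hA : SA m) : SI m := by
  intro N _ _ a n₀ ha hf hh he hi
  have hW := S2_stab hm hL
  have hS : S1 m ⊆ cl (S2' m) := fun s hs => cl_sub (Or.inl hs)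
  have hrep := rq_rep m _ hW hS
  have hlw : LW m (rq m _ hW) ((cl (S2' m)).mkQ e) :=
    { pos := fun i n hn => by rw [rq_mk, ro_e m i hn, map_zero]
      f0 := by rw [rq_mk]; exact mk_zero.2 (hS (Or.inr (Or.inl rfl)))
      h0 := by
        rw [rq_mk, eq_neg_iff_add_eq_zero, ← map_add]
        exact mk_zero.2 (hS (Or.inr (Or.inr (Or.inl rfl))))
      e2 := by rw [rq_mk, rq_mk]; exact mk_zero.2 (hS (Or.inr (Or.inr (Or.inr rfl))))
      int := by rw [rq_pow]; exact mk_zero.2 (cl_sub (Or.inr rfl)) }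
  obtain ⟨hhw, hy⟩ := hL.lw_hw m _ _ hrep hlw
  obtain ⟨θ, hθ0, hθ⟩ := hA.lift _ _ hrep hhw
  let π : T →ₗ[ℂ] N := Finsupp.linearCombination ℂ fun w => w.foldr (fun p x => a p.1 p.2 x) n₀
  have hπL : ∀ p w, π (L p w) = a p.1 p.2 (π w) := by
    intro p w
    have : π ∘ₗ L p = a p.1 p.2 ∘ₗ π := ext_T fun w => by
      simp [π, L_single]
    exact LinearMap.congr_fun this w
  have hπe : π e = n₀ := by simp [π, e]
  have hπr : ∀ i (k : ℕ) w, π (ro m i (-(k : ℤ)) w) = a i k (π w) := fun i k w => by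
    rw [ro_neg, hπL]
  have hπ0 : ∀ i w, π (ro m i 0 w) = a i 0 (π w) := fun i w => hπr i 0 w
  have hker : cl (S2' m) ≤ LinearMap.ker π := by
    refine cl_le ?_ fun p w hw => ?_
    · rintro s ((⟨i, n, j, k, w, rfl⟩ | rfl | rfl | rfl) | hs)
      · show π _ = 0
        rcases le_or_gt n 0 with hn | hn
        · rcases le_or_gt k 0 with hk | hk
          · obtain ⟨n, rfl⟩ : ∃ n' : ℕ, n = -(n' : ℤ) := ⟨(-n).toNat, by omega⟩
            obtain ⟨k, rfl⟩ : ∃ k' : ℕ, k = -(k' : ℤ) := ⟨(-k).toNat, by omega⟩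
            have h1 : cc m i (-(n : ℤ)) j (-(k : ℤ)) = 0 := by
              unfold cc
              split_ifs with h
              · have : n = 0 := by omega
                simp [this]
              · rfl
            have h2 : -(n : ℤ) + -(k : ℤ) = -((n + k : ℕ) : ℤ) := by push_cast; ring
            have h3 := LinearMap.congr_fun (ha i n j k) (π w)
            unfold df
            rw [h1, h2]
            simp only [LinearMap.sub_apply, Module.End.mul_apply, LinearMap.add_apply,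
              LinearMap.smul_apply, zero_smul, add_zero, map_sub, map_smul, hπr] at h3 ⊢
            exact sub_eq_zero.2 h3
          · rw [df_np m i j hn hk, map_zero]
        · rw [df_p m i j k hn, map_zero]
      · show π _ = 0
        rw [hπ0, hπe, hf]
      · show π _ = 0
        rw [map_add, hπ0, hπe, hh, neg_add_cancel]
      · show π _ = 0
        rw [hπ0, hπ0, hπe, he]
      · show π _ = 0
        rw [hs]
        have : ∀ k : ℕ, π ((ro m 2 (-1) ^ k) e) = (a 2 1 ^ k) n₀ := by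
          intro k
          induction k with
          | zero => exact hπe
          | succ k ih =>
            rw [pow_succ', pow_succ', Module.End.mul_apply, Module.End.mul_apply, ← ih]
            exact hπr 2 1 _
        rw [this, hi]
    · show π _ = 0
      have : π w = 0 := hw
      rw [hπL, this, map_zero]
  refine ⟨(cl (S2' m)).liftQ π hker ∘ₗ θ, ?_, fun i k x => ?_⟩
  · rw [LinearMap.comp_apply, hθ, hθ0, hy]
    exact hπe
  · rw [LinearMap.comp_apply, LinearMap.comp_apply, hθ]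
    obtain ⟨w, hw⟩ := (cl (S2' m)).mkQ_surjective (θ x)
    rw [← hw, rq_mk]
    exact hπr i k w

end Pool.Agent.MP_cb8d3a_ag.H42
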