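import Pool.Agent.MP_cb8d3a_ag.H42.TDefs

noncomputable section

open scoped BigOperators

namespace Pool.Agent.MP_cb8d3a_ag.H42
open Pool.Agent.MP_cb8d3a_ag.S2

namespace TL

variable {Y : Type} [AddCommGroup Y] [Module ℂ Y]

theorem sw {A B C : Module.End ℂ Y} (h : A * B - B * A = C) (x : Y) : A (B x) = B (A x) + C x := by
  rw [← h]
  simp

theorem pw (A : Module.End ℂ Y) (k : ℕ) (x : Y) : (A ^ (k + 1)) x = A ((A ^ k) x) := by
  rw [pow_succ', Module.End.mul_apply]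

theorem pw' (A : Module.End ℂ Y) (k : ℕ) (x : Y) : (A ^ (k + 1)) x = (A ^ k) (A x) := by
  rw [pow_succ, Module.End.mul_apply]

theorem hE {E H : Module.End ℂ Y} (h : H * E - E * H = (2 : ℂ) • E) {s : Y} {w : ℂ}
    (hs : H s = w • s) (k : ℕ) : H ((E ^ k) s) = (w + 2 * k) • (E ^ k) s := by
  induction k with
  | zero => simpa using hs
  | succ k ih =>
    rw [pw, sw h, ih, map_smul, LinearMap.smul_apply]
    push_cast
    module

theorem fE {E F H : Module.End ℂ Y} (h1 : E * F - F * E = H) (h : H * E - E * H = (2 : ℂ) • E)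
    {s : Y} {w : ℂ} (hf : F s = 0) (hs : H s = w • s) (k : ℕ) :
    F ((E ^ (k + 1)) s) = (-((k + 1) * (w + k))) • (E ^ k) s := by
  have h2 : ∀ x, F (E x) = E (F x) - H x := fun x => by rw [sw h1 x, add_sub_cancel_right]
  induction k with
  | zero => simp [h2, hf, hs]
  | succ k ih =>
    rw [pw E (k + 1), h2, ih, hE h hs, map_smul, pw E k]
    push_cast
    module

theorem two {A B B₁ B₂ : Module.End ℂ Y} (h1 : A * B - B * A = B₁) (h2 : A * B₁ - B₁ * A = B₂)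
    (h3 : A * B₂ = B₂ * A) (x : Y) (k : ℕ) :
    (A ^ (k + 2)) (B x) = B ((A ^ (k + 2)) x) + ((k : ℂ) + 2) • B₁ ((A ^ (k + 1)) x) +
      (((k : ℂ) + 2) * (k + 1) / 2) • B₂ ((A ^ k) x) := by
  have h4 : ∀ x, A (B₂ x) = B₂ (A x) := fun x => congrArg (fun T : Module.End ℂ Y => T x) h3
  induction k with
  | zero =>
    simp only [pw, pow_zero, Module.End.one_apply, sw h1, map_add, sw h2]
    push_cast
    module
  | succ k ih =>
    rw [pw A (k + 2), ih, map_add, map_add, map_smul, map_smul, sw h1, sw h2, h4, ← pw, ← pw, ← pw]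
    push_cast
    module

theorem nil {A B B₁ B₂ : Module.End ℂ Y} (h1 : A * B - B * A = B₁) (h2 : A * B₁ - B₁ * A = B₂)
    (h3 : A * B₂ = B₂ * A) (N : ℕ) (x : Y) (h : (A ^ N) x = 0) : (A ^ (N + 2)) (B x) = 0 := by
  rw [two h1 h2 h3, pw, pw, h]
  simp

theorem chain {A B B₁ F : Module.End ℂ Y} (h1 : A * B - B * A = B₁)
    (h2 : A * B₁ - B₁ * A = (-2 : ℂ) • F) (h3 : A * F = F * A) {y : Y} (hy : A (A y) = 0) (r : ℕ) :
    (A ^ (2 * r + 2)) ((B ^ r) y) = 0 ∧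
      ∃ c : ℂ, c ≠ 0 ∧ (A ^ (2 * r + 1)) ((B ^ r) y) = c • (F ^ r) (A y) := by
  have h4 : A * (-2 : ℂ) • F = ((-2 : ℂ) • F) * A := by rw [mul_smul_comm, smul_mul_assoc, h3]
  induction r with
  | zero => exact ⟨by simpa [pw] using hy, 1, one_ne_zero, by simp⟩
  | succ r ih =>
    obtain ⟨i1, c, hc, i2⟩ := ih
    rw [pw B]
    refine ⟨nil h1 h2 h4 (2 * r + 2) _ i1,
      (((2 * r + 1 : ℕ) : ℂ) + 2) * ((2 * r + 1 : ℕ) + 1) / 2 * (-2) * c, ?_, ?_⟩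
    · have a1 : ((2 * r + 1 : ℕ) : ℂ) + 2 ≠ 0 := by exact_mod_cast Nat.succ_ne_zero (2 * r + 2)
      have a2 : ((2 * r + 1 : ℕ) : ℂ) + 1 ≠ 0 := by exact_mod_cast Nat.succ_ne_zero (2 * r + 1)
      exact mul_ne_zero (mul_ne_zero (div_ne_zero (mul_ne_zero a1 a2) two_ne_zero) (by norm_num)) hc
    · refine (two h1 h2 h4 _ (2 * r + 1)).trans ?_
      rw [pw A (2 * r + 2), i1, i2, pw F]
      simp only [map_zero, smul_zero, zero_add, LinearMap.smul_apply, map_smul, smul_smul]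
      module

theorem hw_lw (m : ℕ) (ρ : Fin 3 → ℤ → Module.End ℂ Y) (y : Y) (h : IsRep m ρ) (hy : HW m ρ y) :
    LW m ρ (ρ 2 0 y) ∧ ρ 0 0 (ρ 2 0 y) = y := by
  have e1 : ρ 0 0 (ρ 2 0 y) = y := by
    have b : br 0 2 = 1 := rfl
    rw [sw (h 0 0 2 0), hy.e0, b]
    simp [cs, cc, hy.h0]
  refine ⟨⟨fun i n hn => ?_, hy.f2, ?_, by rw [e1, hy.e0], ?_⟩, e1⟩
  · rw [sw (h i n 2 0), hy.pos i n hn]
    simp [cc, hn.ne', hy.pos _ n hn]
  · have b : br 1 2 = 2 := rfl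
    rw [sw (h 1 0 2 0), hy.h0, b]
    simp [cs, cc]
    module
  · have b1 : br 2 0 = 1 := rfl
    have b2 : br 2 1 = 2 := rfl
    have h1 : ρ 2 0 * ρ 0 (-1) - ρ 0 (-1) * ρ 2 0 = -ρ 1 (-1) := by
      rw [h 2 0 0 (-1), b1]
      simp [cs, cc]
    have h2 : ρ 2 0 * ρ 1 (-1) - ρ 1 (-1) * ρ 2 0 = (2 : ℂ) • ρ 2 (-1) := by
      rw [h 2 0 1 (-1), b2]
      simp [cs, cc]
    have h3 : ρ 2 0 * ρ 2 (-1) = ρ 2 (-1) * ρ 2 0 := by
      rw [← sub_eq_zero, h 2 0 2 (-1)]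
      simp [cs, cc]
    have h4 : ρ 2 0 * -ρ 1 (-1) - -ρ 1 (-1) * ρ 2 0 = (-2 : ℂ) • ρ 2 (-1) := by
      rw [neg_smul, ← h2, mul_neg, neg_mul]
      abel
    obtain ⟨-, c, hc, e⟩ := chain h1 h4 h3 hy.f2 m
    rw [hy.int, map_zero] at e
    exact (smul_eq_zero.1 e.symm).resolve_left hc

/-- The sign of the Chevalley involution. -/
def sg : Fin 3 → ℂ := ![1, -1, 1]

theorem flip {m : ℕ} {ρ : Fin 3 → ℤ → Module.End ℂ Y} (h : IsRep m ρ) :
    IsRep m fun i n => sg i • ρ i.rev n := by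
  intro i n j k
  have e1 : br i.rev j.rev = (br i j).rev := by
    fin_cases i <;> fin_cases j <;> rfl
  have e2 : sg i * sg j * cs i.rev j.rev = cs i j * sg (br i j) := by
    fin_cases i <;> fin_cases j <;> simp [sg, cs, br, Fin.rev]
  have e3 : sg i * sg j * cc m i.rev n j.rev k = cc m i n j k := by
    fin_cases i <;> fin_cases j <;> simp [sg, cc, kf, Fin.rev]
  have e4 : sg i • ρ i.rev n * sg j • ρ j.rev k - sg j • ρ j.rev k * sg i • ρ i.rev n =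
      (sg i * sg j) • (ρ i.rev n * ρ j.rev k - ρ j.rev k * ρ i.rev n) := by
    simp only [smul_mul_assoc, mul_smul_comm]
    module
  beta_reduce
  rw [e4, h, smul_add, smul_smul, smul_smul, smul_smul, e2, e3, e1]

theorem lw_hw (m : ℕ) (ρ : Fin 3 → ℤ → Module.End ℂ Y) (y : Y) (h : IsRep m ρ) (hy : LW m ρ y) :
    HW m ρ (ρ 0 0 y) ∧ ρ 2 0 (ρ 0 0 y) = y := by
  have r0 : ∀ n, sg 0 • ρ (0 : Fin 3).rev n = ρ 2 n := fun n => one_smul _ _
  have r1 : ∀ n, sg 1 • ρ (1 : Fin 3).rev n = -ρ 1 n := fun n => neg_one_smul _ _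
  have r2 : ∀ n, sg 2 • ρ (2 : Fin 3).rev n = ρ 0 n := fun n => one_smul _ _
  obtain ⟨⟨p1, p2, p3, p4, p5⟩, e⟩ := hw_lw m _ y (flip h)
    ⟨fun i n hn => by rw [LinearMap.smul_apply, hy.pos _ n hn, smul_zero],
      by rw [r0]; exact hy.f0, by rw [r1, LinearMap.neg_apply, hy.h0, neg_neg],
      by rw [r2]; exact hy.e2, by rw [r0]; exact hy.int⟩
  simp only [r0, r1, r2] at p1 p2 p3 p4 p5 e
  refine ⟨⟨fun i n hn => ?_, p2, neg_injective p3, p4, p5⟩, e⟩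
  have q := p1 i.rev n hn
  rw [Fin.rev_rev, LinearMap.smul_apply] at q
  refine (smul_eq_zero.1 q).resolve_left ?_
  fin_cases i <;> simp [sg, Fin.rev]

end TL

theorem sL : SL where
  sl2 E F H s μ h1 h2 hf hs k := by
    induction k with
    | zero => exact ⟨1, one_ne_zero, by simp⟩
    | succ k ih =>
      obtain ⟨c, hc, e⟩ := ih
      refine ⟨-((k + 1) * (μ + 1 + k)) * c, mul_ne_zero (neg_ne_zero.2 (mul_ne_zero ?_ ?_)) hc, ?_⟩
      · exact_mod_cast Nat.succ_ne_zero k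
      · exact_mod_cast (by omega : μ + 1 + k ≠ 0)
      · rw [TL.pw' F, TL.fE h1 h2 hf hs, map_smul, e, smul_smul]
  sing E F H y μ h1 h2 hf hs := by
    rw [TL.fE h1 h2 hf hs, TL.hE h2 hs]
    refine ⟨by simp, ?_⟩
    push_cast
    module
  nil _ _ _ _ h1 h2 h3 := TL.nil h1 h2 h3
  hw_lw := TL.hw_lw
  lw_hw := TL.lw_hw

end Pool.Agent.MP_cb8d3a_ag.H42
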