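import Pool.Agent.MP_cb8d3a_ag.H42.TDefs

noncomputable section

open scoped BigOperators

namespace Pool.Agent.MP_cb8d3a_ag.H42
open Pool.Agent.MP_cb8d3a_ag.S2

namespace TS

section
variable {ι M : Type} [dι : DecidableEq ι] [AddCommGroup M] [Module ℂ M]

omit dι in
theorem ml_add (a b : ML ι M) (v : ι → M) : (a + b) v = a v + b v := rfl

omit dι in
theorem ml_sub (a b : ML ι M) (v : ι → M) : (a - b) v = a v - b v := rfl

omit dι in
theorem ml_neg (a : ML ι M) (v : ι → M) : (-a) v = - a v := rfl

omit dι in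
theorem ml_smul (c : ℂ) (a : ML ι M) (v : ι → M) : (c • a) v = c • a v := rfl

omit dι in
theorem ml_sum {α : Type} (T : Finset α) (a : α → ML ι M) (v : ι → M) :
    (∑ p ∈ T, a p) v = ∑ p ∈ T, a p v := sum_apply _ _ _

theorem slot_pow (p : ι) (A : Module.End ℂ M) (n : ℕ) : slot p (A ^ n) = slot p A ^ n := by
  induction n with
  | zero => simp [slot_one]
  | succ n ih => rw [pow_succ, slot_mul, ih, pow_succ']

theorem sum_comm' (T : Finset ι) (A B : ι → Module.End ℂ M) :
    (∑ p ∈ T, slot p (A p)) * (∑ p ∈ T, slot p (B p)) -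
      (∑ p ∈ T, slot p (B p)) * (∑ p ∈ T, slot p (A p)) =
      - ∑ p ∈ T, slot p (A p * B p - B p * A p) := by
  rw [Finset.sum_mul_sum, Finset.sum_mul_sum, Finset.sum_comm (s := T) (t := T)
    (f := fun p q => slot p (B p) * slot q (A q)), ← Finset.sum_sub_distrib,
    ← Finset.sum_neg_distrib]
  refine Finset.sum_congr rfl fun p hp => ?_
  rw [← Finset.sum_sub_distrib, Finset.sum_eq_single p]
  · rw [slot_sub, slot_mul, slot_mul]; abel
  · intro q _ hq
    rw [slot_comm (Ne.symm hq), sub_self]
  · intro h; exact absurd hp h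

theorem nil_sum (v : ι → M) (B : ι → Module.End ℂ M) (hB : ∀ p, ∃ N : ℕ, (B p ^ N) (v p) = 0)
    (T : Finset ι) :
    ∃ k : ℕ, ∀ Ψ : ML ι M, (((∑ p ∈ T, slot p (B p)) ^ k) Ψ) v = 0 := by
  induction T using Finset.induction_on with
  | empty => exact ⟨1, fun Ψ => by simp⟩
  | insert q T hq ih =>
    obtain ⟨k, hk⟩ := ih
    obtain ⟨N, hN⟩ := hB q
    refine ⟨N + k, fun Ψ => ?_⟩
    rw [Finset.sum_insert hq]
    have hc : Commute (slot q (B q)) (∑ p ∈ T, slot p (B p)) :=
      Commute.sum_right _ _ _ fun p hp => slot_comm (ne_of_mem_of_not_mem hp hq).symm _ _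
    have hX : ∀ Ψ' : ML ι M, ((slot q (B q) ^ N) Ψ') v = 0 := by
      intro Ψ'
      rw [← slot_pow, slot_apply, hN, MultilinearMap.map_update_zero]
    rw [hc.add_pow, LinearMap.sum_apply, ml_sum]
    refine Finset.sum_eq_zero fun a ha => ?_
    by_cases h : N ≤ a
    · obtain ⟨b, rfl⟩ := Nat.exists_eq_add_of_le h
      rw [pow_add, mul_assoc, mul_assoc, Module.End.mul_apply]
      exact hX _
    · have h2 : N + k - a = k + (N - a) := by omega
      rw [(hc.pow_pow a (N + k - a)).eq, h2, pow_add, mul_assoc, mul_assoc, Module.End.mul_apply]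
      exact hk _

/-- the functional that feeds the slot `j` into `L` and puts `x₀` there -/
def ext (j : ι) (x₀ : M) (L : M →ₗ[ℂ] ML ι M) : ML ι M where
  toFun v := L (v j) (Function.update v j x₀)
  map_update_add' := by
    intro inst v p x y
    have : inst = dι := Subsingleton.elim _ _
    subst this
    by_cases h : p = j
    · subst h; simp
    · simp only [Function.update_of_ne (Ne.symm h), Function.update_comm h,
        MultilinearMap.map_update_add]
  map_update_smul' := by
    intro inst v p c x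
    have : inst = dι := Subsingleton.elim _ _
    subst this
    by_cases h : p = j
    · subst h; simp
    · simp only [Function.update_of_ne (Ne.symm h), Function.update_comm h,
        MultilinearMap.map_update_smul]

theorem ext_apply (j : ι) (x₀ : M) (L : M →ₗ[ℂ] ML ι M) (v : ι → M) :
    ext j x₀ L v = L (v j) (Function.update v j x₀) := rfl

theorem slot_ext {j p : ι} (h : p ≠ j) (x₀ : M) (L : M →ₗ[ℂ] ML ι M) (B : Module.End ℂ M)
    (v : ι → M) :
    slot p B (ext j x₀ L) v = slot p B (L (v j)) (Function.update v j x₀) := by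
  rw [slot_apply, slot_apply, ext_apply, Function.update_of_ne (Ne.symm h),
    Function.update_of_ne h, Function.update_comm h]

end

variable {z : Fin 11 → ℂ} {m : ℕ} {C : Fin 3 → LS →ₗ[ℂ] Module.End ℂ (HM m)}
  {E : Option (Fin 11) → RatFunc ℂ →ₐ[ℂ] LS}

/-- the sum of the currents over the points of `T` -/
def P (C : Fin 3 → LS →ₗ[ℂ] Module.End ℂ (HM m)) (E : Option (Fin 11) → RatFunc ℂ →ₐ[ℂ] LS)
    (T : Finset (Option (Fin 11))) (i : Fin 3) (φ : RatFunc ℂ) :
    Module.End ℂ (ML (Option (Fin 11)) (HM m)) :=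
  ∑ p ∈ T, slot p (C i (E p φ))

theorem P_apply (T : Finset (Option (Fin 11))) (i : Fin 3) (φ : RatFunc ℂ)
    (Ψ : ML (Option (Fin 11)) (HM m)) (v : Option (Fin 11) → HM m) :
    P C E T i φ Ψ v = ∑ p ∈ T, Ψ (Function.update v p (C i (E p φ) (v p))) := by
  unfold P
  rw [LinearMap.sum_apply, ml_sum]
  exact Finset.sum_congr rfl fun p _ => slot_apply _ _ _ _

theorem P_add (T : Finset (Option (Fin 11))) (i : Fin 3) (φ ψ : RatFunc ℂ) :
    P C E T i (φ + ψ) = P C E T i φ + P C E T i ψ := by
  unfold P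
  simp only [map_add, slot_add, Finset.sum_add_distrib]

theorem P_smul (T : Finset (Option (Fin 11))) (i : Fin 3) (c : ℂ) (φ : RatFunc ℂ) :
    P C E T i (c • φ) = c • P C E T i φ := by
  unfold P
  rw [Finset.smul_sum]
  refine Finset.sum_congr rfl fun p _ => ?_
  have h1 : E p (c • φ) = c • E p φ := by
    rw [Algebra.smul_def, map_mul, AlgHom.commutes, LaurentSeries.algebraMap_apply,
      HahnSeries.C_mul_eq_smul]
  rw [h1, map_smul, slot_smul]

theorem P_zero (T : Finset (Option (Fin 11))) (i : Fin 3) : P C E T i 0 = 0 := by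
  unfold P
  simp only [map_zero, slot_zero, Finset.sum_const_zero]

theorem P_comm (hC : SC m C) (T : Finset (Option (Fin 11))) (i k : Fin 3) (φ ψ : RatFunc ℂ) :
    P C E T i φ * P C E T k ψ - P C E T k ψ * P C E T i φ =
      - (cs i k • P C E T (br i k) (φ * ψ)) -
        (kf i k * m * ∑ p ∈ T, rs (E p φ) (E p ψ)) • 1 := by
  unfold P
  rw [sum_comm']
  simp only [hC.comm, slot_add, slot_smul, slot_one, Finset.sum_add_distrib, ← Finset.smul_sum,
    map_mul, Finset.mul_sum, Finset.sum_smul]
  abel

theorem vac_mem : vac m ∈ Vs m := Submodule.subset_span (Set.mem_insert _ _)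

theorem f_mem : op m 2 0 (vac m) ∈ Vs m :=
  Submodule.subset_span (Set.mem_insert_of_mem _ rfl)

theorem adm_cur (hA : SA m) (hC : SC m C) (hF : SF z E) {T : Finset (Fin 11)} {φ : RatFunc ℂ}
    (hφ : φ ∈ OS z T) {v : Option (Fin 11) → HM m} (hv : Adm m T v) (i : Fin 3)
    (p : Option (Fin 11)) : Adm m T (Function.update v p (C i (E p φ) (v p))) := by
  intro q hq
  by_cases h : some q = p
  · subst h
    rw [Function.update_self, hC.onV i _ (hF.reg T φ hφ q hq) _ (hv q hq)]
    exact Submodule.smul_mem _ _ (hA.Vzero _ (hv q hq) i)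
  · rw [Function.update_of_ne h]
    exact hv q hq

theorem adm_ins {S : Finset (Fin 11)} {j : Fin 11} {v : Option (Fin 11) → HM m}
    (hv : Adm m (insert j S) v) (x : HM m) :
    Adm m (insert j S) (Function.update v (some j) x) := by
  intro q hq
  have h : some q ≠ some j := fun h => hq (by
    rw [Option.some.inj h]; exact Finset.mem_insert_self _ _)
  rw [Function.update_of_ne h]
  exact hv q hq

theorem adm_of_ins {S : Finset (Fin 11)} {j : Fin 11} {v : Option (Fin 11) → HM m}
    (hv : Adm m (insert j S) v) (hj : v (some j) ∈ Vs m) : Adm m S v := by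
  intro q hq
  by_cases h : q = j
  · subst h; exact hj
  · exact hv q fun h' => (Finset.mem_insert.1 h').elim h hq

theorem adm_mono {S : Finset (Fin 11)} (j : Fin 11) {v : Option (Fin 11) → HM m}
    (hv : Adm m S v) : Adm m (insert j S) v :=
  fun q hq => hv q fun h => hq (Finset.mem_insert_of_mem h)

theorem P_van (hA : SA m) (hC : SC m C) (hF : SF z E) {T : Finset (Fin 11)} {φ : RatFunc ℂ}
    (hφ : φ ∈ OS z T) (U : Finset (Option (Fin 11))) (i : Fin 3)
    {Ψ : ML (Option (Fin 11)) (HM m)} (hΨ : ∀ v, Adm m T v → Ψ v = 0)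
    {v : Option (Fin 11) → HM m} (hv : Adm m T v) : P C E U i φ Ψ v = 0 := by
  rw [P_apply]
  exact Finset.sum_eq_zero fun p _ => hΨ _ (adm_cur hA hC hF hφ hv i p)

/-- the action of the modes at the new point, through the other points -/
def A (z : Fin 11 → ℂ) (C : Fin 3 → LS →ₗ[ℂ] Module.End ℂ (HM m))
    (E : Option (Fin 11) → RatFunc ℂ →ₐ[ℂ] LS) (j : Fin 11) (i : Fin 3) (n : ℤ) :
    Module.End ℂ (ML (Option (Fin 11)) (HM m)) :=
  - P C E (Finset.univ.erase (some j)) i (pw z j n)

theorem P_split (hC : SC m C) (hF : SF z E) (j : Fin 11) (i : Fin 3) (n : ℤ) :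
    slot (some j) (op m i n) = P C E Finset.univ i (pw z j n) + A z C E j i n := by
  unfold A P
  rw [← Finset.add_sum_erase _ _ (Finset.mem_univ (some j)), hF.pw_self, hC.single]
  abel

theorem pw_univ (hF : SF z E) (j : Fin 11) (n : ℤ) : pw z j n ∈ OS z Finset.univ :=
  hF.pw_mem _ _ _ (Finset.mem_univ _)

theorem A_rep (hC : SC m C) (hF : SF z E) (j : Fin 11) : IsRep m (A z C E j) := by
  intro i n k l
  have h := hF.resid _ (pw_univ hF j n) _ (pw_univ hF j l)
  rw [← Finset.add_sum_erase _ _ (Finset.mem_univ (some j)), hF.pw_self, hF.pw_self,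
    hF.rs_single] at h
  have h' : ∑ p ∈ Finset.univ.erase (some j), rs (E p (pw z j n)) (E p (pw z j l)) =
      - (if n + l = 0 then (n : ℂ) else 0) := by linear_combination h
  have h2 := P_comm (E := E) hC (Finset.univ.erase (some j)) i k (pw z j n) (pw z j l)
  have h3 : kf i k * m * (- (if n + l = 0 then (n : ℂ) else 0)) = - cc m i n k l := by
    unfold cc
    split_ifs <;> ring
  rw [h', ← hF.pw_add, h3] at h2
  refine LinearMap.ext fun Ψ => ?_
  have h4 := LinearMap.congr_fun h2 Ψ
  unfold A
  simp only [LinearMap.sub_apply, LinearMap.add_apply, LinearMap.smul_apply, Module.End.mul_apply,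
    Module.End.one_apply, LinearMap.neg_apply, map_neg, neg_neg] at h4 ⊢
  rw [h4]
  module

theorem A_slot (j : Fin 11) (i : Fin 3) (n : ℤ) (B : Module.End ℂ (HM m)) :
    A z C E j i n * slot (some j) B = slot (some j) B * A z C E j i n := by
  have h : P C E (Finset.univ.erase (some j)) i (pw z j n) * slot (some j) B =
      slot (some j) B * P C E (Finset.univ.erase (some j)) i (pw z j n) := by
    unfold P
    rw [Finset.sum_mul, Finset.mul_sum]
    exact Finset.sum_congr rfl fun p hp => slot_comm (Finset.ne_of_mem_erase hp) _ _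
  refine LinearMap.ext fun Ψ => ?_
  have h4 := LinearMap.congr_fun h Ψ
  unfold A
  simp only [Module.End.mul_apply, LinearMap.neg_apply, map_neg] at h4 ⊢
  rw [h4]

/-- functionals that vanish when the new slot holds the highest weight vector -/
def Z (m : ℕ) (S : Finset (Fin 11)) (j : Fin 11) : Submodule ℂ (ML (Option (Fin 11)) (HM m)) where
  carrier := {Ψ | ∀ v, Adm m (insert j S) v → v (some j) = vac m → Ψ v = 0}
  add_mem' ha hb v h1 h2 := by
    rw [ml_add, ha v h1 h2, hb v h1 h2, add_zero]
  zero_mem' _ _ _ := rfl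
  smul_mem' c _ ha v h1 h2 := by
    rw [ml_smul, ha v h1 h2, smul_zero]

theorem A_Z (hA : SA m) (hC : SC m C) (hF : SF z E) (S : Finset (Fin 11)) (j : Fin 11)
    (i : Fin 3) (n : ℤ) : Z m S j ≤ (Z m S j).comap (A z C E j i n) := by
  intro Ψ hΨ v h1 h2
  unfold A
  rw [LinearMap.neg_apply, ml_neg, P_apply, neg_eq_zero]
  refine Finset.sum_eq_zero fun p hp => hΨ _
    (adm_cur hA hC hF (hF.pw_mem _ _ _ (Finset.mem_insert_self _ _)) h1 i p) ?_
  rw [Function.update_of_ne (Finset.ne_of_mem_erase hp).symm, h2]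

/-- the action on the quotient -/
def rho (hA : SA m) (hC : SC m C) (hF : SF z E) (S : Finset (Fin 11)) (j : Fin 11)
    (i : Fin 3) (n : ℤ) : Module.End ℂ (ML (Option (Fin 11)) (HM m) ⧸ Z m S j) :=
  (Z m S j).mapQ (Z m S j) (A z C E j i n) (A_Z hA hC hF S j i n)

theorem rho_mk (hA : SA m) (hC : SC m C) (hF : SF z E) (S : Finset (Fin 11)) (j : Fin 11)
    (i : Fin 3) (n : ℤ) (Ψ : ML (Option (Fin 11)) (HM m)) :
    rho hA hC hF S j i n (Submodule.Quotient.mk Ψ) = Submodule.Quotient.mk (A z C E j i n Ψ) :=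
  rfl

theorem rho_pow (hA : SA m) (hC : SC m C) (hF : SF z E) (S : Finset (Fin 11)) (j : Fin 11)
    (i : Fin 3) (n : ℤ) (k : ℕ) (Ψ : ML (Option (Fin 11)) (HM m)) :
    (rho hA hC hF S j i n ^ k) (Submodule.Quotient.mk Ψ) =
      Submodule.Quotient.mk ((A z C E j i n ^ k) Ψ) := by
  induction k with
  | zero => rfl
  | succ k ih => rw [pow_succ', pow_succ', Module.End.mul_apply, ih, rho_mk, Module.End.mul_apply]

theorem rho_rep (hA : SA m) (hC : SC m C) (hF : SF z E) (S : Finset (Fin 11)) (j : Fin 11) :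
    IsRep m (rho hA hC hF S j) := by
  intro i n k l
  refine LinearMap.ext fun y => ?_
  obtain ⟨Ψ, rfl⟩ := Submodule.Quotient.mk_surjective _ y
  have h := LinearMap.congr_fun (A_rep hC hF j i n k l) Ψ
  simp only [LinearMap.sub_apply, LinearMap.add_apply, LinearMap.smul_apply, Module.End.mul_apply,
    Module.End.one_apply, rho_mk] at h ⊢
  rw [← Submodule.Quotient.mk_sub, h, Submodule.Quotient.mk_add, Submodule.Quotient.mk_smul,
    Submodule.Quotient.mk_smul]

theorem A_nat (hC : SC m C) (hF : SF z E) {S : Finset (Fin 11)} (j : Fin 11)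
    {Φ : ML (Option (Fin 11)) (HM m)} (hΦ : Inv z m C E S Φ) (i : Fin 3) {n : ℤ} (hn : 0 ≤ n)
    {v : Option (Fin 11) → HM m} (hv : Adm m S v) :
    A z C E j i n Φ v = Φ (Function.update v (some j) (op m i n (v (some j)))) := by
  obtain ⟨n, rfl⟩ := Int.eq_ofNat_of_zero_le hn
  have h : P C E Finset.univ i (pw z j n) Φ v = 0 := hΦ i _ (hF.pw_nat S j n) v hv
  rw [← slot_apply, P_split hC hF, LinearMap.add_apply, ml_add, h, zero_add]

theorem rho_hw (hm : 1 ≤ m) (hL : SL) (hA : SA m) (hC : SC m C) (hF : SF z E)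
    {S : Finset (Fin 11)} (j : Fin 11)
    {Φ : ML (Option (Fin 11)) (HM m)} (hΦ : Inv z m C E S Φ) :
    HW m (rho hA hC hF S j) (Submodule.Quotient.mk Φ) := by
  have adm : ∀ v : Option (Fin 11) → HM m, Adm m (insert j S) v → v (some j) = vac m →
      Adm m S v := fun v h1 h2 => adm_of_ins h1 (h2 ▸ vac_mem)
  have pos : ∀ i n, 0 < n → rho hA hC hF S j i n (Submodule.Quotient.mk Φ) = 0 := by
    intro i n hn
    rw [rho_mk, Submodule.Quotient.mk_eq_zero]
    intro v h1 h2
    rw [A_nat hC hF j hΦ i hn.le (adm v h1 h2), h2, hA.hw.pos i n hn,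
      MultilinearMap.map_update_zero]
  have h0 : rho hA hC hF S j 1 0 (Submodule.Quotient.mk Φ) = Submodule.Quotient.mk Φ := by
    rw [rho_mk, Submodule.Quotient.eq]
    intro v h1 h2
    rw [ml_sub, A_nat hC hF j hΦ 1 le_rfl (adm v h1 h2), h2, hA.hw.h0, ← h2,
      Function.update_eq_self, sub_self]
  refine ⟨pos, ?_, h0, ?_, ?_⟩
  · rw [rho_mk, Submodule.Quotient.mk_eq_zero]
    intro v h1 h2
    rw [A_nat hC hF j hΦ 0 le_rfl (adm v h1 h2), h2, hA.hw.e0, MultilinearMap.map_update_zero]
  · rw [rho_mk, rho_mk, Submodule.Quotient.mk_eq_zero]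
    intro v h1 h2
    have e1 : A z C E j 2 0 Φ =
        (A z C E j 2 0 Φ - slot (some j) (op m 2 0) Φ) + slot (some j) (op m 2 0) Φ := by abel
    have e2 : A z C E j 2 0 (A z C E j 2 0 Φ - slot (some j) (op m 2 0) Φ) v = 0 := by
      unfold A
      rw [LinearMap.neg_apply, ml_neg, neg_eq_zero]
      refine P_van hA hC hF (T := S) (by exact_mod_cast hF.pw_nat S j 0) _ _ ?_ (adm v h1 h2)
      intro w hw
      have := A_nat hC hF j hΦ 2 le_rfl hw
      unfold A at this
      rw [ml_sub, this, slot_apply, sub_self]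
    have e3 : A z C E j 2 0 (slot (some j) (op m 2 0) Φ) v = 0 := by
      rw [← Module.End.mul_apply, A_slot, Module.End.mul_apply, slot_apply, h2,
        A_nat hC hF j hΦ 2 le_rfl (adm_of_ins (adm_ins h1 _) (by
          rw [Function.update_self]; exact f_mem)),
        Function.update_self, hA.hw.f2, MultilinearMap.map_update_zero]
    rw [e1, map_add, ml_add, e2, e3, add_zero]
  · obtain ⟨μ, rfl⟩ : ∃ μ, m = μ + 1 := ⟨m - 1, by omega⟩
    have hR := rho_rep hA hC hF S j
    have r1 : rho hA hC hF S j 0 (-1) * rho hA hC hF S j 2 1 -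
        rho hA hC hF S j 2 1 * rho hA hC hF S j 0 (-1) =
        rho hA hC hF S j 1 0 - ((μ : ℂ) + 1) • 1 := by
      rw [hR 0 (-1) 2 1]
      have a1 : cs 0 2 = 1 := rfl
      have a2 : br 0 2 = 1 := by decide
      have a3 : cc (μ + 1) 0 (-1) 2 1 = -((μ : ℂ) + 1) := by
        have : kf 0 2 = 1 := rfl
        simp [cc, this]
      have a4 : (-1 + 1 : ℤ) = 0 := rfl
      rw [a1, a2, a3, a4, one_smul]
      refine LinearMap.ext fun y => ?_
      simp only [LinearMap.sub_apply, LinearMap.add_apply, LinearMap.smul_apply]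
      module
    have r2 : (rho hA hC hF S j 1 0 - ((μ : ℂ) + 1) • 1) * rho hA hC hF S j 0 (-1) -
        rho hA hC hF S j 0 (-1) * (rho hA hC hF S j 1 0 - ((μ : ℂ) + 1) • 1) =
        (2 : ℂ) • rho hA hC hF S j 0 (-1) := by
      have h := hR 1 0 0 (-1)
      have a1 : cs 1 0 = 2 := rfl
      have a2 : br 1 0 = 0 := by decide
      have a3 : cc (μ + 1) 1 0 0 (-1) = 0 := by simp [cc]
      rw [a1, a2, a3, zero_smul, add_zero, zero_add] at h
      rw [← h, sub_mul, mul_sub, smul_mul_assoc, mul_smul_comm, one_mul, mul_one]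
      abel
    obtain ⟨s1, s2⟩ := hL.sing _ _ _ (Submodule.Quotient.mk Φ) μ r1 r2 (pos 2 1 one_pos) (by
      rw [LinearMap.sub_apply, h0, LinearMap.smul_apply, Module.End.one_apply]
      module)
    have s3 := hL.sl2 _ _ _ _ (μ + 1) r1 r2 s1 (by
      rw [s2]; congr 1; push_cast; ring)
    rw [rho_pow] at s3 ⊢
    rw [Submodule.Quotient.mk_eq_zero]
    intro v h1 h2
    obtain ⟨k, hk⟩ := nil_sum v (fun p => C 2 (- E p (pw z j 1)))
      (fun p => hC.nil _ (fun n hn => by
        rw [HahnSeries.coeff_neg, hF.pw_one j p n hn, neg_zero]) _) (Finset.univ.erase (some j))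
    obtain ⟨c, hc, h⟩ := s3 k
    rw [rho_pow, rho_pow, ← Submodule.Quotient.mk_smul, Submodule.Quotient.eq] at h
    have h' := h v h1 h2
    have e : ∀ Ψ : ML (Option (Fin 11)) (HM (μ + 1)), (A z C E j 2 1 ^ k) Ψ v = 0 := by
      intro Ψ
      have e' : A z C E j 2 1 =
          ∑ p ∈ Finset.univ.erase (some j), slot p (C 2 (- E p (pw z j 1))) := by
        unfold A P
        rw [← Finset.sum_neg_distrib]
        refine Finset.sum_congr rfl fun p _ => ?_
        rw [map_neg, ← zero_sub (C 2 _), slot_sub, slot_zero, zero_sub]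
      rw [e']
      exact hk _
    rw [ml_sub, e, zero_sub, neg_eq_zero, ml_smul,
      smul_eq_mul] at h'
    exact (mul_eq_zero.1 h').resolve_left hc

end TS

open TS in
theorem sS {z : Fin 11 → ℂ} {m : ℕ} {C : Fin 3 → LS →ₗ[ℂ] Module.End ℂ (HM m)}
    {E : Option (Fin 11) → RatFunc ℂ →ₐ[ℂ] LS} (hm : 1 ≤ m) (hL : SL) (hA : SA m) (hC : SC m C)
    (hF : SF z E) : SS z m C E := by
  intro S j _ Φ hΦ
  obtain ⟨θ, hθ0, hθ⟩ := hA.lift _ _ (rho_rep hA hC hF S j) (rho_hw hm hL hA hC hF j hΦ)
  obtain ⟨σ, hσ⟩ := LinearMap.exists_rightInverse_of_surjective (Z m S j).mkQ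
    (Submodule.range_mkQ _)
  have hσ' : ∀ y, Submodule.Quotient.mk (σ y) = y := fun y => LinearMap.congr_fun hσ y
  set Φ' := TS.ext (some j) (vac m) (σ ∘ₗ θ) with hΦ'
  have key : ∀ v, Adm m (insert j S) v → ∀ Ψ, Submodule.Quotient.mk Ψ = θ (v (some j)) →
      Φ' v = Ψ (Function.update v (some j) (vac m)) := by
    intro v hv Ψ hΨ
    have h : σ (θ (v (some j))) - Ψ ∈ Z m S j := by
      rw [← Submodule.Quotient.eq, hσ', hΨ]
    have h' := h _ (adm_ins hv (vac m)) (Function.update_self _ _ _)
    rw [ml_sub, sub_eq_zero] at h'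
    exact h'
  have one : ∀ i n v, Adm m (insert j S) v → P C E Finset.univ i (pw z j n) Φ' v = 0 := by
    intro i n v hv
    have h1 : slot (some j) (op m i n) Φ' v =
        A z C E j i n (σ (θ (v (some j)))) (Function.update v (some j) (vac m)) := by
      rw [slot_apply, key _ (adm_ins hv _) (A z C E j i n (σ (θ (v (some j))))),
        Function.update_idem]
      rw [Function.update_self, hθ, ← rho_mk hA hC hF, hσ']
    have h2 : A z C E j i n Φ' v =
        A z C E j i n (σ (θ (v (some j)))) (Function.update v (some j) (vac m)) := by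
      unfold A P
      simp only [LinearMap.neg_apply, ml_neg, LinearMap.sum_apply,
        ml_sum]
      congr 1
      exact Finset.sum_congr rfl fun p hp => slot_ext (Finset.ne_of_mem_erase hp) _ _ _ _
    rw [P_split hC hF, LinearMap.add_apply, ml_add, h2] at h1
    exact add_eq_right.1 h1
  have two : ∀ v, Adm m S v → Φ' v = Φ v := by
    intro v hv
    by_cases hj : j ∈ S
    · exact absurd hj ‹_›
    have hv' := adm_mono j hv
    have h : ∀ x ∈ Vs m, Φ' (Function.update v (some j) x) = Φ (Function.update v (some j) x) := by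
      intro x hx
      unfold Vs at hx
      induction hx using Submodule.span_induction with
      | mem x hx =>
        rcases hx with rfl | rfl
        · rw [key _ (adm_ins hv' _) Φ (by rw [Function.update_self, hθ0]), Function.update_idem]
        · rw [key _ (adm_ins hv' _) (A z C E j 2 0 Φ)
            (by rw [Function.update_self, hθ, hθ0, rho_mk]), Function.update_idem,
            A_nat hC hF j hΦ 2 le_rfl (adm_of_ins (adm_ins hv' _) (by
              rw [Function.update_self]; exact vac_mem)),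
            Function.update_self, Function.update_idem]
      | zero => rw [MultilinearMap.map_update_zero, MultilinearMap.map_update_zero]
      | add x y _ _ hx hy =>
        rw [MultilinearMap.map_update_add, MultilinearMap.map_update_add, hx, hy]
      | smul c x _ hx =>
        rw [MultilinearMap.map_update_smul, MultilinearMap.map_update_smul, hx]
    have := h _ (hv j hj)
    rwa [Function.update_eq_self] at this
  refine ⟨Φ', ?_, two⟩
  let W : Submodule ℂ (HM m) :=
    { carrier := {x | ∀ i, ∀ φ ∈ OS z (insert j S), ∀ v, Adm m (insert j S) v →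
        P C E Finset.univ i φ Φ' (Function.update v (some j) x) = 0}
      add_mem' := fun ha hb i φ hφ v hv => by
        rw [MultilinearMap.map_update_add, ha i φ hφ v hv, hb i φ hφ v hv, add_zero]
      zero_mem' := fun i φ _ v _ => MultilinearMap.map_update_zero _ _ _
      smul_mem' := fun c x ha i φ hφ v hv => by
        rw [MultilinearMap.map_update_smul, ha i φ hφ v hv, smul_zero] }
  have hW : ∀ x, x ∈ W := by
    refine hA.ind W ?_ ?_
    · intro i φ hφ v hv
      obtain ⟨φ₁, h₁, φ₂, h₂, rfl⟩ := Submodule.mem_sup.1 (hF.split S j φ hφ)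
      have hw : Adm m S (Function.update v (some j) (vac m)) :=
        adm_of_ins (adm_ins hv _) (by rw [Function.update_self]; exact vac_mem)
      have e1 : P C E Finset.univ i φ₁ Φ' (Function.update v (some j) (vac m)) = 0 := by
        have h0 : P C E Finset.univ i φ₁ Φ (Function.update v (some j) (vac m)) = 0 :=
          hΦ i φ₁ h₁ _ hw
        rw [← h0, P_apply, P_apply]
        exact Finset.sum_congr rfl fun p _ => two _ (adm_cur hA hC hF h₁ hw i p)
      have e2 : P C E Finset.univ i φ₂ Φ' (Function.update v (some j) (vac m)) = 0 := by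
        clear hφ
        induction h₂ using Submodule.span_induction with
        | mem x hx =>
          obtain ⟨n, rfl⟩ := hx
          exact one i n _ (adm_ins hv _)
        | zero => rw [P_zero]; rfl
        | add x y _ _ hx hy =>
          rw [P_add, LinearMap.add_apply, ml_add, hx, hy, add_zero]
        | smul c x _ hx =>
          rw [P_smul, LinearMap.smul_apply, ml_smul, hx, smul_zero]
      rw [P_add, LinearMap.add_apply, ml_add, e1, e2, add_zero]
    · intro k n x hx i φ hφ v hv
      have hψ : pw z j n ∈ OS z (insert j S) := hF.pw_mem _ _ _ (Finset.mem_insert_self _ _)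
      have e0 : P C E Finset.univ i φ Φ' (Function.update v (some j) (op m k n x)) =
          slot (some j) (op m k n) (P C E Finset.univ i φ Φ') (Function.update v (some j) x) := by
        rw [slot_apply, Function.update_self, Function.update_idem]
      have e1 : A z C E j k n (P C E Finset.univ i φ Φ') (Function.update v (some j) x) = 0 := by
        unfold A
        rw [LinearMap.neg_apply, ml_neg, P_apply, neg_eq_zero]
        refine Finset.sum_eq_zero fun p hp => ?_
        have hp' := Finset.ne_of_mem_erase hp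
        rw [Function.update_of_ne hp', Function.update_comm hp'.symm]
        exact hx i φ hφ _ (adm_cur hA hC hF hψ hv k p)
      have e2 : P C E Finset.univ k (pw z j n) (P C E Finset.univ i φ Φ')
          (Function.update v (some j) x) = 0 := by
        have h := P_comm (E := E) hC Finset.univ k i (pw z j n) φ
        rw [hF.resid _ (pw_univ hF j n) _ (hF.mono _ _ (Finset.subset_univ _) hφ), mul_zero,
          zero_smul, sub_zero, sub_eq_iff_eq_add] at h
        rw [← Module.End.mul_apply, h, LinearMap.add_apply, ml_add,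
          LinearMap.neg_apply, ml_neg, LinearMap.smul_apply,
          ml_smul, hx _ _ (Subalgebra.mul_mem _ hψ hφ) v hv, smul_zero, neg_zero,
          zero_add, Module.End.mul_apply]
        exact P_van hA hC hF hφ _ _ (one k n) (adm_ins hv _)
      rw [e0, P_split hC hF, LinearMap.add_apply, ml_add, e1, e2, add_zero]
  intro i φ hφ v hv
  have := hW (v (some j)) i φ hφ v hv
  rwa [Function.update_eq_self] at this

end Pool.Agent.MP_cb8d3a_ag.H42
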