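import Pool.Agent.MP_cb8d3a_ag.H42.TDefs

noncomputable section

open scoped BigOperators

namespace Pool.Agent.MP_cb8d3a_ag.H42
open Pool.Agent.MP_cb8d3a_ag.S2

namespace TZ

open Finset Function

/-- The standard representation. -/
def mat (i : Fin 3) : Module.End ℂ (Fin 2 → ℂ) :=
  Matrix.toLin' (![!![0, 1; 0, 0], !![1, 0; 0, -1], !![0, 0; 1, 0]] i)

theorem mat_comm (i j : Fin 3) : mat i * mat j - mat j * mat i = cs i j • mat (br i j) := by
  simp only [mat, Module.End.mul_eq_comp, ← Matrix.toLin'_mul, ← map_sub, ← map_smul]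
  congr 1
  ext a b
  fin_cases i <;> fin_cases j <;> fin_cases a <;> fin_cases b <;> simp [cs, br] <;> norm_num

theorem e0 : mat 0 ![1, 0] = 0 := by ext a; fin_cases a <;> simp [mat]
theorem e1 : mat 0 ![0, 1] = ![1, 0] := by ext a; fin_cases a <;> simp [mat]
theorem h0 : mat 1 ![1, 0] = ![1, 0] := by ext a; fin_cases a <;> simp [mat]
theorem h1 : mat 1 ![0, 1] = -![0, 1] := by ext a; fin_cases a <;> simp [mat]
theorem f0 : mat 2 ![1, 0] = ![0, 1] := by ext a; fin_cases a <;> simp [mat]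
theorem f1 : mat 2 ![0, 1] = 0 := by ext a; fin_cases a <;> simp [mat]

theorem exists_pr {m : ℕ} (hm : 1 ≤ m) (hL : SL) (hA : SA m) (hI : SI m) :
    ∃ pr : HM m →ₗ[ℂ] Fin 2 → ℂ, pr (vac m) = ![1, 0] ∧ pr (op m 2 0 (vac m)) = ![0, 1] ∧
      ∀ i x, pr (op m i 0 x) = mat i (pr x) := by
  obtain ⟨pr, p1, p2⟩ := hI (fun i k => if k = 0 then mat i else 0) ![0, 1]
    (fun i k j l => by
      by_cases hk : k = 0 <;> by_cases hl : l = 0 <;> simp [hk, hl, mat_comm])
    f1 h1 (by simp only [if_true, e1, e0]) (by simp [zero_pow (Nat.ne_of_gt hm)])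
  have p3 : ∀ i x, pr (op m i 0 x) = mat i (pr x) := fun i x => p2 i 0 x
  exact ⟨pr, by rw [← (hL.hw_lw m _ _ hA.rep hA.hw).2, p3, p1, e1], p1, p3⟩

section
variable {ι : Type} [Fintype ι] [DecidableEq ι]

/-- The basis tuples. -/
def bt (I : Finset (ι)) (l : ι) : Fin 2 → ℂ := if l ∈ I then ![0, 1] else ![1, 0]

theorem bt_ext {Ψ : ML (ι) (Fin 2 → ℂ)} (h : ∀ I, Ψ (bt I) = 0) : Ψ = 0 := by
  refine Module.Basis.ext_multilinear (fun _ => Pi.basisFun ℂ (Fin 2)) fun v => ?_
  refine Eq.trans (congrArg Ψ (funext fun l => ?_)) (h (univ.filter (v · = 1)))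
  have : ∀ a : Fin 2, Pi.basisFun ℂ (Fin 2) a = if a = 1 then ![0, 1] else ![1, 0] := fun a => by
    ext b
    fin_cases a <;> fin_cases b <;> simp
  simp only [this, bt, mem_filter, mem_univ, true_and]

theorem exists_n (ψ : Finset ι → ℂ) : ∃ n : ML (ι) (Fin 2 → ℂ), ∀ I, n (bt I) = ψ I := by
  refine ⟨∑ J, ψ J • (MultilinearMap.mkPiAlgebra ℂ (ι) ℂ).compLinearMap
    fun l => LinearMap.proj (if l ∈ J then 1 else 0), fun I => ?_⟩
  simp only [_root_.sum_apply, _root_.smul_apply,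
    MultilinearMap.compLinearMap_apply, MultilinearMap.mkPiAlgebra_apply, LinearMap.proj_apply]
  rw [sum_eq_single_of_mem I (mem_univ _) fun J _ hJ => ?_, prod_eq_one fun l _ => ?_, smul_eq_mul,
    mul_one]
  · by_cases h : l ∈ I <;> simp [bt, h]
  · obtain ⟨l, hl⟩ := not_forall.1 fun h => hJ (Finset.ext h)
    rw [prod_eq_zero (mem_univ l), smul_zero]
    by_cases h : l ∈ I
    · simp [bt, h, show l ∉ J from fun h' => hl (iff_of_true h' h)]
    · simp [bt, h, show l ∈ J from not_not.1 fun h' => hl (iff_of_false h' h)]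

omit [Fintype ι] in
theorem up_ins (I : Finset (ι)) (l : ι) :
    update (bt I) l ![0, 1] = bt (insert l I) := by
  funext p
  by_cases h : p = l <;> simp [bt, h]

omit [Fintype ι] in
theorem up_er (I : Finset (ι)) (l : ι) :
    update (bt I) l ![1, 0] = bt (I.erase l) := by
  funext p
  by_cases h : p = l <;> simp [bt, h]

end

/-- The transposed action. -/
def A (z : Fin 11 → ℂ) (i : Fin 3) (k : ℕ) : Module.End ℂ (ML (Fin 11) (Fin 2 → ℂ)) :=
  ∑ l, z l ^ k • slot l (mat i)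

variable {z : Fin 11 → ℂ}

theorem A_apply (i : Fin 3) (k : ℕ) (Ψ : ML (Fin 11) (Fin 2 → ℂ)) (w : Fin 11 → Fin 2 → ℂ) :
    A z i k Ψ w = ∑ l, z l ^ k * Ψ (update w l (mat i (w l))) := by
  simp only [A, LinearMap.sum_apply, LinearMap.smul_apply, _root_.sum_apply,
    _root_.smul_apply, slot_apply, smul_eq_mul]

theorem neg_comm {N : Type} [AddCommGroup N] [Module ℂ N] {B C D : Module.End ℂ N} {c : ℂ}
    (h : C * B = B * C + c • D) : -B * -C - -C * -B = c • -D := by
  rw [neg_mul_neg, neg_mul_neg, h, smul_neg, sub_add_cancel_left]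

theorem A_comm (i : Fin 3) (k : ℕ) (j : Fin 3) (l : ℕ) :
    A z j l * A z i k = A z i k * A z j l + cs i j • A z (br i j) (k + l) := by
  rw [A, A, A, sum_mul_sum, sum_mul_sum, sum_comm, smul_sum, ← sum_add_distrib]
  refine sum_congr rfl fun p _ => ?_
  rw [← add_sum_erase _ _ (mem_univ p), ← add_sum_erase _ _ (mem_univ p), add_right_comm]
  refine congrArg₂ (· + ·) ?_ (sum_congr rfl fun q hq => ?_)
  · rw [smul_mul_smul_comm, smul_mul_smul_comm, ← slot_mul, ← slot_mul, mul_comm (z p ^ l),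
      ← pow_add, smul_comm (cs i j), ← slot_smul p (cs i j), ← mat_comm, ← smul_add, ← slot_add,
      add_sub_cancel]
  · rw [smul_mul_smul_comm, smul_mul_smul_comm, slot_comm (ne_of_mem_erase hq), mul_comm (z p ^ k)]

theorem A_f (k : ℕ) (Ψ : ML (Fin 11) (Fin 2 → ℂ)) :
    (fun I => A z 2 k Ψ (bt I)) = St.lower (fun l => z l ^ k) fun I => Ψ (bt I) := by
  funext I
  rw [A_apply, St.lower, ← sum_add_sum_compl I, sum_eq_zero fun l hl => ?_, zero_add]
  · exact sum_congr rfl fun l hl => by rw [bt, if_neg (mem_compl.1 hl), f0, up_ins]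
  · rw [bt, if_pos hl, f1, MultilinearMap.map_update_zero, mul_zero]

theorem A_h (Ψ : ML (Fin 11) (Fin 2 → ℂ)) (I : Finset (Fin 11)) :
    A z 1 0 Ψ (bt I) = (11 - 2 * I.card) * Ψ (bt I) := by
  rw [A_apply, ← sum_add_sum_compl I, sum_congr rfl (g := fun _ => -Ψ (bt I)) fun l hl => ?_,
    sum_congr rfl (s₁ := Iᶜ) (g := fun _ => Ψ (bt I)) fun l hl => ?_, sum_const, sum_const,
    card_compl, nsmul_eq_mul, nsmul_eq_mul, Nat.cast_sub (card_le_univ I), Fintype.card_fin]
  · push_cast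
    ring
  · have e : mat 1 (bt I l) = bt I l := by rw [bt, if_neg (mem_compl.1 hl), h0]
    rw [e, update_eq_self, pow_zero, one_mul]
  · have e : mat 1 (bt I l) = -bt I l := by rw [bt, if_pos hl, h1]
    rw [e, MultilinearMap.map_update_neg, update_eq_self, pow_zero, one_mul]

theorem A_e (Ψ : ML (Fin 11) (Fin 2 → ℂ)) (j : ℕ) :
    ∀ I : Finset (Fin 11), I.card < j → (A z 0 0 ^ j) Ψ (bt I) = 0 := by
  induction j with
  | zero => exact fun I h => absurd h (Nat.not_lt_zero _)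
  | succ j ih =>
    intro I hI
    rw [pow_succ', Module.End.mul_apply, A_apply]
    refine sum_eq_zero fun l _ => ?_
    by_cases h : l ∈ I
    · rw [bt, if_pos h, e1, up_er, ih _ (by
        have := card_erase_add_one h
        omega), mul_zero]
    · rw [bt, if_neg h, e0, MultilinearMap.map_update_zero, mul_zero]

theorem A_nil (Ψ : ML (Fin 11) (Fin 2 → ℂ)) {j : ℕ} (h : 11 < j) : (A z 0 0 ^ j) Ψ = 0 :=
  bt_ext fun I => A_e Ψ j I (((card_le_univ I).trans_eq (Fintype.card_fin 11)).trans_lt h)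

theorem sq_zero (hL : SL) {N : Type} [AddCommGroup N] [Module ℂ N] {B C D : Module.End ℂ N} {n : N}
    (c1 : B * C - C * B = D) (c2 : D * B - B * D = (2 : ℂ) • B) (a2 : C n = 0) (a1 : D n = -n)
    (h : ∃ j, ∀ k, j < k → (B ^ k) n = 0) : B (B n) = 0 := by
  obtain ⟨k, h⟩ := h
  replace h := h (k + (1 + 1)) (by omega)
  obtain ⟨s1, s2⟩ := hL.sing _ _ _ n 1 c1 c2 a2 (by rw [a1]; simp)
  obtain ⟨c, c0, hc⟩ := hL.sl2 _ _ _ _ 2 c1 c2 s1 (by rw [s2]; norm_num) k
  rw [pow_add, Module.End.mul_apply] at h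
  rw [h, map_zero] at hc
  exact (smul_eq_zero.1 hc.symm).resolve_left c0

theorem neg_pow_zero {N : Type} [AddCommGroup N] [Module ℂ N] {B : Module.End ℂ N} {n : N} {k : ℕ}
    (h : (B ^ k) n = 0) : ((-B) ^ k) n = 0 := by
  rw [neg_pow, Module.End.mul_apply, h, map_zero]

theorem exists_th {m : ℕ} (hm : 1 ≤ m) (hL : SL) (hI : SI m) {ψ : St.Dual}
    (h : St.Block z m ψ) : ∃ Θ : HM m →ₗ[ℂ] ML (Fin 11) (Fin 2 → ℂ),
      (∀ I, Θ (op m 2 0 (vac m)) (bt I) = ψ I) ∧
      ∀ i (k : ℕ) x, Θ (op m i (-k) x) = -A z i k (Θ x) := by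
  obtain ⟨n, hn⟩ := exists_n ψ
  have hn' : (fun I => n (bt I)) = ψ := funext hn
  have a2 : (-A z 2 0) n = 0 := neg_eq_zero.2 (bt_ext fun I =>
    (congrFun (A_f 0 n) I).trans (by simp only [hn', pow_zero, h.1.2, Pi.zero_apply]))
  have a1 : (-A z 1 0) n = -n := congrArg Neg.neg (sub_eq_zero.1 (bt_ext fun I => by
    rw [_root_.sub_apply, A_h, hn]
    by_cases hc : I.card = 5
    · rw [hc]
      norm_num
    · rw [h.1.1 I hc, mul_zero, sub_zero]))
  have a0 := sq_zero hL ((neg_comm (A_comm 0 0 2 0)).trans (one_smul _ _))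
    (neg_comm (A_comm 1 0 0 0)) a2 a1 ⟨11, fun k hk => neg_pow_zero (A_nil n hk)⟩
  have a3 : ∀ k, (fun I => (A z 2 1 ^ k) n (bt I)) = (St.lower z)^[k] ψ := fun k => by
    induction k with
    | zero => exact hn'
    | succ k ih =>
      rw [pow_succ', iterate_succ_apply', ← ih]
      exact (A_f 1 ((A z 2 1 ^ k) n)).trans (by simp only [pow_one])
  obtain ⟨Θ, t1, t2⟩ := hI (fun i k => -A z i k) n (fun i k j l => neg_comm (A_comm i k j l)) a2 a1 a0
    (neg_pow_zero (bt_ext fun I => (congrFun (a3 m) I).trans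
      (congrFun (Nat.sub_add_cancel hm ▸ h.2) I)))
  exact ⟨Θ, t1 ▸ hn, t2⟩

theorem up_some {ι M M' : Type} [DecidableEq ι] [DecidableEq (Option ι)] (f : M → M')
    (v : Option ι → M) (p : ι) (x : M) :
    (fun l => f (update v (some p) x (some l))) = update (fun l => f (v (some l))) p (f x) := by
  funext l
  by_cases h : l = p <;> simp [h]

theorem exists_phi {ι M M' : Type} [DecidableEq ι] [AddCommGroup M] [Module ℂ M] [AddCommGroup M']
    [Module ℂ M'] (Θ : M →ₗ[ℂ] ML ι M') (pr : M →ₗ[ℂ] M') :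
    ∃ Φ : ML (Option ι) M, ∀ v, Φ v = Θ (v none) fun l => pr (v (some l)) :=
  ⟨{ toFun := fun v => Θ (v none) fun l => pr (v (some l))
     map_update_add' := fun v p x y => by
       cases p
       · simp
       · simp [up_some]
     map_update_smul' := fun v p c x => by
       cases p
       · simp
       · simp [up_some] }, fun _ => rfl⟩

end TZ

open TZ in
theorem sZ {z : Fin 11 → ℂ} {m : ℕ} {C : Fin 3 → LS →ₗ[ℂ] Module.End ℂ (HM m)}
    {E : Option (Fin 11) → RatFunc ℂ →ₐ[ℂ] LS} (hm : 1 ≤ m) (hL : SL) (hA : SA m) (hC : SC m C)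
    (hF : SF z E) (hI : SI m) : SZ z m C E := by
  intro ψ h
  obtain ⟨pr, p1, p2, p3⟩ := exists_pr hm hL hA hI
  obtain ⟨Θ, t1, t2⟩ := exists_th hm hL hI h
  obtain ⟨Φ, hΦ⟩ := exists_phi Θ pr
  refine ⟨Φ, fun i φ hφ v hv => ?_, fun I => ?_⟩
  · have hφ' := hF.poly φ hφ
    clear hφ
    induction hφ' using Submodule.span_induction with
    | mem φ hφ =>
      obtain ⟨k, rfl⟩ := hφ
      have hk : (RatFunc.X : RatFunc ℂ) ^ k ∈ OS z ∅ :=
        (OS z ∅).pow_mem (Algebra.subset_adjoin (Or.inl rfl)) k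
      have e : ∀ l, slot (some l) (C i (E (some l) (RatFunc.X ^ k))) Φ v = z l ^ k * Θ (v none)
          (Function.update (fun l => pr (v (some l))) l (mat i (pr (v (some l))))) := fun l => by
        rw [slot_apply, hΦ, up_some pr, hC.onV i _ (hF.reg ∅ _ hk l (by simp)) _ (hv l (by simp)),
          hF.X_fin, map_smul, p3, MultilinearMap.map_update_smul, smul_eq_mul,
          Function.update_of_ne (by simp)]
      rw [Fintype.sum_option, LinearMap.add_apply, _root_.add_apply, LinearMap.sum_apply,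
        _root_.sum_apply, Finset.sum_congr rfl fun l _ => e l, slot_apply, hΦ, hF.X_inf,
        hC.single, Function.update_self, t2, _root_.neg_apply, A_apply]
      simp
    | zero => simp [slot_zero]
    | add φ φ' _ _ h1 h2 =>
      simp only [map_add, slot_add, Finset.sum_add_distrib, LinearMap.add_apply,
        _root_.add_apply, h1, h2, add_zero]
    | smul c φ _ h1 =>
      have e : ∀ p, C i (E p (c • φ)) = c • C i (E p φ) := fun p => by
        rw [Algebra.smul_def, map_mul, AlgHom.commutes, ← map_smul]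
        congr 1
        ext n
        simp [HahnSeries.algebraMap_apply']
      simp only [e, slot_smul, ← Finset.smul_sum, LinearMap.smul_apply,
        _root_.smul_apply, h1, smul_zero]
  · rw [hΦ, ← t1]
    refine congrArg (Θ _) (funext fun l => ?_)
    simp only [bt, vec]
    split_ifs
    · exact p2.symm
    · exact p1.symm

end Pool.Agent.MP_cb8d3a_ag.H42
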