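import Pool.Agent.MP_cb8d3a_ag.H42.GP
import Pool.Agent.MP_cb8d3a_ag.H42.GA
import Pool.Agent.MP_cb8d3a_ag.H42.GB
import Pool.Agent.MP_cb8d3a_ag.H42.GT
import Pool.Agent.MP_cb8d3a_ag.H42.GK
import Pool.Agent.MP_cb8d3a_ag.H42.GV
import Pool.Agent.MP_cb8d3a_ag.H42.GR
import Pool.Agent.MP_cb8d3a_ag.H42.TL
import Pool.Agent.MP_cb8d3a_ag.H42.TA
import Pool.Agent.MP_cb8d3a_ag.H42.TC
import Pool.Agent.MP_cb8d3a_ag.H42.TF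
import Pool.Agent.MP_cb8d3a_ag.H42.TI
import Pool.Agent.MP_cb8d3a_ag.H42.TS
import Pool.Agent.MP_cb8d3a_ag.H42.TZ
import Pool.Agent.MP_cb8d3a_ag.H42.TE

/-! Assembly. -/

namespace Pool.Agent.MP_cb8d3a_ag.H42
open Pool.Agent.MP_cb8d3a_ag.S2

theorem final (z : Fin 11 → ℂ) (hz : Function.Injective z) :
    ∃ P : Model, Compactifies z P ∧ ∃ ψ : Dual, ψ ≠ 0 ∧ Block z 3 ψ ∧
      ∀ ψ' ω, Block z 1 ψ' → Img z P true 0 ω → ¬ Img z P false 4 (svForm z (ψ - ψ') - ω) := by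
  have hC := core z hz
  have hG := sGA K
  have hU := sU hz hC.hA
  have hB := sGB hG hU.conf
  obtain ⟨P, h1, ψ, h2, h3, h4⟩ := geo_main hG hB hU (sK hU (sGT hG hU.conf hB))
    (sV hG hC.hA hC.hI hC.hK H90.sCar1 hC.hF) (sR hB hC.hA) hC
  obtain ⟨E, hF⟩ := sF hz
  have a3 : SA 3 := sA (by norm_num)
  have a1 : SA 1 := sA le_rfl
  obtain ⟨C3, c3⟩ := sC sL a3
  obtain ⟨C1, c1⟩ := sC sL a1
  exact ⟨P, h1, ψ, h2, block_of c3 hF (sS (by norm_num) sL a3 c3 hF)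
    (sZ (by norm_num) sL a3 c3 hF (sI (by norm_num) sL a3)) h3,
    fun ψ' ω b1 b2 => h4 ψ' ω (sE sL a1 c1 hF ψ' b1) b2⟩

end Pool.Agent.MP_cb8d3a_ag.H42
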