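import Mathlib

/-! Proof-level definitions and module statements for projective models of a function field. -/

noncomputable section

open scoped BigOperators

namespace Pool.Agent.MP_cb8d3a_ag.H42

section
variable {L : Type} [Field L] [Algebra ℂ L]

/-- `O` is the localisation of `A` at a maximal ideal. -/
def GPt (A O : Subalgebra ℂ L) : Prop :=
  ∃ m : Ideal A, m.IsMaximal ∧ ∀ c : L, c ∈ O ↔ ∃ b : A, b ∉ m ∧ c * b ∈ A

/-- `O` is a local ring with residue map `ev` onto `ℂ`. -/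
structure Loc (O : Subalgebra ℂ L) (ev : L → ℂ) : Prop where
  add : ∀ a ∈ O, ∀ b ∈ O, ev (a + b) = ev a + ev b
  mul : ∀ a ∈ O, ∀ b ∈ O, ev (a * b) = ev a * ev b
  const : ∀ r : ℂ, ev (algebraMap ℂ L r) = r
  inv : ∀ a ∈ O, ev a ≠ 0 → a⁻¹ ∈ O

/-- `c` is a fraction of elements of `B` whose denominator does not vanish. -/
def Frac (B : Subalgebra ℂ L) (ev : L → ℂ) (c : L) : Prop :=
  ∃ b ∈ B, ev b ≠ 0 ∧ c * b ∈ B

end

/-- Points. -/
structure SGA (L : Type) [Field L] [Algebra ℂ L] : Prop where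
  pt_ev : ∀ A O : Subalgebra ℂ L, A.FG → GPt A O →
    ∃ ev, Loc O ev ∧ A ≤ O ∧ ∀ c ∈ O, Frac A ev c
  pt_le : ∀ A O : Subalgebra ℂ L, GPt A O → A ≤ O
  pt_of : ∀ (B O : Subalgebra ℂ L) ev, Loc O ev → B ≤ O → (∀ c ∈ O, Frac B ev c) → GPt B O
  mem_of : ∀ (A : Subalgebra ℂ L) (c : L), (∀ O, GPt A O → c ∈ O) → c ∈ A
  exists_pt : ∀ B R : Subalgebra ℂ L, B ≤ R → IsLocalRing R → ∃ O, GPt B O ∧ O ≤ R
  map : ∀ (A O : Subalgebra ℂ L) (σ : L ≃ₐ[ℂ] L), GPt A O →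
    GPt (A.map (σ : L →ₐ[ℂ] L)) (O.map (σ : L →ₐ[ℂ] L))
  /-- the fractions form a subalgebra in which the elements with nonzero value are units -/
  frac : ∀ (B O : Subalgebra ℂ L) ev, Loc O ev → B ≤ O →
    ∃ B' : Subalgebra ℂ L, (∀ c, c ∈ B' ↔ Frac B ev c) ∧ B ≤ B' ∧ B' ≤ O ∧
      ∀ c ∈ B', ev c ≠ 0 → c⁻¹ ∈ B'
  /-- derivations that preserve `A` preserve its localisations -/
  der : ∀ (A O : Subalgebra ℂ L) (d : L → L), GPt A O →
    (∀ a b, d (a * b) = d a * b + a * d b) → (∀ a ∈ A, d a ∈ A) → ∀ c ∈ O, d c ∈ O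
  ev_zero : ∀ (O : Subalgebra ℂ L) ev, Loc O ev → ev 0 = 0
  ev_one : ∀ (O : Subalgebra ℂ L) ev, Loc O ev → ev 1 = 1
  ev_neg : ∀ (O : Subalgebra ℂ L) ev, Loc O ev → ∀ a ∈ O, ev (-a) = -ev a
  ev_sub : ∀ (O : Subalgebra ℂ L) ev, Loc O ev → ∀ a ∈ O, ∀ b ∈ O, ev (a - b) = ev a - ev b
  ev_unit : ∀ (O : Subalgebra ℂ L) ev, Loc O ev → ∀ a ∈ O, a ≠ 0 → a⁻¹ ∈ O → ev a ≠ 0
  /-- generators of the maximal ideal -/
  max : ∀ (O : Subalgebra ℂ L) ev (u : Fin 5 → O), Loc O ev → (∀ i, ev (u i) = 0) →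
    (∀ c ∈ O, Frac (Algebra.adjoin ℂ (Set.range fun i => (u i : L))) ev c) →
    (Ideal.span (Set.range u)).IsMaximal

/-- The finite marked points. -/
abbrev Pt : Type := Fin 5 ⊕ Fin 11

/-- Triples of distinct points. -/
abbrev Tr : Type := {τ : Fin 3 → Pt // Function.Injective τ}

/-- The fixed points. -/
def Zs : Finset Pt := Finset.univ.image Sum.inr

/-- The order of `x_p - x_q` along the divisor of the set `S`. -/
def exS (S : Finset Pt) (p q : Pt) : ℤ :=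
  (if p ∈ S ∧ q ∈ S then 1 else 0) - (if Zs ⊆ S then 1 else 0)

section
variable {L : Type} [Field L] [Algebra ℂ L]

/-- The side of the triple opposite to its `k`-th point. -/
def ed (x : Pt → L) (τ : Tr) (k : Fin 3) : L := x (τ.1 (k + 1)) - x (τ.1 (k + 2))

/-- The coordinates of the Segre embedding of the product of the planes of all triples. -/
def xJ (x : Pt → L) (J : Tr → Fin 3) : L := ∏ τ, ed x τ (J τ)

/-- The charts. -/
def chartJ (x : Pt → L) (J : Tr → Fin 3) : Subalgebra ℂ L :=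
  Algebra.adjoin ℂ (Set.range fun J' => xJ x J' / xJ x J)

/-- Configurations: distinct points, the fixed ones being constants. -/
structure Conf (z : Fin 11 → ℂ) (x : Pt → L) : Prop where
  hz : Function.Injective z
  hx : Function.Injective x
  fix : ∀ i, x (Sum.inr i) = algebraMap ℂ L (z i)

/-- `A` contains all differences and their inverses. -/
def HasAt (x : Pt → L) (A : Subalgebra ℂ L) : Prop := ∀ p q, x p - x q ∈ A ∧ (x p - x q)⁻¹ ∈ A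

end

/-- The model. -/
structure SGB (L : Type) [Field L] [Algebra ℂ L] (z : Fin 11 → ℂ) (x : Pt → L) : Prop where
  ed_ne : ∀ τ k, ed x τ k ≠ 0
  xJ_ne : ∀ J, xJ x J ≠ 0
  fg : ∀ J, (chartJ x J).FG
  ratio : ∀ J τ k, ed x τ k / ed x τ (J τ) ∈ chartJ x J
  chart_le : ∀ J (A : Subalgebra ℂ L), (∀ τ k, ed x τ k / ed x τ (J τ) ∈ A) → chartJ x J ≤ A
  chart_at : ∀ J A, HasAt x A → chartJ x J ≤ A
  /-- points of `U` are points of every chart -/
  sub : ∀ A : Subalgebra ℂ L, A.FG → HasAt x A → (∀ A', HasAt x A' → A ≤ A') →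
    ∀ O J, GPt A O → GPt (chartJ x J) O
  /-- a point of the intersection of two charts below a local ring -/
  two : ∀ (R : Subalgebra ℂ L) J J', IsLocalRing R → chartJ x J ≤ R → chartJ x J' ≤ R →
    ∃ O, GPt (chartJ x J) O ∧ chartJ x J ≤ O ∧ chartJ x J' ≤ O ∧ O ≤ R
  perm : ∀ (σ : L ≃ₐ[ℂ] L) (π : Equiv.Perm Pt), (∀ p, σ (x p) = x (π p)) →
    ∀ J, ∃ J', (chartJ x J).map (σ : L →ₐ[ℂ] L) = chartJ x J'
  /-- a side of every triple that is minimal for all members of a laminar family -/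
  lam : ∀ 𝓢 : Set (Finset Pt), (∀ S ∈ 𝓢, ∀ T ∈ 𝓢, S ⊆ T ∨ T ⊆ S ∨ Disjoint S T) →
    ∃ J : Tr → Fin 3, ∀ S ∈ 𝓢, ∀ (τ : Tr) k,
      exS S (τ.1 (J τ + 1)) (τ.1 (J τ + 2)) ≤ exS S (τ.1 (k + 1)) (τ.1 (k + 2))

/-- Local coordinates at a point of the model. -/
def SGT (L : Type) [Field L] [Algebra ℂ L] (x : Pt → L) : Prop :=
  ∀ J O, GPt (chartJ x J) O →
    ∃ (u : Fin 5 → O) (D : Finset (Fin 5)) (S : Fin 5 → Finset Pt),
      (Ideal.span (Set.range u)).IsMaximal ∧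
      (∀ i ∈ D, (u i : L) ≠ 0 ∧ S i ≠ Finset.univ ∧ (Zs ⊆ S i ∨ (S i ∩ Zs).card ≤ 1)) ∧
      (∀ p q, p ≠ q → ∃ ε ∈ O, ε⁻¹ ∈ O ∧ x p - x q = ε * ∏ i ∈ D, (u i : L) ^ exS (S i) p q) ∧
      ∀ i ∈ D, ∀ A, HasAt x A → (u i : L)⁻¹ ∈ A

end Pool.Agent.MP_cb8d3a_ag.H42
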