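import Pool.Agent.MP_cb8d3a_ag.H42.Stmt
import Pool.Agent.MP_cb8d3a_ag.H42.GDefs
import Pool.Agent.MP_cb8d3a_ag.H90.Spec

/-! The function field of the statement: translation to the definitions of `H90`, and the
statements of the modules about frames and lattices. -/

noncomputable section

open scoped BigOperators

namespace Pool.Agent.MP_cb8d3a_ag.H42
open Pool.Agent.MP_cb8d3a_ag.S2

theorem e_ofPoly : S2.ofPoly = H90.ofPoly := rfl
theorem e_numer : S2.numer = H90.numer := rfl
theorem e_denom : S2.denom = H90.denom := rfl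

def opS (a b c d e : S2.K) : S2.K := (a * b - c * d) / e ^ 2
def opH (a b c d e : H90.K) : H90.K := (a * b - c * d) / e ^ 2
theorem e_op : opS = opH := rfl

theorem e_pd : S2.pd = H90.pd := by
  funext a c
  have h1 : S2.pd a c = opS (S2.ofPoly (MvPolynomial.pderiv a (S2.numer c)))
    (S2.ofPoly (S2.denom c)) (S2.ofPoly (S2.numer c))
    (S2.ofPoly (MvPolynomial.pderiv a (S2.denom c))) (S2.ofPoly (S2.denom c)) := rfl
  have h2 : H90.pd a c = opH (H90.ofPoly (MvPolynomial.pderiv a (H90.numer c)))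
    (H90.ofPoly (H90.denom c)) (H90.ofPoly (H90.numer c))
    (H90.ofPoly (MvPolynomial.pderiv a (H90.denom c))) (H90.ofPoly (H90.denom c)) := rfl
  rw [h1, e_op, e_ofPoly, e_numer, e_denom]
  exact h2.symm

theorem e_hyp : S2.hyp = H90.hyp := rfl
theorem e_expo : S2.expo = H90.expo := rfl
theorem e_wedge : S2.wedge = H90.wedge := rfl
theorem e_mono : S2.mono = H90.mono := rfl
theorem e_t : S2.t = H90.t := rfl

theorem e_extD : S2.extD = H90.extD := by
  unfold S2.extD H90.extD
  rw [e_pd]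
  rfl

theorem e_dlog : S2.dlog = H90.dlog := by
  unfold S2.dlog H90.dlog
  rw [e_pd]
  rfl

theorem e_eta : S2.eta = H90.eta := by
  unfold S2.eta H90.eta
  rw [e_dlog, e_hyp]
  rfl

theorem e_nabla : S2.nabla = H90.nabla := by
  unfold S2.nabla H90.nabla
  rw [e_extD, e_eta, e_wedge]
  rfl

theorem e_svForm : S2.svForm = H90.svForm := rfl

theorem e_alg (r : ℂ) : algebraMap ℂ S2.K r = algebraMap ℂ H90.K r := rfl

theorem e_OU (z : Fin 11 → ℂ) (c : S2.K) : c ∈ S2.OU z ↔ c ∈ H90.OU z := by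
  constructor
  · intro h
    unfold S2.OU at h
    induction h using Algebra.adjoin_induction with
    | mem x hx => exact Algebra.subset_adjoin hx
    | algebraMap r => exact (H90.OU z).algebraMap_mem r
    | add x y _ _ hx hy => exact (H90.OU z).add_mem hx hy
    | mul x y _ _ hx hy => exact (H90.OU z).mul_mem hx hy
  · intro h
    unfold H90.OU at h
    induction h using Algebra.adjoin_induction with
    | mem x hx => exact Algebra.subset_adjoin (A := S2.K) hx
    | algebraMap r => exact (S2.OU z).algebraMap_mem r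
    | add x y _ _ hx hy => exact (S2.OU z).add_mem hx hy
    | mul x y _ _ hx hy => exact (S2.OU z).mul_mem hx hy

theorem pd_add (a : Fin 5) (x y : K) : pd a (x + y) = pd a x + pd a y := by
  rw [e_pd]; exact H90.pd_add a x y

theorem pd_mul (a : Fin 5) (x y : K) : pd a (x * y) = pd a x * y + x * pd a y := by
  rw [e_pd]; exact H90.pd_mul a x y

theorem pd_const (a : Fin 5) (r : ℂ) : pd a (algebraMap ℂ K r) = 0 := by
  rw [e_pd]; exact H90.pd_algebraMap a r

/-- The coordinates of the finite marked points. -/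
def x2 (z : Fin 11 → ℂ) : Pt → K
  | Sum.inl a => t a
  | Sum.inr i => algebraMap ℂ K (z i)

theorem e_x2 (z : Fin 11 → ℂ) (p : Pt) : x2 z p = H90.pt z p := by cases p <;> rfl

theorem e_av (z : Fin 11 → ℂ) (p q : Pt) : x2 z p - x2 z q = H90.av z (p, q) := by
  rw [e_x2, e_x2]; rfl

/-- The valuation ring of a boundary divisor. -/
def OV (z : Fin 11 → ℂ) (F : H90.Div) : Subalgebra ℂ K where
  carrier := {c | H90.V z F 0 c}
  mul_mem' ha hb := H90.V.mono (H90.V.mul ha hb) (by norm_num)
  add_mem' ha hb := H90.V.add ha hb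
  algebraMap_mem' r := H90.V_const r

theorem mem_OV {z : Fin 11 → ℂ} {F : H90.Div} {c : K} : c ∈ OV z F ↔ H90.V z F 0 c := Iff.rfl

theorem isPt_iff (A O : Subalgebra ℂ K) : IsPt A O ↔ GPt A O := Iff.rfl

/-- The ring `O(U)`. -/
structure SU (z : Fin 11 → ℂ) : Prop where
  conf : Conf z (x2 z)
  hasAt : HasAt (x2 z) (OU z)
  minAt : ∀ A, HasAt (x2 z) A → OU z ≤ A
  fg : (OU z).FG

/-- Frames at the points of the model. -/
def SK (z : Fin 11 → ℂ) : Prop :=
  ∀ J O, GPt (chartJ (x2 z) J) O → ∃ F : Frame z O, ∀ i ∈ F.D, F.a i < 1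

/-- Stalks and orders along the boundary divisors. -/
structure SV (z : Fin 11 → ℂ) : Prop where
  loc : ∀ F, IsLocalRing (OV z F)
  fou : ∀ c O p ω, GPt (OU z) O → ω ∈ stalk z c O p → ∀ I, ω I ∈ O
  fil : ∀ F O p ω, O ≤ OV z F → ω ∈ stalk z false O p → H90.Fil z F (H90.latL F.1) ω
  filE : ∀ O p ω, O ≤ OV z H90.dE → ω ∈ stalk z true O p → H90.Fil z H90.dE 2 ω

/-- Charts that contain the generic points of the divisors of a nested set. -/
def SR (z : Fin 11 → ℂ) : Prop :=
  ∀ τ : Finset H90.Div, (∀ F ∈ τ, ∀ G ∈ τ, H90.Compat F G) →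
    ∃ J, ∀ F ∈ τ, chartJ (x2 z) J ≤ OV z F

end Pool.Agent.MP_cb8d3a_ag.H42
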