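import Pool.Agent.MP_cb8d3a_ag.H42.GP_a
import Pool.Agent.MP_cb8d3a_ag.H42.GS

/-! The model and the Cech cocycles. -/

noncomputable section

open scoped BigOperators

namespace Pool.Agent.MP_cb8d3a_ag.H42
open Pool.Agent.MP_cb8d3a_ag.S2

variable {z : Fin 11 → ℂ}

theorem exists_model (hB : SGB K z (x2 z)) : ∃ (P : Model) (e : Fin P.N ≃ (Tr → Fin 3)),
    ∀ i, P.chart i = chartJ (x2 z) (e i) := by
  obtain ⟨N, ⟨e⟩⟩ := Finite.exists_equiv_fin (Tr → Fin 3)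
  refine ⟨⟨N, fun i => Units.mk0 (xJ (x2 z) (e.symm i)) (hB.xJ_ne _)⟩, e.symm, fun i => ?_⟩
  unfold Model.chart chartJ
  exact congrArg (Algebra.adjoin ℂ)
    (e.symm.surjective.range_comp fun J' => xJ (x2 z) J' / xJ (x2 z) (e.symm i))

section
variable {P : Model} {e : Fin P.N ≃ (Tr → Fin 3)} (he : ∀ i, P.chart i = chartJ (x2 z) (e i))
include he

theorem mem_pts {O : Subalgebra ℂ K} : O ∈ P.pts ↔ ∃ J, GPt (chartJ (x2 z) J) O := by
  constructor
  · rintro ⟨i, hi⟩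
    exact ⟨e i, he i ▸ hi⟩
  · rintro ⟨J, hJ⟩
    refine ⟨e.symm J, ?_⟩
    rw [he, e.apply_symm_apply]
    exact hJ

theorem compactifies (hG : SGA K) (hB : SGB K z (x2 z)) (hU : SU z) (hK : SK z) :
    Compactifies z P := by
  refine ⟨fun O hO => (mem_pts he).2 ⟨0, hB.sub _ hU.fg hU.hasAt hU.minAt O 0 hO⟩,
    fun O hO => ?_, fun σ π hσ O hO => ?_⟩
  · obtain ⟨J, hJ⟩ := (mem_pts he).1 hO
    exact hK J O hJ
  · obtain ⟨J, hJ⟩ := (mem_pts he).1 hO
    obtain ⟨J', hJ'⟩ := hB.perm σ (Equiv.sumCongr π (Equiv.refl _)) (fun p => by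
      cases p with
      | inl a => exact hσ a
      | inr i => exact σ.commutes (z i)) J
    exact (mem_pts he).2 ⟨J', hJ' ▸ hG.map _ _ σ hJ⟩

theorem coc_fou (hG : SGA K) (hB : SGB K z (x2 z)) (hU : SU z) (hV : SV z) {c : Bool} {p : ℕ}
    (X : Cocycle z P c p) (q : ℕ) (s : Fin (q + 1) → Option (Fin P.N)) :
    H90.FOU z (X.x q s) := by
  intro I
  refine (e_OU z _).1 (hG.mem_of _ _ fun O hO => hV.fou c O (5 - q) _ hO (X.sec q s O
    ((mem_pts he).2 ⟨0, hB.sub _ hU.fg hU.hasAt hU.minAt O 0 hO⟩) fun k => ?_) I)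
  refine le_trans ?_ (hG.pt_le _ _ hO)
  cases s k with
  | none => exact le_rfl
  | some i => exact (he i).le.trans (hB.chart_at _ _ hU.hasAt)

theorem coc_stalk (hB : SGB K z (x2 z)) (hV : SV z) {c : Bool} {p : ℕ} (X : Cocycle z P c p)
    (F : H90.Div) (i j : Fin P.N) (hi : P.chart i ≤ OV z F) (hj : P.chart j ≤ OV z F) (q : ℕ)
    (s : Fin (q + 1) → Option (Fin P.N)) (hs : ∀ k, s k = some i ∨ s k = some j) :
    ∃ O ≤ OV z F, X.x q s ∈ stalk z c O (5 - q) := by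
  rw [he] at hi hj
  obtain ⟨O, h1, h2, h3, h4⟩ := hB.two _ _ _ (hV.loc F) hi hj
  refine ⟨O, h4, X.sec q s O ((mem_pts he).2 ⟨_, h1⟩) fun k => ?_⟩
  rcases hs k with h | h <;> rw [h]
  · exact (he i).le.trans h2
  · exact (he j).le.trans h3

theorem exists_ref (hR : SR z) : ∃ Jn : Finset H90.Div → Fin P.N, ∀ k, ∀ τ ∈ H90.Nest k,
    ∀ F ∈ τ, P.chart (Jn τ) ≤ OV z F := by
  have : ∀ τ : Finset H90.Div, ∃ i : Fin P.N, (∀ F ∈ τ, ∀ G ∈ τ, H90.Compat F G) →
      ∀ F ∈ τ, P.chart i ≤ OV z F := by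
    intro τ
    by_cases h : ∀ F ∈ τ, ∀ G ∈ τ, H90.Compat F G
    · obtain ⟨J, hJ⟩ := hR τ h
      exact ⟨e.symm J, fun _ => by rwa [he, e.apply_symm_apply]⟩
    · exact ⟨e.symm 0, fun h' => absurd h' h⟩
  choose Jn hJ using this
  exact ⟨Jn, fun k τ hτ => hJ τ (H90.mem_Nest.1 hτ).1⟩

end

theorem closed0 {P : Model} {c : Bool} {p : ℕ} (X : Cocycle z P c p) (σ τ : Option (Fin P.N)) :
    X.x 0 (fun _ => σ) = X.x 0 (fun _ => τ) - nabla z (X.x 1 ![σ, τ]) := by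
  have h := X.closed 0 ![σ, τ]
  rw [Fin.sum_univ_two] at h
  have e0 : (fun j : Fin 1 => ![σ, τ] ((0 : Fin 2).succAbove j)) = fun _ => τ := by
    ext1 j; fin_cases j; rfl
  have e1 : (fun j : Fin 1 => ![σ, τ] ((1 : Fin 2).succAbove j)) = fun _ => σ := by
    ext1 j; fin_cases j; rfl
  rw [e0, e1] at h
  simp only [Fin.val_zero, pow_zero, one_smul, Fin.val_one, pow_one, neg_smul, zero_add] at h
  linear_combination (exp := 1) -h

theorem nabla_zero : nabla z 0 = 0 := by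
  rw [e_nabla]
  exact (H90.nabla_eq 0).trans (map_zero _)

theorem closed1 {P : Model} {c : Bool} (X : Cocycle z P c 4) (ρ σ τ : Option (Fin P.N)) :
    X.x 1 ![ρ, σ] - X.x 1 ![ρ, τ] = -X.x 1 ![σ, τ] := by
  have h := X.closed 1 ![ρ, σ, τ]
  rw [Fin.sum_univ_three, X.vanish (1 + 1) _ (by norm_num), nabla_zero, smul_zero] at h
  have e0 : (fun j : Fin 2 => ![ρ, σ, τ] ((0 : Fin 3).succAbove j)) = ![σ, τ] := by
    ext1 j; fin_cases j <;> rfl
  have e1 : (fun j : Fin 2 => ![ρ, σ, τ] ((1 : Fin 3).succAbove j)) = ![ρ, τ] := by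
    ext1 j; fin_cases j <;> rfl
  have e2 : (fun j : Fin 2 => ![ρ, σ, τ] ((2 : Fin 3).succAbove j)) = ![ρ, σ] := by
    ext1 j; fin_cases j <;> rfl
  rw [e0, e1, e2] at h
  simp only [Fin.val_zero, pow_zero, one_smul, Fin.val_one, pow_one, neg_smul, Fin.val_two,
    neg_one_sq, add_zero] at h
  linear_combination (exp := 1) h

/-- A form of the statement as a form of the proof. -/
def tH (ω : Form) : H90.Form := ω

/-- Moving the class from `U` to a chart. -/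
theorem move {P : Model} {c : Bool} {p : ℕ} (X : Cocycle z P c p) (γ : Form)
    (τ : Option (Fin P.N)) : tH (X.x 0 (fun _ => none) + nabla z γ) =
      tH (X.x 0 (fun _ => τ)) + H90.nabla z (tH γ - tH (X.x 1 ![none, τ])) := by
  have h : ∀ a b d g : H90.Form, a = b - H90.nabla z d →
      a + H90.nabla z g = b + H90.nabla z (g - d) := by
    intro a b d g h
    rw [h]
    simp only [H90.nabla_eq, map_sub]
    abel
  have h0 := closed0 X none τ
  rw [e_nabla] at h0 ⊢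
  exact h _ _ _ _ h0

section
variable {P : Model} {e : Fin P.N ≃ (Tr → Fin 3)} (he : ∀ i, P.chart i = chartJ (x2 z) (e i))
  (hG : SGA K) (hB : SGB K z (x2 z)) (hU : SU z) (hV : SV z) (hR : SR z) (hC : Core z)
include he hG hB hU hV hR hC

theorem kil_hodge {ω : Form} (h : Img z P false 4 ω) : Kil z (ω Finset.univ) := by
  obtain ⟨X, γ, hγ, rfl⟩ := h
  obtain ⟨Jn, hJ⟩ := exists_ref he hR
  have hγ' : H90.FOU z γ := fun I => (e_OU z _).1 (hγ.1 I)
  refine hC.pair (tH _) (fun τ => tH (X.x 0 fun _ => some (Jn τ)))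
    (fun τ => tH γ - tH (X.x 1 ![none, some (Jn τ)]))
    (fun τ => coc_fou he hG hB hU hV X 0 _)
    (fun τ => hC.hO.sub hγ' (coc_fou he hG hB hU hV X 1 _)) (fun τ => move X γ _)
    (fun τ hτ F hF => ?_) fun τ hτ σ hσ G h1 h2 => ?_
  · obtain ⟨O, h1, h2⟩ := coc_stalk he hB hV X F _ _ (hJ 5 τ hτ F hF) (hJ 5 τ hτ F hF) 0
      (fun _ => some (Jn τ)) fun _ => Or.inl rfl
    exact hV.fil F O _ _ h1 h2
  · obtain ⟨O, h3, h4⟩ := coc_stalk he hB hV X G _ _ (hJ 4 σ hσ G h1) (hJ 5 τ hτ G h2) 1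
      ![some (Jn σ), some (Jn τ)] fun k => by fin_cases k <;> simp
    have h5 := hC.hF.neg (hV.fil G O _ _ h3 h4)
    have h6 : ∀ a b d g : H90.Form, a - b = -d → g - b - (g - a) = -d := by
      intro a b d g h
      rw [← h]
      abel
    rw [h6 (tH _) (tH _) (tH _) (tH γ) (closed1 X none (some (Jn σ)) (some (Jn τ)))]
    exact h5

theorem kil_cpt {ω : Form} (h : Img z P true 0 ω) : Kil z (ω Finset.univ) := by
  obtain ⟨X, γ, hγ, rfl⟩ := h
  obtain ⟨Jn, hJ⟩ := exists_ref he hR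
  have hγ' : H90.FOU z γ := fun I => (e_OU z _).1 (hγ.1 I)
  have hE : ({H90.dE} : Finset H90.Div) ∈ H90.Nest 1 :=
    H90.mem_Nest.2 ⟨by simpa using H90.Compat.refl _, rfl, Finset.mem_singleton_self _⟩
  have h0 := hJ 1 _ hE _ (Finset.mem_singleton_self _)
  obtain ⟨O, h1, h2⟩ := coc_stalk he hB hV X _ _ _ h0 h0 0 (fun _ => some (Jn {H90.dE}))
    fun _ => Or.inl rfl
  change Kil z (tH _ Finset.univ)
  rw [move X γ (some (Jn {H90.dE}))]
  refine Kil.add (hC.atE _ (coc_fou he hG hB hU hV X 0 _ _) (hV.filE O _ _ h1 h2)) ?_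
  refine hC.pair _ (fun _ => 0) (fun _ => tH γ - tH (X.x 1 ![none, some (Jn {H90.dE})]))
    (fun _ => hC.hO.zero) (fun _ => hC.hO.sub hγ' (coc_fou he hG hB hU hV X 1 _))
    (fun _ => (zero_add _).symm) (fun _ _ F _ => hC.hF.zero F _) fun _ _ _ _ G _ _ => ?_
  rw [sub_self]
  exact hC.hF.zero G _

end

theorem kil_block (hC : Core z) {ψ : Dual} (h : H90.Block z 1 ψ) :
    Kil z (H90.svForm z ψ Finset.univ) := by
  have h4 := hC.hF.monoI Finset.univ (hC.hB.blk1 ψ h)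
  have h5 : (3 + H90.oVol H90.dE.1 Finset.univ : ℤ) = 2 := by decide
  rw [h5] at h4
  have h6 : H90.mono Finset.univ (H90.svForm z ψ Finset.univ) Finset.univ =
      H90.svForm z ψ Finset.univ := if_pos rfl
  exact h6 ▸ hC.atE _ (h6.symm ▸ hC.hB.sv_OU ψ) h4

theorem geo_main (hG : SGA K) (hB : SGB K z (x2 z)) (hU : SU z) (hK : SK z) (hV : SV z)
    (hR : SR z) (hC : Core z) : ∃ P : Model, Compactifies z P ∧ ∃ ψ : Dual, ψ ≠ 0 ∧
      H90.Block z 3 ψ ∧ ∀ ψ' ω, H90.Block z 1 ψ' → Img z P true 0 ω →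
        ¬ Img z P false 4 (svForm z (ψ - ψ') - ω) := by
  obtain ⟨P, e, he⟩ := exists_model hB
  obtain ⟨ψ, h1, h2⟩ := hC.hB.ex3
  refine ⟨P, compactifies he hG hB hU hK, ψ, ?_, h1, fun ψ' ω a1 a2 a3 => hC.ne ?_⟩
  · rintro rfl
    apply hC.ne
    rw [← h2]
    exact kil_block hC ⟨h1.1, by
      funext J
      simp [H90.lower]⟩
  · have k := ((kil_hodge he hG hB hU hV hR hC a3).add (kil_cpt he hG hB hU hV hR hC a2)).add
      (kil_block hC a1)
    have e1 : ∀ a b w : H90.K, a - b - w + w + b = a := fun a b w => by ring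
    have e2 : tH (svForm z (ψ - ψ') - ω) Finset.univ =
        H90.svForm z ψ Finset.univ - H90.svForm z ψ' Finset.univ - tH ω Finset.univ := by
      rw [← H90.svForm_sub]
      rfl
    change Kil z (tH (svForm z (ψ - ψ') - ω) Finset.univ + tH ω Finset.univ + _) at k
    rw [e2, e1, h2] at k
    exact k

end Pool.Agent.MP_cb8d3a_ag.H42
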