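import Pool.Agent.MP_cb8d3a_ag.H90.Main

/-! The pairing with the dual cocycle, in terms of orders along the boundary divisors. -/

noncomputable section

open scoped BigOperators

namespace Pool.Agent.MP_cb8d3a_ag.H42
open Pool.Agent.MP_cb8d3a_ag.H90 Pool.Agent.MP_cb8d3a_ag.H90.PairAux

variable {z : Fin 11 → ℂ}

theorem pair_fil (h2 : SCar2 z) (hF : SFil z) (hO : SFou z) (hR : SRes z) (hL : SList)
    (ω : Form) (y g : Finset Div → Form) (hy : ∀ τ, FOU z (y τ)) (hg : ∀ τ, FOU z (g τ))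
    (e1 : ∀ τ, ω = y τ + nabla z (g τ))
    (l5 : ∀ τ ∈ Nest 5, ∀ F ∈ τ, Fil z F (latL F.1) (y τ))
    (l4 : ∀ τ ∈ Nest 5, ∀ σ ∈ Nest 4, ∀ G ∈ σ, G ∈ τ → Fil z G (latL G.1) (g τ - g σ)) :
    ∃ N0 : ℕ, ∀ N, N0 ≤ N → ∀ Ξ, DualCo z N Ξ → Ssum z Ξ (ω Finset.univ) = 0 := by
  choose k hk using fun p : Div × Finset Div => hF.exists_Fil p.1 (g p.2)
  obtain ⟨N0, hN0⟩ := Finite.exists_le fun p => (-k p).toNat
  refine ⟨N0, fun N hN Ξ hΞ => ?_⟩
  have key : ∀ τ ∈ Nest 5, Res z (lst τ) (ω Finset.univ * Ξ τ ∅) =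
      -∑ F ∈ τ.erase dE, Res z (lst (τ.erase F) ++ [F]) (B1 (g (τ.erase F)) (Ξ (τ.erase F))) := by
    intro τ hτ
    have l1 := hL.compL 5 τ hτ
    have l2 := hL.length 5 τ hτ
    have l3 := fun F hF => (hL.mem 5 τ hτ F).2 hF
    have e2 : Res z (lst τ) (y τ Finset.univ * Ξ τ ∅) = 0 :=
      A0_zero hF hO hR l1 l2 l3 (hy τ) (fun F hFτ => by
        rw [← latL_add_latD F.1, add_sub_cancel_right]
        exact l5 τ hτ F hFτ) (hΞ.good5 τ hτ)
    have e3 := B1_zero hF hO hR l1 l2 l3 (hg τ) (fun F _ => hF.le (hk (F, τ)) (by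
      have := hN0 (F, τ)
      omega)) (hΞ.rel τ hτ)
    rw [map_sub, map_sub, sub_eq_zero, map_sum, map_sum] at e3
    rw [e1 τ, Pi.add_apply, add_mul, map_add, e2, zero_add, nabla_mul h2, map_sub,
      hR.Res_exact _ _ l1 l2, zero_sub, e3, neg_inj]
    refine Finset.sum_congr rfl fun F hFτ => ?_
    obtain ⟨f1, f2⟩ := Finset.mem_erase.1 hFτ
    have hσ := hL.erase_mem 4 τ hτ F f2 f1
    have e4 := B1_zero hF hO hR l1 l2 (τ := τ.erase F)
      (fun G hG => l3 G (Finset.mem_of_mem_erase hG)) (hO.sub (hg τ) (hg (τ.erase F)))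
      (fun G hG => by
        rw [← latL_add_latD G.1, add_sub_cancel_right]
        exact l4 τ hτ _ hσ G hG (Finset.mem_of_mem_erase hG)) (hΞ.good4 _ hσ)
    rw [B1_sub, map_sub, sub_eq_zero] at e4
    rw [map_smul, map_smul, e4, sg_Res hR hL hτ f2 f1 (B1_OU hO (hg _) (hΞ.fou _))]
  rw [Ssum, Finset.sum_congr rfl key, Finset.sum_neg_distrib, neg_eq_zero,
    reindex hL fun σ F => Res z (lst σ ++ [F]) (B1 (g σ) (Ξ σ))]
  refine Finset.sum_eq_zero fun σ hσ => ?_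
  have := hR.Res_link (lst σ) _ (hL.nodup 4 σ hσ) (hL.length 4 σ hσ) (hL.compL 4 σ hσ)
    (B1_OU hO (hg σ) (hΞ.fou σ))
  rwa [show (lst σ).toFinset = σ from Finset.ext fun F => by
    rw [List.mem_toFinset, hL.mem 4 σ hσ]] at this

/-- The forms that the pairing kills. -/
def Kil (z : Fin 11 → ℂ) (c : K) : Prop := ∃ N0 : ℕ, ∀ N, N0 ≤ N → Ssum z (Xi z N) c = 0

theorem Kil.add {c c' : K} (h : Kil z c) (h' : Kil z c') : Kil z (c + c') := by
  obtain ⟨N, h⟩ := h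
  obtain ⟨N', h'⟩ := h'
  refine ⟨max N N', fun n hn => ?_⟩
  have := h n (le_trans (le_max_left _ _) hn)
  have := h' n (le_trans (le_max_right _ _) hn)
  simp only [Ssum, add_mul, map_add, Finset.sum_add_distrib] at *
  simp [*]

/-- What the proof of `H90.main` gives. -/
structure Core (z : Fin 11 → ℂ) : Prop where
  hA : SAt z
  hI : SInv z
  hK : SK1 z
  hF : SFil z
  hO : SFou z
  hB : SBlk z
  pair : ∀ (ω : Form) (y g : Finset Div → Form), (∀ τ, FOU z (y τ)) → (∀ τ, FOU z (g τ)) →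
    (∀ τ, ω = y τ + nabla z (g τ)) → (∀ τ ∈ Nest 5, ∀ F ∈ τ, Fil z F (latL F.1) (y τ)) →
    (∀ τ ∈ Nest 5, ∀ σ ∈ Nest 4, ∀ G ∈ σ, G ∈ τ → Fil z G (latL G.1) (g τ - g σ)) →
    Kil z (ω Finset.univ)
  atE : ∀ ω : Form, ω Finset.univ ∈ OU z → Fil z dE 2 ω → Kil z (ω Finset.univ)
  ne : ¬ Kil z (c0 z)

theorem core (z : Fin 11 → ℂ) (hz : Function.Injective z) : Core z := by
  have hA := sAt z hz
  have hI := sInv z hA
  have hK := sK1 z hA hI
  have h1 := sCar1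
  have h2 := sCar2 z h1 hI
  have hF := sFil z hA hI h1 h2
  have hO := sFou z hA hK
  have hB := sBri z hz hA hK h1
  have hC := sComb
  have hR := sRes z hA hI hK h1 h2 hO hB hC
  have hH := sHom z hA hI h1 h2 hF
  have hQ := H90.sR z hA hI h1 h2 hF hH
  have hL := sList
  have hS := sSdA z hA hI h1 h2 hF hO hL
  have hM := sSdB z hA hI h1 h2 hF hS
  have hT := sSdC z hA hF hL
  have hG := sGood z hI h1 h2 hF hO hH hQ hL hS hM
  have e1 := sE1 z hA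
  have e2 := sE2 z hA hI h1
  have e3 := sE3 z hA hI h1 h2 hS e1
  have e4 := sE4 hL hA.compB_iff
  obtain ⟨N1, hRel⟩ := sRel z hI h1 h2 hF hO hH hQ hL hS hM hG
  have hRed := sRed z hI h1 hF hO hC hR hH hQ hL hS hT hG
  have hEv := sEv_of hA hI hK h1 hF hO hR hH hQ hL hS hM hT e1 e2 e3 e4
  refine ⟨hA, hI, hK, hF, hO, sBlk z hz hA, fun ω y g a1 a2 a3 a4 a5 => ?_, fun ω a1 a2 => ?_, ?_⟩
  · obtain ⟨N0, h0⟩ := pair_fil h2 hF hO hR hL ω y g a1 a2 a3 a4 a5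
    exact ⟨max N0 N1, fun N hN => h0 N (le_trans (le_max_left _ _) hN) _
      ⟨hG.fou _, hRel _ (le_trans (le_max_right _ _) hN), hG.good _ 5 (by norm_num),
        hG.good _ 4 le_rfl⟩⟩
  · refine ⟨0, fun N _ => Finset.sum_eq_zero fun τ hτ => ?_⟩
    have hE : dE ∈ lst τ := (hL.mem 5 τ hτ dE).2 (mem_Nest.1 hτ).2.2
    have h4 := hF.smul (hF.empty (hG.ordE N 5 τ hτ)) a2
    have h6 : (Xi z N τ ∅ • ω) Finset.univ = ω Finset.univ * Xi z N τ ∅ := by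
      rw [Pi.smul_apply, smul_eq_mul, mul_comm]
    have h7 := hR.Res_zero (lst τ) dE _ (hL.compL 5 τ hτ) (hL.length 5 τ hτ) hE
      (by rw [h6]; exact (OU z).mul_mem a1 (hG.fou N τ ∅)) h4
    rwa [h6] at h7
  · rintro ⟨N0, h0⟩
    apply hEv (max N0 40) (le_max_right _ _)
    rw [Finset.sum_filter]
    refine Eq.trans ?_ (h0 _ (le_max_left N0 40))
    exact Finset.sum_congr rfl fun τ hτ => (hRed _ τ hτ).symm

end Pool.Agent.MP_cb8d3a_ag.H42
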