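import Pool.Agent.MP_cb8d3a_ag.H42.GDefs

/-! Clusters of points over a local ring. -/

noncomputable section

open scoped BigOperators

namespace Pool.Agent.MP_cb8d3a_ag.H42.GT

variable {L : Type} [Field L] [Algebra ℂ L]

/-- Elements of the maximal ideal. -/
def sm (O : Subalgebra ℂ L) (ev : L → ℂ) (c : L) : Prop := c ∈ O ∧ ev c = 0

/-- `g` generates the differences of the points of `S`. -/
def Gen (x : Pt → L) (O : Subalgebra ℂ L) (ev : L → ℂ) (S : Finset Pt) (g : L) : Prop :=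
  g ≠ 0 ∧ (∀ p ∈ S, ∀ q ∈ S, (x p - x q) / g ∈ O) ∧ ∃ p ∈ S, ∃ q ∈ S, ¬ sm O ev ((x p - x q) / g)

/-- Clusters. -/
def Cl (x : Pt → L) (O : Subalgebra ℂ L) (ev : L → ℂ) (S : Finset Pt) : Prop :=
  (∃ p ∈ S, ∃ q ∈ S, p ≠ q) ∧ ∀ p ∈ S, ∀ q ∈ S, ∀ r ∉ S, sm O ev ((x p - x q) / (x p - x r))

structure Hy (z : Fin 11 → ℂ) (x : Pt → L) (O : Subalgebra ℂ L) (ev : L → ℂ) : Prop where
  ga : SGA L
  loc : Loc O ev
  conf : Conf z x
  tri : ∀ p q r, p ≠ q → p ≠ r → q ≠ r → (x p - x r) / (x p - x q) ∈ O ∨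
    (x p - x q) / (x p - x r) ∈ O ∨
      ((x p - x q) / (x q - x r) ∈ O ∧ (x p - x r) / (x q - x r) ∈ O)

variable {z : Fin 11 → ℂ} {x : Pt → L} {O : Subalgebra ℂ L} {ev : L → ℂ}

theorem Hy.ne (h : Hy z x O ev) {p q : Pt} (hpq : p ≠ q) : x p - x q ≠ 0 :=
  sub_ne_zero.2 fun e => hpq (h.conf.hx e)

theorem Hy.sm_mul (h : Hy z x O ev) {a b : L} (ha : sm O ev a) (hb : b ∈ O) : sm O ev (a * b) :=
  ⟨O.mul_mem ha.1 hb, by rw [h.loc.mul a ha.1 b hb, ha.2, zero_mul]⟩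

theorem Hy.sm_sub (h : Hy z x O ev) {a b : L} (ha : sm O ev a) (hb : sm O ev b) :
    sm O ev (a - b) :=
  ⟨O.sub_mem ha.1 hb.1, by rw [h.ga.ev_sub O ev h.loc a ha.1 b hb.1, ha.2, hb.2, sub_zero]⟩

theorem Hy.sm_zero (h : Hy z x O ev) : sm O ev 0 := ⟨O.zero_mem, h.ga.ev_zero O ev h.loc⟩

theorem Hy.not_sm_one (h : Hy z x O ev) : ¬ sm O ev 1 := fun e => by
  have := e.2
  rw [h.ga.ev_one O ev h.loc] at this
  exact one_ne_zero this

theorem Hy.inv_mem (h : Hy z x O ev) {a : L} (ha : a ∈ O) (hs : ¬ sm O ev a) : a⁻¹ ∈ O :=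
  h.loc.inv a ha fun e => hs ⟨ha, e⟩

theorem Hy.ne_of (h : Hy z x O ev) {a : L} (hs : ¬ sm O ev a) : a ≠ 0 := by
  rintro rfl
  exact hs h.sm_zero

theorem Hy.not_both (h : Hy z x O ev) {a b : L} (ha : a ≠ 0) (hb : b ≠ 0) (h1 : sm O ev (a / b))
    (h2 : b / a ∈ O) : False := by
  have := h.sm_mul h1 h2
  rw [div_mul_div_cancel₀ hb, div_self ha] at this
  exact h.not_sm_one this

theorem all_of_base {S : Finset Pt} {p : Pt} {g : L} (hb : ∀ r ∈ S, (x r - x p) / g ∈ O) :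
    ∀ r ∈ S, ∀ r' ∈ S, (x r - x r') / g ∈ O := by
  intro r hr r' hr'
  have := O.sub_mem (hb r hr) (hb r' hr')
  rwa [← sub_div, sub_sub_sub_cancel_right] at this

theorem neg_ratio {a b g : L} (h : (a - b) / g ∈ O) : (b - a) / g ∈ O := by
  have := O.neg_mem h
  rwa [← neg_div, neg_sub] at this

theorem Hy.gen_aux (h : Hy z x O ev) (S : Finset Pt) : (∀ p ∈ S, ∀ q ∈ S, p = q) ∨
    ∃ p ∈ S, ∃ q ∈ S, p ≠ q ∧ ∀ r ∈ S, ∀ r' ∈ S, (x r - x r') / (x p - x q) ∈ O := by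
  induction S using Finset.induction_on with
  | empty => left; simp
  | insert s S hs ih =>
    rcases ih with ih | ⟨p, hp, q, hq, hpq, ih⟩
    · rcases S.eq_empty_or_nonempty with rfl | ⟨p, hp⟩
      · left; simp
      · right
        have hsp : s ≠ p := fun e => hs (e ▸ hp)
        refine ⟨s, Finset.mem_insert_self _ _, p, Finset.mem_insert_of_mem hp, hsp,
          all_of_base (p := p) fun r hr => ?_⟩
        rcases Finset.mem_insert.1 hr with rfl | hr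
        · rw [div_self (h.ne hsp)]; exact O.one_mem
        · rw [ih r hr p hp, sub_self, zero_div]; exact O.zero_mem
    · right
      have hps : p ≠ s := fun e => hs (e ▸ hp)
      have hqs : q ≠ s := fun e => hs (e ▸ hq)
      have key : ∀ g : L, (x p - x q) / g ∈ O → (x p - x s) / g ∈ O →
          ∀ r ∈ insert s S, ∀ r' ∈ insert s S, (x r - x r') / g ∈ O := by
        intro g h1 h2
        refine all_of_base (p := p) fun r hr => ?_
        rcases Finset.mem_insert.1 hr with rfl | hr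
        · exact neg_ratio h2
        · have := O.mul_mem (ih r hr p hp) h1
          rwa [div_mul_div_cancel₀ (h.ne hpq)] at this
      have m1 := Finset.mem_insert_self s S
      have m2 := Finset.mem_insert_of_mem (b := s) hp
      have m3 := Finset.mem_insert_of_mem (b := s) hq
      rcases h.tri p q s hpq hps hqs with t | t | t
      · exact ⟨p, m2, q, m3, hpq, key _ (by rw [div_self (h.ne hpq)]; exact O.one_mem) t⟩
      · exact ⟨p, m2, s, m1, hps, key _ t (by rw [div_self (h.ne hps)]; exact O.one_mem)⟩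
      · exact ⟨q, m3, s, m1, hqs, key _ t.1 t.2⟩

theorem Hy.exists_gen (h : Hy z x O ev) {S : Finset Pt} (hS : Cl x O ev S) :
    ∃ g, Gen x O ev S g := by
  rcases h.gen_aux S with e | ⟨p, hp, q, hq, hpq, e⟩
  · obtain ⟨p, hp, q, hq, hpq⟩ := hS.1
    exact absurd (e p hp q hq) hpq
  · refine ⟨x p - x q, h.ne hpq, e, p, hp, q, hq, ?_⟩
    rw [div_self (h.ne hpq)]
    exact h.not_sm_one

theorem Hy.gen_of (h : Hy z x O ev) {S : Finset Pt} {g : L} (hg : Gen x O ev S g) {p q : Pt}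
    (hp : p ∈ S) (hq : q ∈ S) (hs : ¬ sm O ev ((x p - x q) / g)) : Gen x O ev S (x p - x q) := by
  have h0 : x p - x q ≠ 0 := fun e => h.ne_of hs (by rw [e, zero_div])
  refine ⟨h0, fun r hr r' hr' => ?_, p, hp, q, hq, ?_⟩
  · have := O.mul_mem (hg.2.1 r hr r' hr') (h.inv_mem (hg.2.1 p hp q hq) hs)
    rwa [inv_div, div_mul_div_cancel₀ hg.1] at this
  · rw [div_self h0]; exact h.not_sm_one

theorem cl_univ : Cl x O ev Finset.univ :=
  ⟨⟨Sum.inr 0, Finset.mem_univ _, Sum.inr 1, Finset.mem_univ _, by decide⟩,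
    fun _ _ _ _ r hr => absurd (Finset.mem_univ r) hr⟩

theorem Hy.lam (h : Hy z x O ev) {S T : Finset Pt} (hS : Cl x O ev S) (hT : Cl x O ev T) {p : Pt}
    (h1 : p ∈ S) (h2 : p ∈ T) : S ⊆ T ∨ T ⊆ S := by
  by_contra hc
  push Not at hc
  obtain ⟨q, hq, hq'⟩ := Finset.not_subset.1 hc.1
  obtain ⟨r, hr, hr'⟩ := Finset.not_subset.1 hc.2
  exact h.not_both (h.ne fun e : p = q => hq' (e ▸ h2)) (h.ne fun e : p = r => hr' (e ▸ h1))
    (hS.2 p h1 q hq r hr') (hT.2 p h2 r hr q hq').1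

theorem Hy.exists_min (h : Hy z x O ev) (Q : Finset Pt → Prop) (p : Pt) (hQ : Q Finset.univ)
    (hp : ∀ T, Q T → p ∈ T) :
    ∃ S, Cl x O ev S ∧ Q S ∧ ∀ T, Cl x O ev T → Q T → S ⊆ T := by
  classical
  obtain ⟨S, hS, hm⟩ := Finset.exists_min_image
    (Finset.univ.filter fun S => Cl x O ev S ∧ Q S) Finset.card
    ⟨Finset.univ, by simp [cl_univ, hQ]⟩
  rw [Finset.mem_filter] at hS
  refine ⟨S, hS.2.1, hS.2.2, fun T hT hQT => ?_⟩
  rcases h.lam hS.2.1 hT (hp S hS.2.2) (hp T hQT) with e | e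
  · exact e
  · exact (Finset.eq_of_subset_of_card_le e (hm T (by simp [hT, hQT]))).ge

theorem Hy.key1 (h : Hy z x O ev) {S T : Finset Pt} {g : L} (hg : Gen x O ev S g) {p q : Pt}
    (hp : p ∈ S) (hs : ¬ sm O ev ((x p - x q) / g)) (hT : Cl x O ev T) (h1 : p ∈ T)
    (h2 : q ∈ T) : S ⊆ T := by
  intro r hr
  by_contra hr'
  have := h.sm_mul (hT.2 p h1 q h2 r hr') (hg.2.1 p hp r hr)
  rw [div_mul_div_cancel₀ (h.ne fun e : p = r => hr' (e ▸ h1))] at this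
  exact hs this

open Classical in
/-- The class of `p` in `S`. -/
def cls (x : Pt → L) (O : Subalgebra ℂ L) (ev : L → ℂ) (S : Finset Pt) (g : L) (p : Pt) :
    Finset Pt := S.filter fun q => sm O ev ((x p - x q) / g)

theorem mem_cls {S : Finset Pt} {g : L} {p q : Pt} :
    q ∈ cls x O ev S g p ↔ q ∈ S ∧ sm O ev ((x p - x q) / g) := by
  classical
  exact Finset.mem_filter

theorem Hy.cls_sm (h : Hy z x O ev) {S : Finset Pt} {g : L} {p q r : Pt}
    (hq : q ∈ cls x O ev S g p) (hr : r ∈ cls x O ev S g p) : sm O ev ((x q - x r) / g) := by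
  have := h.sm_sub (mem_cls.1 hr).2 (mem_cls.1 hq).2
  rwa [← sub_div, sub_sub_sub_cancel_left] at this

theorem Hy.self_cls (h : Hy z x O ev) {S : Finset Pt} {g : L} {p : Pt} (hp : p ∈ S) :
    p ∈ cls x O ev S g p :=
  mem_cls.2 ⟨hp, by rw [sub_self, zero_div]; exact h.sm_zero⟩

theorem Hy.cls_ne (h : Hy z x O ev) {S : Finset Pt} {g : L} (hg : Gen x O ev S g) (p : Pt) :
    ∃ r ∈ S, r ∉ cls x O ev S g p := by
  by_contra hc
  push Not at hc
  obtain ⟨q, hq, r, hr, hs⟩ := hg.2.2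
  exact hs (h.cls_sm (hc q hq) (hc r hr))

theorem Hy.key2 (h : Hy z x O ev) {S : Finset Pt} {g : L} (hS : Cl x O ev S)
    (hg : Gen x O ev S g) {p q : Pt} (hp : p ∈ S) (hq : q ∈ S) (hpq : p ≠ q)
    (hs : sm O ev ((x p - x q) / g)) :
    ∃ T, Cl x O ev T ∧ p ∈ T ∧ q ∈ T ∧ ¬ S ⊆ T := by
  have hqT : q ∈ cls x O ev S g p := mem_cls.2 ⟨hq, hs⟩
  refine ⟨cls x O ev S g p, ⟨⟨p, h.self_cls hp, q, hqT, hpq⟩, fun a ha b hb r hr => ?_⟩,
    h.self_cls hp, hqT, fun e => ?_⟩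
  · by_cases hrS : r ∈ S
    · have h1 : ¬ sm O ev ((x a - x r) / g) := fun e => hr (mem_cls.2 ⟨hrS, by
        have := h.sm_sub e (h.cls_sm ha (h.self_cls hp))
        rwa [← sub_div, sub_sub_sub_cancel_left] at this⟩)
      have := h.sm_mul (h.cls_sm ha hb) (h.inv_mem (hg.2.1 a (mem_cls.1 ha).1 r hrS) h1)
      rwa [inv_div, div_mul_div_cancel₀ hg.1] at this
    · exact hS.2 a (mem_cls.1 ha).1 b (mem_cls.1 hb).1 r hrS
  · obtain ⟨r, hr, hr'⟩ := h.cls_ne hg p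
    exact hr' (e hr)

theorem mem_Zs (i : Fin 11) : (Sum.inr i : Pt) ∈ Zs := Finset.mem_image_of_mem _ (Finset.mem_univ i)

theorem Hy.fixed (h : Hy z x O ev) {T : Finset Pt} (hT : Cl x O ev T) {i j : Fin 11} (hij : i ≠ j)
    (hi : Sum.inr i ∈ T) (hj : Sum.inr j ∈ T) : Zs ⊆ T := by
  intro r hr
  obtain ⟨k, -, rfl⟩ := Finset.mem_image.1 hr
  by_contra hk
  have hik : i ≠ k := fun e => hk (e ▸ hi)
  refine h.not_both (h.ne (p := Sum.inr i) (q := Sum.inr j) (by simpa using hij))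
    (h.ne (p := Sum.inr i) (q := Sum.inr k) (by simpa using hik)) (hT.2 _ hi _ hj _ hk) ?_
  rw [h.conf.fix, h.conf.fix, h.conf.fix, ← map_sub, ← map_sub, ← map_div₀]
  exact O.algebraMap_mem _

/-- The rank of a point: fixed points come first. -/
def rk : Pt → ℕ
  | Sum.inl a => 11 + a
  | Sum.inr i => i

theorem rk_inj : ∀ p q, rk p = rk q → p = q := by decide

theorem rk_lt : ∀ p i, rk p ≤ rk (Sum.inr i) → ∃ j, p = Sum.inr j := by decide

end Pool.Agent.MP_cb8d3a_ag.H42.GT
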