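import Pool.Agent.MP_cb8d3a_ag.H42.GT_a

/-! The tree of clusters: minimal clusters, parents, scales. -/

noncomputable section

open scoped BigOperators

namespace Pool.Agent.MP_cb8d3a_ag.H42.GT

variable {L : Type} [Field L] [Algebra ℂ L]

/-- The choices attached to the tree of clusters. -/
structure Tree (x : Pt → L) (O : Subalgebra ℂ L) (ev : L → ℂ) where
  M : Pt → Pt → Finset Pt
  b : Finset Pt → Pt
  Sa : Fin 5 → Finset Pt
  par : Finset Pt → Finset Pt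
  ch : Finset Pt → Fin 5
  M_cl : ∀ p q, Cl x O ev (M p q)
  M_l : ∀ p q, p ∈ M p q
  M_r : ∀ p q, q ∈ M p q
  M_min : ∀ p q T, Cl x O ev T → p ∈ T → q ∈ T → M p q ⊆ T
  b_mem : ∀ S p, p ∈ S → b S ∈ S
  b_le : ∀ S p, p ∈ S → rk (b S) ≤ rk p
  Sa_cl : ∀ a, Cl x O ev (Sa a)
  Sa_mem : ∀ a, Sum.inl a ∈ Sa a
  Sa_lt : ∀ a, rk (b (Sa a)) < rk (Sum.inl a)
  Sa_min : ∀ a T p, Cl x O ev T → Sum.inl a ∈ T → p ∈ T → rk p < rk (Sum.inl a) → Sa a ⊆ T
  par_cl : ∀ T, Cl x O ev T → T ≠ Finset.univ → Cl x O ev (par T)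
  par_lt : ∀ T, Cl x O ev T → T ≠ Finset.univ → T ⊂ par T
  par_min : ∀ T T', Cl x O ev T → Cl x O ev T' → T ⊂ T' → par T ⊆ T'
  ch_eq : ∀ S, Cl x O ev S → S ≠ M (Sum.inr 0) (Sum.inr 1) → Sa (ch S) = S

variable {z : Fin 11 → ℂ} {x : Pt → L} {O : Subalgebra ℂ L} {ev : L → ℂ}

theorem Hy.exists_tree (h : Hy z x O ev) : Nonempty (Tree x O ev) := by
  classical
  have hM : ∀ p q : Pt, ∃ S, Cl x O ev S ∧ (p ∈ S ∧ q ∈ S) ∧
      ∀ T, Cl x O ev T → (p ∈ T ∧ q ∈ T) → S ⊆ T := fun p q =>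
    h.exists_min (fun T => p ∈ T ∧ q ∈ T) p (by simp) fun T hT => hT.1
  choose M M1 M2 M3 using hM
  have hb : ∀ S : Finset Pt, ∃ b, ∀ p ∈ S, b ∈ S ∧ rk b ≤ rk p := by
    intro S
    rcases S.eq_empty_or_nonempty with rfl | hS
    · exact ⟨Sum.inr 0, by simp⟩
    · obtain ⟨b, hb, hb'⟩ := Finset.exists_min_image S rk hS
      exact ⟨b, fun p hp => ⟨hb, hb' p hp⟩⟩
  choose b hb using hb
  have hS : ∀ a : Fin 5, ∃ S, Cl x O ev S ∧ (Sum.inl a ∈ S ∧ ∃ p ∈ S, rk p < rk (Sum.inl a)) ∧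
      ∀ T, Cl x O ev T → (Sum.inl a ∈ T ∧ ∃ p ∈ T, rk p < rk (Sum.inl a)) → S ⊆ T := fun a =>
    h.exists_min (fun T => Sum.inl a ∈ T ∧ ∃ p ∈ T, rk p < rk (Sum.inl a)) (Sum.inl a)
      ⟨Finset.mem_univ _, Sum.inr 0, Finset.mem_univ _, by simp [rk]⟩ fun T hT => hT.1
  choose Sa S1 S2 S3 using hS
  have hP : ∀ T : Finset Pt, ∃ P, Cl x O ev T → T ≠ Finset.univ →
      Cl x O ev P ∧ T ⊂ P ∧ ∀ T', Cl x O ev T' → T ⊂ T' → P ⊆ T' := by
    intro T
    by_cases hT : Cl x O ev T ∧ T ≠ Finset.univ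
    · obtain ⟨p, hp, -⟩ := hT.1.1
      obtain ⟨P, hP⟩ := h.exists_min (fun T' => T ⊂ T') p
        (Finset.ssubset_univ_iff.2 hT.2) fun T' hT' => hT'.1 hp
      exact ⟨P, fun _ _ => hP⟩
    · exact ⟨∅, fun h1 h2 => absurd ⟨h1, h2⟩ hT⟩
  choose par hP using hP
  have hC : ∀ S : Finset Pt, ∃ a, Cl x O ev S → S ≠ M (Sum.inr 0) (Sum.inr 1) → Sa a = S := by
    intro S
    by_cases hS : Cl x O ev S ∧ S ≠ M (Sum.inr 0) (Sum.inr 1)
    swap
    · exact ⟨0, fun h1 h2 => absurd ⟨h1, h2⟩ hS⟩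
    obtain ⟨g, hg⟩ := h.exists_gen hS.1
    obtain ⟨p₀, hp₀, -⟩ := hS.1.1
    have hβ := (hb S p₀ hp₀).1
    obtain ⟨r, hr, hr'⟩ := h.cls_ne hg (b S)
    have hc := (hb _ r (h.self_cls (g := g) hr)).1
    set c := b (cls x O ev S g r) with hcdef
    have hcS := (mem_cls.1 hc).1
    have hns : ¬ sm O ev ((x c - x (b S)) / g) := fun e => hr' (mem_cls.2 ⟨hr, by
      have := h.sm_sub (h.sm_sub h.sm_zero e) (mem_cls.1 hc).2
      rw [← zero_div g, ← sub_div, ← sub_div] at this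
      convert this using 2
      ring⟩)
    have hne : c ≠ b S := fun e => hns (by rw [e, sub_self, zero_div]; exact h.sm_zero)
    have hlt : rk (b S) < rk c :=
      lt_of_le_of_ne (hb S c hcS).2 fun e => hne (rk_inj _ _ e).symm
    rcases hc' : c with a | i
    · refine ⟨a, fun _ _ => ?_⟩
      rw [hc'] at hcS hlt
      refine Finset.Subset.antisymm (S3 a S hS.1 ⟨hcS, b S, hβ, hlt⟩) ?_
      obtain ⟨p, hp, hp'⟩ := (S2 a).2
      have hpS := S3 a S hS.1 ⟨hcS, b S, hβ, hlt⟩ hp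
      refine h.key1 hg hcS (q := p) (fun e => ?_) (S1 a) (S2 a).1 hp
      have hpc : p ∈ cls x O ev S g r := mem_cls.2 ⟨hpS, by
        have := h.sm_sub (mem_cls.1 hc).2 (h.sm_sub h.sm_zero e)
        rw [← zero_div g, ← sub_div, ← sub_div, hc'] at this
        convert this using 2
        ring⟩
      have := (hb _ p hpc).2
      rw [← hcdef, hc'] at this
      omega
    · exfalso
      rw [hc'] at hcS hlt hns hne
      obtain ⟨j, hj⟩ := rk_lt _ i hlt.le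
      rw [hj] at hns hne hβ
      have hij : i ≠ j := fun e => hne (by rw [e])
      have hZ := h.fixed hS.1 hij hcS hβ
      have hZ0 := h.fixed (M1 (Sum.inr 0) (Sum.inr 1)) (i := 0) (j := 1) (by decide)
        (M2 _ _).1 (M2 _ _).2
      exact hS.2 (Finset.Subset.antisymm
        (h.key1 hg hcS hns (M1 _ _) (hZ0 (mem_Zs i)) (hZ0 (mem_Zs j)))
        (M3 _ _ S hS.1 ⟨hZ (mem_Zs 0), hZ (mem_Zs 1)⟩))
  choose ch hC using hC
  exact ⟨⟨M, b, Sa, par, ch, M1, fun p q => (M2 p q).1, fun p q => (M2 p q).2,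
    fun p q T h1 h2 h3 => M3 p q T h1 ⟨h2, h3⟩, fun S p hp => (hb S p hp).1,
    fun S p hp => (hb S p hp).2, S1, fun a => (S2 a).1, fun a => by
      obtain ⟨p, hp, hp'⟩ := (S2 a).2
      exact lt_of_le_of_lt (hb _ p hp).2 hp',
    fun a T p h1 h2 h3 h4 => S3 a T h1 ⟨h2, p, h3, h4⟩, fun T h1 h2 => (hP T h1 h2).1,
    fun T h1 h2 => (hP T h1 h2).2.1, fun T T' h1 h2 h3 =>
      (hP T h1 (by rintro rfl; exact h3.2 (Finset.subset_univ _))).2.2 T' h2 h3, hC⟩⟩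

namespace Tree
variable (W : Tree x O ev)

/-- The least cluster that contains the fixed points. -/
def S0 : Finset Pt := W.M (Sum.inr 0) (Sum.inr 1)

/-- The difference attached to a moving point. -/
def d (a : Fin 5) : L := x (Sum.inl a) - x (W.b (W.Sa a))

/-- The scale of a cluster. -/
def s (S : Finset Pt) : L := if S = W.S0 then x (Sum.inr 0) - x (Sum.inr 1) else W.d (W.ch S)

/-- The equation of the divisor of a cluster. -/
def uT (T : Finset Pt) : L := W.s T / W.s (W.par T)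

/-- The index of its coordinate. -/
def idx (T : Finset Pt) : Fin 5 := if Zs ⊆ T then W.ch (W.par T) else W.ch T

variable {W}

theorem M_ns (h : Hy z x O ev) {p q : Pt} (hpq : p ≠ q) {g : L} (hg : Gen x O ev (W.M p q) g) :
    ¬ sm O ev ((x p - x q) / g) := fun e => by
  obtain ⟨T, h1, h2, h3, h4⟩ := h.key2 (W.M_cl p q) hg (W.M_l p q) (W.M_r p q) hpq e
  exact h4 (W.M_min p q T h1 h2 h3)

theorem d_ns (h : Hy z x O ev) (a : Fin 5) {g : L} (hg : Gen x O ev (W.Sa a) g) :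
    ¬ sm O ev (W.d a / g) := fun e => by
  have hβ := W.b_mem _ _ (W.Sa_mem a)
  obtain ⟨T, h1, h2, h3, h4⟩ := h.key2 (W.Sa_cl a) hg (W.Sa_mem a) hβ
    (fun e => (W.Sa_lt a).ne (by rw [← e])) e
  exact h4 (W.Sa_min a T _ h1 h2 h3 (W.Sa_lt a))

theorem gen_s (h : Hy z x O ev) {S : Finset Pt} (hS : Cl x O ev S) : Gen x O ev S (W.s S) := by
  obtain ⟨g, hg⟩ := h.exists_gen hS
  unfold s
  split_ifs with e
  · subst e
    exact h.gen_of hg (W.M_l _ _) (W.M_r _ _) (M_ns h (by decide) hg)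
  · have e' := W.ch_eq S hS e
    have h1 := W.Sa_mem (W.ch S)
    have h2 := W.b_mem _ _ h1
    have h3 := d_ns (W := W) h (W.ch S) (g := g) (by rwa [e'])
    exact h.gen_of hg (e'.le h1) (e'.le h2) h3

theorem s_at (h : Hy z x O ev) {S : Finset Pt} (hS : Cl x O ev S) :
    ∃ p ∈ S, ∃ q ∈ S, W.s S = x p - x q := by
  unfold s
  split_ifs with e
  · subst e
    exact ⟨_, W.M_l _ _, _, W.M_r _ _, rfl⟩
  · have e' := W.ch_eq S hS e
    have h1 := W.Sa_mem (W.ch S)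
    have h2 := W.b_mem _ _ h1
    exact ⟨_, e'.le h1, _, e'.le h2, rfl⟩

theorem Z_S0 (h : Hy z x O ev) : Zs ⊆ W.S0 :=
  h.fixed (W.M_cl _ _) (i := 0) (j := 1) (by decide) (W.M_l _ _) (W.M_r _ _)

theorem S0_sub (h : Hy z x O ev) {T : Finset Pt} (hT : Cl x O ev T) : W.S0 ⊆ T ↔ Zs ⊆ T :=
  ⟨fun e => (Z_S0 h).trans e, fun e => W.M_min _ _ T hT (e (mem_Zs 0)) (e (mem_Zs 1))⟩

theorem uT_sm (h : Hy z x O ev) {T : Finset Pt} (hT : Cl x O ev T) (hU : T ≠ Finset.univ) :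
    sm O ev (W.uT T) := by
  obtain ⟨p, hp, q, hq, e⟩ := s_at (W := W) h hT
  have hl := W.par_lt T hT hU
  by_contra hc
  rw [uT, e] at hc
  exact hl.2 (h.key1 (gen_s h (W.par_cl T hT hU)) (hl.1 hp) hc hT hp hq)

theorem Sa_idx (h : Hy z x O ev) {T : Finset Pt} (hT : Cl x O ev T) (hU : T ≠ Finset.univ) :
    W.Sa (W.idx T) = (if Zs ⊆ T then W.par T else T) ∧ W.Sa (W.idx T) ≠ W.S0 ∧
      W.ch (W.Sa (W.idx T)) = W.idx T := by
  unfold idx
  split_ifs with e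
  · have h1 : W.par T ≠ W.S0 := fun e' =>
      (W.par_lt T hT hU).2 (e' ▸ (S0_sub h hT).2 e)
    have h2 := W.ch_eq _ (W.par_cl T hT hU) h1
    rw [h2]
    exact ⟨rfl, h1, rfl⟩
  · have h1 : T ≠ W.S0 := fun e' => e (e' ▸ Z_S0 h)
    have h2 := W.ch_eq _ hT h1
    rw [h2]
    exact ⟨rfl, h1, rfl⟩

theorem idx_inj (h : Hy z x O ev) {T T' : Finset Pt} (hT : Cl x O ev T) (hU : T ≠ Finset.univ)
    (hT' : Cl x O ev T') (hU' : T' ≠ Finset.univ) (e : W.idx T = W.idx T') : T = T' := by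
  have h1 := (Sa_idx (W := W) h hT hU).1
  have h2 := (Sa_idx (W := W) h hT' hU').1
  rw [e, h2] at h1
  have l1 := W.par_lt T hT hU
  have l2 := W.par_lt T' hT' hU'
  by_cases a : Zs ⊆ T <;> by_cases a' : Zs ⊆ T' <;> simp only [a, a', if_true, if_false] at h1
  · by_contra hne
    rcases h.lam hT hT' (a (mem_Zs 0)) (a' (mem_Zs 0)) with c | c
    · exact l2.2 (h1 ▸ W.par_min T T' hT hT' (Finset.ssubset_iff_subset_ne.2 ⟨c, hne⟩))
    · exact l1.2 (h1 ▸ W.par_min T' T hT' hT (Finset.ssubset_iff_subset_ne.2 ⟨c, Ne.symm hne⟩))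
  · exact absurd (h1 ▸ a.trans l1.1) a'
  · exact absurd (h1 ▸ a'.trans l2.1) a
  · exact h1.symm

end Tree

end Pool.Agent.MP_cb8d3a_ag.H42.GT
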