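import Mathlib

/-!
Definitions for the statement on MP_cb8d3a_ag, for the data
`g = sl2`, `l = 1`, `κ = 3`, `n = 11`, all `λ_i = ν = ω`, `M = 5`.
-/

noncomputable section

open scoped BigOperators

namespace Pool.Agent.MP_cb8d3a_ag.S2

/-- Rational functions in `t_0, ..., t_4`. -/
abbrev K : Type := FractionRing (MvPolynomial (Fin 5) ℂ)

/-- A polynomial as a rational function. -/
def ofPoly (P : MvPolynomial (Fin 5) ℂ) : K := algebraMap _ K P

/-- The coordinate `t_a`. -/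
def t (a : Fin 5) : K := ofPoly (MvPolynomial.X a)

/-- A numerator. -/
def numer (c : K) : MvPolynomial (Fin 5) ℂ :=
  (IsLocalization.sec (nonZeroDivisors (MvPolynomial (Fin 5) ℂ)) c).1

/-- The matching denominator. -/
def denom (c : K) : MvPolynomial (Fin 5) ℂ :=
  (IsLocalization.sec (nonZeroDivisors (MvPolynomial (Fin 5) ℂ)) c).2

/-- The derivative in `t_a` (quotient rule). -/
def pd (a : Fin 5) (c : K) : K :=
  (ofPoly (MvPolynomial.pderiv a (numer c)) * ofPoly (denom c) -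
    ofPoly (numer c) * ofPoly (MvPolynomial.pderiv a (denom c))) / ofPoly (denom c) ^ 2

/-- The hyperplanes `t_a = z_i` and `t_a = t_b` (`a < b`). -/
abbrev Hyp : Type := (Fin 5 × Fin 11) ⊕ {p : Fin 5 × Fin 5 // p.1 < p.2}

/-- The equation of a hyperplane. -/
def hyp (z : Fin 11 → ℂ) : Hyp → K
  | Sum.inl p => t p.1 - algebraMap ℂ K (z p.2)
  | Sum.inr p => t p.1.1 - t p.1.2

/-- The exponent of a hyperplane in the master function
`∏ (t_a - z_i) ^ (1 / κ) * ∏ (t_a - t_b) ^ (-2 / κ)`, `κ = 3`. -/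
def expo : Hyp → ℚ
  | Sum.inl _ => 1 / 3
  | Sum.inr _ => -2 / 3

/-- The regular functions on the complement `U` of the hyperplanes. -/
def OU (z : Fin 11 → ℂ) : Subalgebra ℂ K :=
  Algebra.adjoin ℂ (Set.range t ∪ Set.range fun h => (hyp z h)⁻¹)

/-! ### Differential forms -/

/-- A rational differential form: the coefficient of `dt_I` for each `I`. -/
abbrev Form : Type := Finset (Fin 5) → K

/-- The sign with `dt_a ∧ dt_(I - a) = sgn a I • dt_I`. -/
def sgn (a : Fin 5) (I : Finset (Fin 5)) : K := (-1) ^ (I.filter (· < a)).card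

/-- `(∑ α_a dt_a) ∧ ω`. -/
def wedge (α : Fin 5 → K) (ω : Form) : Form :=
  fun I => ∑ a ∈ I, sgn a I * α a * ω (I.erase a)

/-- The exterior derivative. -/
def extD (ω : Form) : Form :=
  fun I => ∑ a ∈ I, sgn a I * pd a (ω (I.erase a))

/-- The one-form `dlog c`. -/
def dlog (c : K) : Fin 5 → K := fun a => pd a c / c

/-- The one-form `η = dlog` of the master function. -/
def eta (z : Fin 11 → ℂ) : Fin 5 → K := fun a => ∑ h : Hyp, (expo h : K) * dlog (hyp z h) a

/-- The twisted differential `d + η ∧`. -/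
def nabla (z : Fin 11 → ℂ) (ω : Form) : Form := extD ω + wedge (eta z) ω

/-- The form `c dt_I`. -/
def mono (I : Finset (Fin 5)) (c : K) : Form := fun J => if J = I then c else 0

/-- Regular `p`-forms on `U`. -/
def RegForm (z : Fin 11 → ℂ) (p : ℕ) (ω : Form) : Prop :=
  (∀ I, ω I ∈ OU z) ∧ ∀ I, I.card ≠ p → ω I = 0

/-! ### Projective models of `K`, normal crossings, logarithmic forms -/

/-- `O` is the local ring of a closed point of the affine variety `Spec A`. -/
def IsPt (A O : Subalgebra ℂ K) : Prop :=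
  ∃ m : Ideal A, m.IsMaximal ∧ ∀ c : K, c ∈ O ↔ ∃ b : A, b ∉ m ∧ c * b ∈ A

/-- The projective variety `P`, closure of the image of the rational map `(x_0 : ... : x_(N-1))`. -/
structure Model where
  N : ℕ
  x : Fin N → Kˣ

/-- The coordinate ring of the affine chart `x_i ≠ 0` of `P`. -/
def Model.chart (P : Model) (i : Fin P.N) : Subalgebra ℂ K :=
  Algebra.adjoin ℂ (Set.range fun j => (P.x j : K) / P.x i)

/-- The closed points of `P`, as local rings. -/
def Model.pts (P : Model) : Set (Subalgebra ℂ K) := {O | ∃ i, IsPt (P.chart i) O}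

/-- The one-form `d c`. -/
def dK (c : K) : Fin 5 → K := fun a => pd a c

/-- Normal crossings data at a point with local ring `O`: a regular system of parameters `u`, the
boundary `P - U` is `∏_(i ∈ D) u_i = 0`, and `η` has residue `a_i` along `u_i = 0`. -/
structure Frame (z : Fin 11 → ℂ) (O : Subalgebra ℂ K) where
  u : Fin 5 → O
  D : Finset (Fin 5)
  a : Fin 5 → ℚ
  param : (Ideal.span (Set.range u)).IsMaximal
  bdry : O ⊔ OU z = O ⊔ Algebra.adjoin ℂ ((fun i => (u i : K)⁻¹) '' D)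
  res : eta z - ∑ i ∈ D, (a i : K) • dlog (u i) ∈ Submodule.span O (Set.range fun c : O => dK c)

/-- The basis `dlog u_i` (`i ∈ D`), `d u_i` (`i ∉ D`) of `Ω^1(log D)`. -/
def Frame.theta {z : Fin 11 → ℂ} {O : Subalgebra ℂ K} (F : Frame z O) (i : Fin 5) : Fin 5 → K :=
  if i ∈ F.D then dlog (F.u i) else dK (F.u i)

/-- The generator of the Deligne extension of `L = ker (d + η)` with residues in `[0, 1)`
(`c = false`) or in `(0, 1]` (`c = true`). -/
def Frame.gen {z : Fin 11 → ℂ} {O : Subalgebra ℂ K} (F : Frame z O) (c : Bool) : K :=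
  ∏ i ∈ F.D, (F.u i : K) ^ (if c then 1 - ⌈F.a i⌉ else -⌊F.a i⌋)

/-- The stalk at `O` of `Ω^p(log D) ⊗ Lbar`. -/
def stalk (z : Fin 11 → ℂ) (c : Bool) (O : Subalgebra ℂ K) (p : ℕ) : AddSubgroup Form :=
  AddSubgroup.closure {ω | ∃ (F : Frame z O) (b : O) (l : List (Fin 5)), l.length = p ∧
    ω = (b * F.gen c : K) • l.foldr (fun i => wedge (F.theta i)) (mono ∅ 1)}

/-- `P` contains `U`, is smooth with simple normal crossings boundary `P - U`, the permutations of
the `t_a` act on `P`, and all residues of `η` are less than `1` (so `V = U`). -/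
structure Compactifies (z : Fin 11 → ℂ) (P : Model) : Prop where
  sub : ∀ O, IsPt (OU z) O → O ∈ P.pts
  snc : ∀ O ∈ P.pts, ∃ F : Frame z O, ∀ i ∈ F.D, F.a i < 1
  perm : ∀ (σ : K ≃ₐ[ℂ] K) (π : Equiv.Perm (Fin 5)), (∀ a, σ (t a) = t (π a)) →
    ∀ O ∈ P.pts, O.map (σ : K →ₐ[ℂ] K) ∈ P.pts

/-- The affine cover of `P` by `U` and the charts `x_i ≠ 0`. -/
def cover (z : Fin 11 → ℂ) (P : Model) : Option (Fin P.N) → Subalgebra ℂ K
  | none => OU z
  | some i => P.chart i

/-- Cocycles of total degree `5` of the Cech complex of `(Ω^(≥ p)(log D) ⊗ Lbar, d + η)`. -/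
structure Cocycle (z : Fin 11 → ℂ) (P : Model) (c : Bool) (p : ℕ) where
  x : (q : ℕ) → (Fin (q + 1) → Option (Fin P.N)) → Form
  vanish : ∀ q s, 5 < p + q → x q s = 0
  sec : ∀ q s, ∀ O ∈ P.pts, (∀ k, cover z P (s k) ≤ O) → x q s ∈ stalk z c O (5 - q)
  closed₀ : ∀ s, nabla z (x 0 s) = 0
  closed : ∀ q (s : Fin (q + 2) → Option (Fin P.N)),
    ∑ i : Fin (q + 2), (-1 : K) ^ (i : ℕ) • x q (fun j => s (i.succAbove j)) +
      (-1 : K) ^ (q + 1) • nabla z (x (q + 1) s) = 0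

/-- The class of the `5`-form `ω` in `H^5(U, L) = Ω^5(U) / (d + η) Ω^4(U)` lies in the image of
`H^5(P, Ω^(≥ p)(log D) ⊗ Lbar)`: for `c = false` this is `F^p H^5(U, L)`, for `c = true`, `p = 0` it
is the image of `H^5_c(U, L)`. -/
def Img (z : Fin 11 → ℂ) (P : Model) (c : Bool) (p : ℕ) (ω : Form) : Prop :=
  ∃ (X : Cocycle z P c p) (γ : Form), RegForm z 4 γ ∧ ω = X.x 0 (fun _ => none) + nabla z γ

/-! ### Conformal blocks (Tsuchiya-Ueno-Yamada) -/

/-- With the basis `X_0 = e`, `X_1 = h`, `X_2 = f` of `sl2`: `[X_i, X_j] = cs i j • X_(br i j)`. -/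
def cs : Fin 3 → Fin 3 → ℂ := ![![0, -2, 1], ![2, 0, -2], ![-1, 2, 0]]

/-- See `cs`. -/
def br (i j : Fin 3) : Fin 3 := i + j - 1

/-- The normalised invariant form `(X_i, X_j)`. -/
def kf : Fin 3 → Fin 3 → ℂ := ![![0, 0, 1], ![0, 2, 0], ![1, 0, 0]]

/-- The free algebra on the modes `X_i(n) = X_i ⊗ ξ^n`. -/
abbrev FA : Type := FreeAlgebra ℂ (Fin 3 × ℤ)

/-- The mode `X_i(n)`. -/
def md (i : Fin 3) (n : ℤ) : FA := FreeAlgebra.ι ℂ (i, n)

/-- The relations of the integrable module of level `m` and highest weight `ω`: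
`[X(n), Y(k)] = [X, Y](n + k) + n δ_(n + k, 0) (X, Y) m`, the generator `v` spans with `f v` the
module `V_ω`, `ξ g[ξ] v = 0` and `e(-1) ^ (m - (ω, θ) + 1) v = 0`. -/
def rel (m : ℕ) : Set FA :=
  {r | (∃ i n j k b, r = (md i n * md j k - md j k * md i n - cs i j • md (br i j) (n + k) -
      algebraMap ℂ FA (if n + k = 0 then n * kf i j * m else 0)) * b) ∨
    (∃ i n, 0 < n ∧ r = md i n) ∨ r = md 0 0 ∨ r = md 1 0 - 1 ∨ r = md 2 0 ^ 2 ∨
    r = md 0 (-1) ^ (m - 1 + 1)}

/-- The integrable highest weight module `H_(ω, m)` of affine `sl2`. -/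
abbrev HM (m : ℕ) : Type := FA ⧸ Ideal.span (rel m)

/-- The highest weight vector. -/
def vac (m : ℕ) : HM m := Submodule.Quotient.mk 1

/-- The action of `X_i ⊗ φ`, `φ ∈ ℂ((ξ))`. -/
def cur {m : ℕ} (i : Fin 3) (φ : LaurentSeries ℂ) (v : HM m) : HM m :=
  ∑ᶠ n : ℤ, φ.coeff n • md i n • v

/-- The coordinate of `ℙ¹` in the local parameter `ξ` at `z_i` or at `∞` (`none`). -/
def loc (z : Fin 11 → ℂ) : Option (Fin 11) → LaurentSeries ℂ
  | some i => HahnSeries.single 0 (z i) + HahnSeries.single 1 1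
  | none => HahnSeries.single (-1) 1

/-- The regular functions on `ℙ¹ - {z_0, ..., z_10, ∞}`. -/
def OC (z : Fin 11 → ℂ) : Subalgebra ℂ (RatFunc ℂ) :=
  Algebra.adjoin ℂ ({RatFunc.X} ∪ Set.range fun i => (RatFunc.X - RatFunc.C (z i))⁻¹)

/-- Conformal blocks: functionals on `H ⊗ ... ⊗ H` that are invariant under `g ⊗ OC`. -/
def IsBlock (z : Fin 11 → ℂ) (m : ℕ)
    (Φ : MultilinearMap ℂ (fun _ : Option (Fin 11) => HM m) ℂ) : Prop :=
  ∀ (i : Fin 3), ∀ φ ∈ OC z, ∀ v : Option (Fin 11) → HM m,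
    ∑ p, Φ (Function.update v p (cur i (φ.eval HahnSeries.C (loc z p)) (v p))) = 0

/-- Functionals on `(ℂ²)^(⊗ 11)`, by their values on the vectors `f_I v`. -/
abbrev Dual : Type := Finset (Fin 11) → ℂ

/-- The vector `f_I v ⊗ v_ν^*`, `v_ν^* = f v` the lowest weight vector at `∞`. -/
def vec (m : ℕ) (I : Finset (Fin 11)) : Option (Fin 11) → HM m
  | some i => if i ∈ I then md 2 0 • vac m else vac m
  | none => md 2 0 • vac m

/-- `V^*_m ⊆ A^*`: the restrictions of conformal blocks of level `m`. -/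
def Block (z : Fin 11 → ℂ) (m : ℕ) (ψ : Dual) : Prop :=
  ∃ Φ, IsBlock z m Φ ∧ ∀ I, ψ I = Φ (vec m I)

/-- The Schechtman-Varchenko form of `ψ`. -/
def svForm (z : Fin 11 → ℂ) (ψ : Dual) : Form :=
  mono Finset.univ (∑ f : Fin 5 → Fin 11, algebraMap ℂ K (ψ (Finset.univ.image f)) *
    ∏ a, (t a - algebraMap ℂ K (z (f a)))⁻¹)

end Pool.Agent.MP_cb8d3a_ag.S2
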