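import Pool.Agent.MP_cb8d3a_ag.H42.Stmt
import Pool.Agent.MP_cb8d3a_ag.H90.Stmt

/-! Proof-level definitions and module statements for the comparison of conformal blocks. -/

noncomputable section

open scoped BigOperators

namespace Pool.Agent.MP_cb8d3a_ag.H42
open Pool.Agent.MP_cb8d3a_ag.S2

abbrev LS : Type := LaurentSeries ℂ

/-- The central term. -/
def cc (m : ℕ) (i : Fin 3) (n : ℤ) (j : Fin 3) (k : ℤ) : ℂ :=
  if n + k = 0 then n * kf i j * m else 0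

section
variable {Y : Type} [AddCommGroup Y] [Module ℂ Y]

/-- Representations of affine `sl2` of level `m`. -/
def IsRep (m : ℕ) (ρ : Fin 3 → ℤ → Module.End ℂ Y) : Prop :=
  ∀ i n j k, ρ i n * ρ j k - ρ j k * ρ i n = cs i j • ρ (br i j) (n + k) + cc m i n j k • 1

/-- The relations of the highest weight vector. -/
structure HW (m : ℕ) (ρ : Fin 3 → ℤ → Module.End ℂ Y) (y : Y) : Prop where
  pos : ∀ i n, 0 < n → ρ i n y = 0
  e0 : ρ 0 0 y = 0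
  h0 : ρ 1 0 y = y
  f2 : ρ 2 0 (ρ 2 0 y) = 0
  int : (ρ 0 (-1) ^ m) y = 0

/-- The relations of the vector `f v`. -/
structure LW (m : ℕ) (ρ : Fin 3 → ℤ → Module.End ℂ Y) (y : Y) : Prop where
  pos : ∀ i n, 0 < n → ρ i n y = 0
  f0 : ρ 2 0 y = 0
  h0 : ρ 1 0 y = -y
  e2 : ρ 0 0 (ρ 0 0 y) = 0
  int : (ρ 2 (-1) ^ m) y = 0

end

/-- The mode `X_i(n)` acting on `HM m`. -/
def op (m : ℕ) (i : Fin 3) (n : ℤ) : Module.End ℂ (HM m) where
  toFun x := md i n • x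
  map_add' x y := smul_add _ x y
  map_smul' r x := smul_comm _ r x

theorem op_apply (m : ℕ) (i : Fin 3) (n : ℤ) (x : HM m) : op m i n x = md i n • x := rfl

/-- The degree zero part `V_ω`. -/
def Vs (m : ℕ) : Submodule ℂ (HM m) := Submodule.span ℂ {vac m, op m 2 0 (vac m)}

/-- `ξ d/dξ`. -/
def th (φ : LS) : LS where
  coeff n := n * φ.coeff n
  isPWO_support' := φ.isPWO_support.mono fun n hn h => hn (by
    have h' : φ.coeff n = 0 := h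
    simp [h'])

theorem th_coeff (φ : LS) (n : ℤ) : (th φ).coeff n = n * φ.coeff n := rfl

/-- The residue of `ψ dφ`. -/
def rs (φ ψ : LS) : ℂ := (th φ * ψ).coeff 0

/-- Pure linear algebra for `sl2`. -/
structure SL : Prop where
  /-- `F ^ k E ^ k s` is a nonzero multiple of `s`. -/
  sl2 : ∀ {Y : Type} [AddCommGroup Y] [Module ℂ Y] (E F H : Module.End ℂ Y) (s : Y) (μ : ℕ),
    E * F - F * E = H → H * E - E * H = (2 : ℂ) • E → F s = 0 → H s = ((μ : ℂ) + 1) • s →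
    ∀ k : ℕ, ∃ c : ℂ, c ≠ 0 ∧ (F ^ k) ((E ^ k) s) = c • s
  /-- the singular vector. -/
  sing : ∀ {Y : Type} [AddCommGroup Y] [Module ℂ Y] (E F H : Module.End ℂ Y) (y : Y) (μ : ℕ),
    E * F - F * E = H → H * E - E * H = (2 : ℂ) • E → F y = 0 → H y = -(μ : ℂ) • y →
    F ((E ^ (μ + 1)) y) = 0 ∧ H ((E ^ (μ + 1)) y) = ((μ : ℂ) + 2) • (E ^ (μ + 1)) y
  /-- local nilpotency passes through an `ad`-nilpotent operator. -/
  nil : ∀ {Y : Type} [AddCommGroup Y] [Module ℂ Y] (A B B₁ B₂ : Module.End ℂ Y),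
    A * B - B * A = B₁ → A * B₁ - B₁ * A = B₂ → A * B₂ = B₂ * A →
    ∀ (N : ℕ) (x : Y), (A ^ N) x = 0 → (A ^ (N + 2)) (B x) = 0
  hw_lw : ∀ {Y : Type} [AddCommGroup Y] [Module ℂ Y] (m : ℕ) (ρ : Fin 3 → ℤ → Module.End ℂ Y)
    (y : Y), IsRep m ρ → HW m ρ y → LW m ρ (ρ 2 0 y) ∧ ρ 0 0 (ρ 2 0 y) = y
  lw_hw : ∀ {Y : Type} [AddCommGroup Y] [Module ℂ Y] (m : ℕ) (ρ : Fin 3 → ℤ → Module.End ℂ Y)
    (y : Y), IsRep m ρ → LW m ρ y → HW m ρ (ρ 0 0 y) ∧ ρ 2 0 (ρ 0 0 y) = y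

/-- The module `HM m`. -/
structure SA (m : ℕ) : Prop where
  rep : IsRep m (op m)
  hw : HW m (op m) (vac m)
  ind : ∀ W : Submodule ℂ (HM m), vac m ∈ W → (∀ i n, ∀ x ∈ W, op m i n x ∈ W) → ∀ x, x ∈ W
  lift : ∀ {Y : Type} [AddCommGroup Y] [Module ℂ Y] (ρ : Fin 3 → ℤ → Module.End ℂ Y) (y : Y),
    IsRep m ρ → HW m ρ y →
    ∃ θ : HM m →ₗ[ℂ] Y, θ (vac m) = y ∧ ∀ i n x, θ (op m i n x) = ρ i n (θ x)
  smooth : ∀ x, ∃ N : ℤ, ∀ i n, N ≤ n → op m i n x = 0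
  Vpos : ∀ x ∈ Vs m, ∀ i n, 0 < n → op m i n x = 0
  Vzero : ∀ x ∈ Vs m, ∀ i, op m i 0 x ∈ Vs m

/-- The currents as linear maps. -/
structure SC (m : ℕ) (C : Fin 3 → LS →ₗ[ℂ] Module.End ℂ (HM m)) : Prop where
  app : ∀ i φ x, C i φ x = cur i φ x
  single : ∀ i (n : ℤ), C i (HahnSeries.single n 1) = op m i n
  comm : ∀ i j φ ψ, C i φ * C j ψ - C j ψ * C i φ =
    cs i j • C (br i j) (φ * ψ) + (kf i j * m * rs φ ψ) • 1
  onV : ∀ i (φ : LS), (∀ n < 0, φ.coeff n = 0) → ∀ x ∈ Vs m, C i φ x = φ.coeff 0 • op m i 0 x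
  nil : ∀ φ : LS, (∀ n < -1, φ.coeff n = 0) → ∀ x, ∃ N : ℕ, (C 2 φ ^ N) x = 0

/-- Functions on the line with poles at the `z_i`, `i ∈ S`. -/
def OS (z : Fin 11 → ℂ) (S : Finset (Fin 11)) : Subalgebra ℂ (RatFunc ℂ) :=
  Algebra.adjoin ℂ ({RatFunc.X} ∪ (fun i => (RatFunc.X - RatFunc.C (z i))⁻¹) '' S)

/-- `(x - z_j) ^ n`. -/
def pw (z : Fin 11 → ℂ) (j : Fin 11) (n : ℤ) : RatFunc ℂ := (RatFunc.X - RatFunc.C (z j)) ^ n

/-- The expansions at the marked points. -/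
structure SF (z : Fin 11 → ℂ) (E : Option (Fin 11) → RatFunc ℂ →ₐ[ℂ] LS) : Prop where
  eval : ∀ p φ, E p φ = φ.eval HahnSeries.C (loc z p)
  top : OC z = OS z Finset.univ
  mono : ∀ S T, S ⊆ T → OS z S ≤ OS z T
  pw_mem : ∀ S j n, j ∈ S → pw z j n ∈ OS z S
  pw_nat : ∀ S j (n : ℕ), pw z j n ∈ OS z S
  pw_add : ∀ j n k, pw z j (n + k) = pw z j n * pw z j k
  pw_self : ∀ j n, E (some j) (pw z j n) = HahnSeries.single n 1
  pw_one : ∀ j p, ∀ n < -1, (E p (pw z j 1)).coeff n = 0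
  reg : ∀ S, ∀ φ ∈ OS z S, ∀ i ∉ S, ∀ n < 0, (E (some i) φ).coeff n = 0
  split : ∀ S j, ∀ φ ∈ OS z (insert j S),
    φ ∈ (OS z S).toSubmodule ⊔ Submodule.span ℂ (Set.range (pw z j))
  poly : ∀ φ ∈ OS z ∅, φ ∈ Submodule.span ℂ (Set.range fun k : ℕ => (RatFunc.X : RatFunc ℂ) ^ k)
  X_fin : ∀ i (k : ℕ), (E (some i) (RatFunc.X ^ k)).coeff 0 = z i ^ k
  X_inf : ∀ k : ℕ, E none (RatFunc.X ^ k) = HahnSeries.single (-k : ℤ) 1
  resid : ∀ φ ∈ OS z Finset.univ, ∀ ψ ∈ OS z Finset.univ, ∑ p, rs (E p φ) (E p ψ) = 0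
  rs_single : ∀ n k : ℤ, rs (HahnSeries.single n 1) (HahnSeries.single k 1) =
    if n + k = 0 then (n : ℂ) else 0

/-- The point at infinity: maps out of `HM m` that are linear over `g[ξ⁻¹]`. -/
def SI (m : ℕ) : Prop :=
  ∀ {N : Type} [AddCommGroup N] [Module ℂ N] (a : Fin 3 → ℕ → Module.End ℂ N) (n₀ : N),
    (∀ i k j l, a i k * a j l - a j l * a i k = cs i j • a (br i j) (k + l)) →
    a 2 0 n₀ = 0 → a 1 0 n₀ = -n₀ → a 0 0 (a 0 0 n₀) = 0 → (a 2 1 ^ m) n₀ = 0 →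
    ∃ Θ : HM m →ₗ[ℂ] N, Θ (op m 2 0 (vac m)) = n₀ ∧
      ∀ i (k : ℕ) x, Θ (op m i (-k) x) = a i k (Θ x)

/-- Multilinear functionals. -/
abbrev ML (ι M : Type) [AddCommGroup M] [Module ℂ M] : Type :=
  MultilinearMap ℂ (fun _ : ι => M) ℂ

section
variable {ι M : Type} [DecidableEq ι] [AddCommGroup M] [Module ℂ M]

/-- The transpose of `A` acting in the slot `p`. -/
def slot (p : ι) (A : Module.End ℂ M) : Module.End ℂ (ML ι M) where
  toFun Φ := Φ.compLinearMap (Function.update (fun _ => LinearMap.id) p A)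
  map_add' _ _ := rfl
  map_smul' _ _ := rfl

theorem slot_apply (p : ι) (A : Module.End ℂ M) (Φ : ML ι M) (v : ι → M) :
    slot p A Φ v = Φ (Function.update v p (A (v p))) := by
  change Φ _ = _
  congr 1
  funext q
  by_cases h : q = p
  · subst h; simp
  · simp [h]

theorem slot_mul (p : ι) (A B : Module.End ℂ M) : slot p (A * B) = slot p B * slot p A := by
  ext Φ v
  simp [slot_apply]

theorem slot_one (p : ι) : slot p (1 : Module.End ℂ M) = 1 := by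
  ext Φ v
  simp [slot_apply]

theorem slot_add (p : ι) (A B : Module.End ℂ M) : slot p (A + B) = slot p A + slot p B := by
  ext Φ v
  simp [slot_apply]

theorem slot_smul (p : ι) (c : ℂ) (A : Module.End ℂ M) : slot p (c • A) = c • slot p A := by
  ext Φ v
  simp [slot_apply]

theorem slot_sub (p : ι) (A B : Module.End ℂ M) : slot p (A - B) = slot p A - slot p B := by
  ext Φ v
  simp [slot_apply, MultilinearMap.map_update_sub]

theorem slot_zero (p : ι) : slot p (0 : Module.End ℂ M) = 0 := by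
  ext Φ v
  simp [slot_apply]

theorem slot_comm {p q : ι} (h : p ≠ q) (A B : Module.End ℂ M) :
    slot p A * slot q B = slot q B * slot p A := by
  ext Φ v
  simp [slot_apply, Function.update_of_ne h, Function.update_of_ne h.symm,
    Function.update_comm h]

end

/-- Tuples with values in `V_ω` at the points outside `S`. -/
def Adm (m : ℕ) (S : Finset (Fin 11)) (v : Option (Fin 11) → HM m) : Prop :=
  ∀ i ∉ S, v (some i) ∈ Vs m

/-- Invariance under `g ⊗ OS z S` on such tuples. -/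
def Inv (z : Fin 11 → ℂ) (m : ℕ) (C : Fin 3 → LS →ₗ[ℂ] Module.End ℂ (HM m))
    (E : Option (Fin 11) → RatFunc ℂ →ₐ[ℂ] LS) (S : Finset (Fin 11))
    (Φ : ML (Option (Fin 11)) (HM m)) : Prop :=
  ∀ i, ∀ φ ∈ OS z S, ∀ v, Adm m S v → (∑ p, slot p (C i (E p φ))) Φ v = 0

/-- Propagation to one more point. -/
def SS (z : Fin 11 → ℂ) (m : ℕ) (C : Fin 3 → LS →ₗ[ℂ] Module.End ℂ (HM m))
    (E : Option (Fin 11) → RatFunc ℂ →ₐ[ℂ] LS) : Prop :=
  ∀ S j, j ∉ S → ∀ Φ, Inv z m C E S Φ →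
    ∃ Φ', Inv z m C E (insert j S) Φ' ∧ ∀ v, Adm m S v → Φ' v = Φ v

/-- The first stage. -/
def SZ (z : Fin 11 → ℂ) (m : ℕ) (C : Fin 3 → LS →ₗ[ℂ] Module.End ℂ (HM m))
    (E : Option (Fin 11) → RatFunc ℂ →ₐ[ℂ] LS) : Prop :=
  ∀ ψ, St.Block z m ψ → ∃ Φ, Inv z m C E ∅ Φ ∧ ∀ I, ψ I = Φ (vec m I)

/-- Conformal blocks of level one satisfy the algebraic equations. -/
def SE (z : Fin 11 → ℂ) : Prop := ∀ ψ, Block z 1 ψ → St.Block z 1 ψ

end Pool.Agent.MP_cb8d3a_ag.H42
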