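import Pool.Agent.MP_cb8d3a_ag.H42.TF_a

noncomputable section

open scoped BigOperators

namespace Pool.Agent.MP_cb8d3a_ag.H42
open Pool.Agent.MP_cb8d3a_ag.S2

namespace TF
open HahnSeries

variable (z : Fin 11 → ℂ)

theorem aeval_ne (p : Option (Fin 11)) {q : Polynomial ℂ} (hq : q ≠ 0) :
    Polynomial.aeval (loc z p) q ≠ 0 := fun h => by
  have hi : IsIntegral ℂ (loc z p) := (show IsAlgebraic ℂ (loc z p) from ⟨q, hq, h⟩).isIntegral
  obtain ⟨r, hr⟩ := minpoly.mem_range_of_degree_eq_one ℂ _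
    (IsAlgClosed.degree_eq_one_of_irreducible ℂ (minpoly.irreducible hi))
  exact loc_ne_C z p r (hr.symm.trans (alg r))

/-- the expansion at a marked point. -/
def E (p : Option (Fin 11)) : RatFunc ℂ →ₐ[ℂ] LS :=
  RatFunc.liftAlgHom (Polynomial.aeval (loc z p)) fun _ hq =>
    mem_nonZeroDivisors_of_ne_zero (aeval_ne z p (nonZeroDivisors.ne_zero hq))

theorem E_eval (p : Option (Fin 11)) (φ : RatFunc ℂ) :
    E z p φ = φ.eval HahnSeries.C (loc z p) := by
  have e : algebraMap ℂ LS = HahnSeries.C := RingHom.ext alg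
  rw [E, RatFunc.liftAlgHom_apply, Polynomial.aeval_def, Polynomial.aeval_def, e]
  rfl

theorem E_X (p : Option (Fin 11)) : E z p RatFunc.X = loc z p := by
  rw [E_eval, RatFunc.eval_X]

theorem E_C (p : Option (Fin 11)) (r : ℂ) : E z p (RatFunc.C r) = HahnSeries.C r := by
  rw [← RatFunc.algebraMap_eq_C, AlgHom.commutes, alg]

theorem E_pw (p : Option (Fin 11)) (j : Fin 11) (n : ℤ) :
    E z p (pw z j n) = (loc z p - HahnSeries.C (z j)) ^ n := by
  rw [pw, map_zpow₀, map_sub, E_X, E_C]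

theorem y_ne (r : ℂ) : (RatFunc.X - RatFunc.C r : RatFunc ℂ) ≠ 0 := fun h => by
  have := congrArg (E (fun _ => 0) none) h
  rw [map_sub, E_X, E_C, map_zero, sub_eq_zero] at this
  exact loc_ne_C _ _ _ this

theorem X_mem (S : Finset (Fin 11)) : RatFunc.X ∈ OS z S :=
  Algebra.subset_adjoin (Or.inl rfl)

theorem C_mem (S : Finset (Fin 11)) (r : ℂ) : RatFunc.C r ∈ OS z S := (OS z S).algebraMap_mem r

theorem inv_mem {S : Finset (Fin 11)} {j : Fin 11} (hj : j ∈ S) :
    (RatFunc.X - RatFunc.C (z j))⁻¹ ∈ OS z S :=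
  Algebra.subset_adjoin (Or.inr ⟨j, hj, rfl⟩)

theorem OS_ind {S : Finset (Fin 11)} {P : RatFunc ℂ → Prop} (hX : P RatFunc.X)
    (hi : ∀ j ∈ S, P (RatFunc.X - RatFunc.C (z j))⁻¹) (hC : ∀ r, P (RatFunc.C r))
    (ha : ∀ a ∈ OS z S, ∀ b ∈ OS z S, P a → P b → P (a + b))
    (hm : ∀ a ∈ OS z S, ∀ b ∈ OS z S, P a → P b → P (a * b)) : ∀ φ ∈ OS z S, P φ := by
  intro φ h
  unfold OS at h
  induction h using Algebra.adjoin_induction with
  | mem x hx =>
    rcases hx with rfl | ⟨j, hj, rfl⟩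
    · exact hX
    · exact hi j hj
  | algebraMap r => exact hC r
  | add x y hx hy h1 h2 => exact ha x hx y hy h1 h2
  | mul x y hx hy h1 h2 => exact hm x hx y hy h1 h2

theorem pw_nat (S : Finset (Fin 11)) (j : Fin 11) (n : ℕ) : pw z j n ∈ OS z S := by
  rw [pw, zpow_natCast]
  exact pow_mem (sub_mem (X_mem z S) (C_mem z S _)) n

theorem pw_mem (S : Finset (Fin 11)) (j : Fin 11) (n : ℤ) (hj : j ∈ S) : pw z j n ∈ OS z S := by
  obtain ⟨k, rfl | rfl⟩ := Int.eq_nat_or_neg n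
  · exact pw_nat z S j k
  · rw [pw, zpow_neg, zpow_natCast, ← inv_pow]
    exact pow_mem (inv_mem z hj) k

theorem pw_add (j : Fin 11) (n k : ℤ) : pw z j (n + k) = pw z j n * pw z j k :=
  zpow_add₀ (y_ne _) n k

theorem loc_self (j : Fin 11) : loc z (some j) - HahnSeries.C (z j) = single 1 1 := by
  simp [loc, C_apply]

theorem single_zpow (n : ℤ) : (single 1 1 : LS) ^ n = single n 1 := by
  obtain ⟨k, rfl | rfl⟩ := Int.eq_nat_or_neg n
  · simp [single_pow]
  · simp [single_pow, inv_single]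

variable {z}

theorem reg (hz : Function.Injective z) (S : Finset (Fin 11)) (i : Fin 11) (hi : i ∉ S) :
    ∀ φ ∈ OS z S, ∃ c, Reg (E z (some i) φ) c := by
  refine OS_ind z ⟨_, by rw [E_X]; exact reg_loc z i⟩ (fun j hj => ⟨(z i - z j)⁻¹, ?_⟩)
    (fun r => ⟨_, by rw [E_C]; exact reg_C r⟩) ?_ ?_
  · rw [map_inv₀, map_sub, E_X, E_C]
    exact ((reg_loc z i).sub (reg_C _)).inv (sub_ne_zero.2 (hz.ne fun e => hi (e ▸ hj)))
  · rintro a - b - ⟨c, hc⟩ ⟨d, hd⟩
    exact ⟨_, by rw [map_add]; exact hc.add hd⟩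
  · rintro a - b - ⟨c, hc⟩ ⟨d, hd⟩
    exact ⟨_, by rw [map_mul]; exact hc.mul hd⟩

theorem frac (hz : Function.Injective z) {j l : Fin 11} (h : j ≠ l) :
    (RatFunc.X - RatFunc.C (z l))⁻¹ * (RatFunc.X - RatFunc.C (z j))⁻¹ =
      RatFunc.C (z l - z j)⁻¹ *
        ((RatFunc.X - RatFunc.C (z l))⁻¹ - (RatFunc.X - RatFunc.C (z j))⁻¹) := by
  have h1 := y_ne (z l)
  have h2 := y_ne (z j)
  have h3 : (RatFunc.C (z l) - RatFunc.C (z j) : RatFunc ℂ) ≠ 0 := by
    rw [← map_sub, map_ne_zero]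
    exact sub_ne_zero.2 (hz.ne h.symm)
  rw [map_inv₀, map_sub]
  field_simp
  ring

theorem taylor (hz : Function.Injective z) {S : Finset (Fin 11)} {j : Fin 11} (hj : j ∉ S) :
    ∀ a ∈ OS z S, ∃ c, ∃ b ∈ OS z S, a = RatFunc.C c + (RatFunc.X - RatFunc.C (z j)) * b := by
  refine OS_ind z ⟨z j, 1, one_mem _, by ring⟩ (fun l hl => ?_)
    (fun r => ⟨r, 0, zero_mem _, by ring⟩) ?_ ?_
  · refine ⟨-(z l - z j)⁻¹, _, mul_mem (C_mem z S (z l - z j)⁻¹⁻¹) (mul_mem (C_mem z S (z l - z j)⁻¹)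
      (mul_mem (C_mem z S (-(z l - z j)⁻¹)) (neg_mem (inv_mem z hl)))), ?_⟩
    have h1 := y_ne (z l)
    have h3 : (RatFunc.C (z l) - RatFunc.C (z j) : RatFunc ℂ) ≠ 0 := by
      rw [← map_sub, map_ne_zero]
      exact sub_ne_zero.2 (hz.ne fun e => hj (e ▸ hl))
    simp only [map_neg, map_inv₀, map_sub]
    field_simp
    ring
  · rintro a - b - ⟨c, a', ha, rfl⟩ ⟨d, b', hb, rfl⟩
    exact ⟨c + d, a' + b', add_mem ha hb, by rw [map_add]; ring⟩
  · rintro a - b - ⟨c, a', ha, rfl⟩ ⟨d, b', hb, rfl⟩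
    exact ⟨c * d, RatFunc.C c * b' + RatFunc.C d * a' + (RatFunc.X - RatFunc.C (z j)) * a' * b',
      add_mem (add_mem (mul_mem (C_mem z S c) hb) (mul_mem (C_mem z S d) ha))
        (mul_mem (mul_mem (sub_mem (X_mem z S) (C_mem z S _)) ha) hb), by rw [map_mul]; ring⟩

theorem split (hz : Function.Injective z) (S : Finset (Fin 11)) (j : Fin 11) :
    ∀ φ ∈ OS z (insert j S),
      φ ∈ (OS z S).toSubmodule ⊔ Submodule.span ℂ (Set.range (pw z j)) := by
  by_cases hj : j ∈ S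
  · intro φ h
    rw [Finset.insert_eq_of_mem hj] at h
    exact Submodule.mem_sup_left h
  set W := (OS z S).toSubmodule ⊔ Submodule.span ℂ (Set.range (pw z j)) with hW
  have hl : ∀ a ∈ OS z S, a ∈ W := fun a h => Submodule.mem_sup_left h
  have hr : ∀ n, pw z j n ∈ W := fun n => Submodule.mem_sup_right (Submodule.subset_span ⟨n, rfl⟩)
  have hc : ∀ (r : ℂ), ∀ w ∈ W, RatFunc.C r * w ∈ W := fun r w h => by
    rw [← RatFunc.smul_eq_C_mul]
    exact W.smul_mem r h
  have key : ∀ g : RatFunc ℂ, (∀ a ∈ OS z S, g * a ∈ W) → (∀ n, g * pw z j n ∈ W) →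
      ∀ w ∈ W, g * w ∈ W := by
    intro g h1 h2 w hw
    have : W ≤ W.comap (LinearMap.mulLeft ℂ g) :=
      sup_le (fun a ha => h1 a ha) (Submodule.span_le.2 (by rintro _ ⟨n, rfl⟩; exact h2 n))
    exact this hw
  have e1 : pw z j 1 = RatFunc.X - RatFunc.C (z j) := zpow_one _
  have e2 : pw z j (-1) = (RatFunc.X - RatFunc.C (z j))⁻¹ := zpow_neg_one _
  have main : ∀ φ ∈ OS z (insert j S), ∀ w ∈ W, φ * w ∈ W := by
    refine OS_ind z (key _ (fun a ha => hl _ (mul_mem (X_mem z S) ha)) fun n => ?_)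
      (fun l hl' => ?_) hc (fun a _ b _ h1 h2 w hw => ?_) (fun a _ b _ h1 h2 w hw => ?_)
    · have : RatFunc.X * pw z j n = pw z j (1 + n) + RatFunc.C (z j) * pw z j n := by
        rw [pw_add, e1]; ring
      rw [this]
      exact W.add_mem (hr _) (hc _ _ (hr _))
    · rcases Finset.mem_insert.1 hl' with rfl | hl'
      · refine key _ (fun a ha => ?_) fun n => by rw [← e2, ← pw_add]; exact hr _
        obtain ⟨c, b, hb, rfl⟩ := taylor hz hj a ha
        rw [mul_add, inv_mul_cancel_left₀ (y_ne _), mul_comm, ← e2]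
        exact W.add_mem (hc _ _ (hr _)) (hl b hb)
      · refine key _ (fun a ha => hl _ (mul_mem (inv_mem z hl') ha)) fun n => ?_
        obtain ⟨k, rfl | rfl⟩ := Int.eq_nat_or_neg n
        · exact hl _ (mul_mem (inv_mem z hl') (pw_nat z S j k))
        · induction k with
          | zero => exact hl _ (mul_mem (inv_mem z hl') (pw_nat z S j 0))
          | succ k ih =>
            have e3 : pw z j (-((k + 1 : ℕ) : ℤ)) = pw z j (-1) * pw z j (-(k : ℤ)) := by
              rw [← pw_add]; congr 1; push_cast; ring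
            rw [e3, ← mul_assoc, e2, frac hz (fun e : j = l => hj (e ▸ hl')), mul_assoc, sub_mul, ← e2,
              ← pw_add]
            exact hc _ _ (W.sub_mem ih (hr _))
    · rw [add_mul]; exact W.add_mem (h1 w hw) (h2 w hw)
    · rw [mul_assoc]; exact h1 _ (h2 w hw)
  intro φ h
  simpa using main φ h 1 (hl 1 (one_mem _))

theorem poly : ∀ φ ∈ OS z ∅,
    φ ∈ Submodule.span ℂ (Set.range fun k : ℕ => (RatFunc.X : RatFunc ℂ) ^ k) := by
  intro φ h
  have h' : φ ∈ (OS z ∅).toSubmodule := h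
  rw [OS, Algebra.adjoin_eq_span] at h'
  refine Submodule.span_mono (fun x hx => ?_) h'
  simpa [Submonoid.mem_closure_singleton] using hx

/-- the sum of the residues of `χ dx`. -/
def R (z : Fin 11 → ℂ) : RatFunc ℂ →ₗ[ℂ] ℂ where
  toFun χ := ∑ p, (E z p χ * th (loc z p)).coeff 0
  map_add' a b := by simp [add_mul, Finset.sum_add_distrib]
  map_smul' r a := by
    simp only [RatFunc.smul_eq_C_mul, map_mul, E_C, mul_assoc, coeff_C_mul, RingHom.id_apply,
      smul_eq_mul, Finset.mul_sum]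

theorem R_pw (hz : Function.Injective z) (l : Fin 11) (n : ℤ) : R z (pw z l n) = 0 := by
  change ∑ p, (E z p (pw z l n) * th (loc z p)).coeff 0 = 0
  simp only [E_pw]
  by_cases hn : n = -1
  · subst hn
    simpa only [zpow_neg_one] using res_log hz l
  · refine Finset.sum_eq_zero fun p _ => ?_
    have := res_zpow (sub_ne_zero.2 (loc_ne_C z p (z l))) hn
    rwa [th_sub, th_C, sub_zero] at this

theorem R_X (k : ℕ) : R z (RatFunc.X ^ k) = 0 := by
  change ∑ p, (E z p (RatFunc.X ^ k) * th (loc z p)).coeff 0 = 0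
  refine Finset.sum_eq_zero fun p _ => ?_
  have h0 : loc z p ≠ 0 := by simpa using loc_ne_C z p 0
  have := res_zpow h0 (n := k) (by omega)
  rwa [zpow_natCast, ← E_X z p, ← map_pow, E_X] at this

theorem R_zero (hz : Function.Injective z) (S : Finset (Fin 11)) : ∀ χ ∈ OS z S, R z χ = 0 := by
  induction S using Finset.induction_on with
  | empty =>
    intro χ h
    exact (Submodule.span_le (p := LinearMap.ker (R z))).2 (by rintro _ ⟨k, rfl⟩; exact R_X k)
      (poly χ h)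
  | insert j S _ ih =>
    intro χ h
    have : (OS z S).toSubmodule ⊔ Submodule.span ℂ (Set.range (pw z j)) ≤ LinearMap.ker (R z) :=
      sup_le (fun a ha => ih a ha)
        (Submodule.span_le.2 (by rintro _ ⟨n, rfl⟩; exact R_pw hz j n))
    exact this (split hz S j χ h)

theorem deriv (S : Finset (Fin 11)) : ∀ φ ∈ OS z S, ∃ φ' ∈ OS z S,
    ∀ p, th (E z p φ) = E z p φ' * th (loc z p) := by
  refine OS_ind z ⟨1, one_mem _, fun p => by rw [E_X, map_one, one_mul]⟩ (fun j hj => ?_)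
    (fun r => ⟨0, zero_mem _, fun p => by rw [E_C, th_C, map_zero, zero_mul]⟩) ?_ ?_
  · refine ⟨_, neg_mem (mul_mem (inv_mem z hj) (inv_mem z hj)), fun p => ?_⟩
    rw [map_neg, map_mul, map_inv₀, map_sub, E_X, E_C,
      th_inv (sub_ne_zero.2 (loc_ne_C z p (z j))), th_sub, th_C, sub_zero]
  · rintro a - b - ⟨a', ha, h1⟩ ⟨b', hb, h2⟩
    exact ⟨a' + b', add_mem ha hb, fun p => by rw [map_add, map_add, th_add, h1, h2, add_mul]⟩
  · rintro a h3 b h4 ⟨a', ha, h1⟩ ⟨b', hb, h2⟩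
    refine ⟨a' * b + a * b', add_mem (mul_mem ha h4) (mul_mem h3 hb), fun p => ?_⟩
    rw [map_mul, th_mul, h1, h2, map_add, map_mul, map_mul]
    ring

end TF

open TF HahnSeries in
theorem sF {z : Fin 11 → ℂ} (hz : Function.Injective z) : ∃ E, SF z E := by
  refine ⟨E z, E_eval z, ?_, fun S T h => ?_, pw_mem z, pw_nat z, pw_add z, fun j n => ?_,
    fun j p n hn => ?_, fun S φ h i hi n hn => ?_, split hz, poly, fun i k => ?_, fun k => ?_,
    fun φ hφ ψ hψ => ?_, fun n k => ?_⟩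
  · simp [OC, OS]
  · exact Algebra.adjoin_mono (Set.union_subset_union_right _ (Set.image_mono h))
  · rw [E_pw, loc_self, TF.single_zpow]
  · rw [E_pw, zpow_one]
    have h1 : n ≠ -1 := by omega
    have h2 : n ≠ 0 := by omega
    have h3 : n ≠ 1 := by omega
    cases p <;> simp [loc, C_apply, coeff_single_of_ne, h1, h2, h3]
  · obtain ⟨c, hc⟩ := reg hz S i hi φ h
    exact hc.neg_coeff n hn
  · rw [map_pow, E_X]
    exact ((reg_loc z i).pow k).coeff_zero
  · rw [map_pow, E_X]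
    simp [loc, single_pow]
  · obtain ⟨φ', h1, h2⟩ := deriv _ φ hφ
    have h3 : ∑ p, (E z p (φ' * ψ) * th (loc z p)).coeff 0 = 0 := R_zero hz _ _ (mul_mem h1 hψ)
    refine Eq.trans (Finset.sum_congr rfl fun p _ => ?_) h3
    rw [rs, h2, map_mul, mul_right_comm]
  · rw [rs, th_single, single_mul_single, coeff_single]
    simp [eq_comm]

end Pool.Agent.MP_cb8d3a_ag.H42
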