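import Pool.Agent.MP_cb8d3a_ag.H42.TDefs

/-! Laurent series: the derivation `th` and regular series. -/

noncomputable section

open scoped BigOperators

namespace Pool.Agent.MP_cb8d3a_ag.H42.TF
open Pool.Agent.MP_cb8d3a_ag.S2 HahnSeries

theorem alg (r : ℂ) : algebraMap ℂ LS r = HahnSeries.C r := by
  simp [HahnSeries.algebraMap_apply']

theorem th_supp (φ : LS) : (th φ).support ⊆ φ.support := fun n hn h => hn (by
  have h' : φ.coeff n = 0 := h
  simp [th_coeff, h'])

theorem th_add (φ ψ : LS) : th (φ + ψ) = th φ + th ψ := by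
  ext n
  simp [th_coeff, mul_add]

theorem th_sub (φ ψ : LS) : th (φ - ψ) = th φ - th ψ := by
  ext n
  simp [th_coeff, mul_sub]

theorem th_mul (φ ψ : LS) : th (φ * ψ) = th φ * ψ + φ * th ψ := by
  ext n
  rw [coeff_add, coeff_mul_left' φ.isPWO_support (th_supp φ),
    coeff_mul_right' ψ.isPWO_support (th_supp ψ), th_coeff, coeff_mul, Finset.mul_sum,
    ← Finset.sum_add_distrib]
  refine Finset.sum_congr rfl fun ij hij => ?_
  rw [th_coeff, th_coeff, ← (Finset.mem_antidiagonal.1 hij).2.2]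
  push_cast
  ring

theorem th_single (n : ℤ) (r : ℂ) : th (single n r) = single n (n * r) := by
  ext k
  by_cases h : k = n
  · subst h; simp [th_coeff]
  · simp [th_coeff, coeff_single_of_ne h]

theorem th_C (r : ℂ) : th (HahnSeries.C r) = 0 := by
  rw [C_apply, th_single]; simp

theorem th_zero_coeff (φ : LS) : (th φ).coeff 0 = 0 := by simp [th_coeff]

theorem th_one : th 1 = 0 := by simpa using th_C 1

theorem th_inv {g : LS} (hg : g ≠ 0) : th g⁻¹ = -(g⁻¹ * g⁻¹) * th g := by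
  have h := th_mul g g⁻¹
  rw [mul_inv_cancel₀ hg, th_one] at h
  have : g * th g⁻¹ = -(th g * g⁻¹) := by linear_combination -h
  calc th g⁻¹ = g⁻¹ * (g * th g⁻¹) := by rw [← mul_assoc, inv_mul_cancel₀ hg, one_mul]
    _ = _ := by rw [this]; ring

theorem th_zpow {g : LS} (hg : g ≠ 0) (n : ℤ) : th (g ^ n) = (n : LS) * g ^ (n - 1) * th g := by
  induction n using Int.induction_on with
  | zero => simp [th_one]
  | succ k ih =>
    rw [zpow_add_one₀ hg, th_mul, ih, add_sub_cancel_right, zpow_sub_one₀ hg]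
    push_cast
    field_simp
  | pred k ih =>
    rw [zpow_sub_one₀ hg, th_mul, ih, th_inv hg, zpow_sub_one₀ hg (-(k : ℤ) - 1),
      zpow_sub_one₀ hg]
    push_cast
    ring

theorem coeff_C_mul (r : ℂ) (g : LS) (n : ℤ) : (HahnSeries.C r * g).coeff n = r * g.coeff n := by
  rw [C_apply, coeff_single_zero_mul]

/-- exact forms have no residue. -/
theorem res_zpow {g : LS} (hg : g ≠ 0) {n : ℤ} (hn : n ≠ -1) : (g ^ n * th g).coeff 0 = 0 := by
  have h := th_zero_coeff (g ^ (n + 1))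
  rw [th_zpow hg, add_sub_cancel_right, mul_assoc, ← map_intCast (HahnSeries.C : ℂ →+* LS),
    coeff_C_mul] at h
  exact (mul_eq_zero.1 h).resolve_left (by exact_mod_cast (by omega : n + 1 ≠ 0))

/-- `g` is a power series with constant term `c`. -/
def Reg (g : LS) (c : ℂ) : Prop :=
  ∃ f : PowerSeries ℂ, g = ofPowerSeries ℤ ℂ f ∧ PowerSeries.constantCoeff f = c

theorem Reg.neg_coeff {g : LS} {c : ℂ} (h : Reg g c) (n : ℤ) (hn : n < 0) : g.coeff n = 0 := by
  obtain ⟨f, rfl, -⟩ := h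
  exact (PowerSeries.coeff_coe f n).trans (if_pos hn)

theorem Reg.coeff_zero {g : LS} {c : ℂ} (h : Reg g c) : g.coeff 0 = c := by
  obtain ⟨f, rfl, rfl⟩ := h
  exact (PowerSeries.coeff_coe f 0).trans (by simp)

theorem Reg.add {g g' : LS} {c c' : ℂ} (h : Reg g c) (h' : Reg g' c') : Reg (g + g') (c + c') := by
  obtain ⟨f, rfl, rfl⟩ := h
  obtain ⟨f', rfl, rfl⟩ := h'
  exact ⟨f + f', by simp, by simp⟩

theorem Reg.sub {g g' : LS} {c c' : ℂ} (h : Reg g c) (h' : Reg g' c') : Reg (g - g') (c - c') := by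
  obtain ⟨f, rfl, rfl⟩ := h
  obtain ⟨f', rfl, rfl⟩ := h'
  exact ⟨f - f', by simp, by simp⟩

theorem Reg.mul {g g' : LS} {c c' : ℂ} (h : Reg g c) (h' : Reg g' c') : Reg (g * g') (c * c') := by
  obtain ⟨f, rfl, rfl⟩ := h
  obtain ⟨f', rfl, rfl⟩ := h'
  exact ⟨f * f', by simp, by simp⟩

theorem reg_C (c : ℂ) : Reg (HahnSeries.C c) c := ⟨PowerSeries.C c, by simp, by simp⟩

theorem reg_X : Reg (single 1 1) 0 := ⟨PowerSeries.X, by simp, by simp⟩

theorem Reg.pow {g : LS} {c : ℂ} (h : Reg g c) (k : ℕ) : Reg (g ^ k) (c ^ k) := by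
  induction k with
  | zero => simpa using reg_C 1
  | succ k ih => rw [pow_succ, pow_succ]; exact ih.mul h

theorem Reg.inv {g : LS} {c : ℂ} (h : Reg g c) (hc : c ≠ 0) : Reg g⁻¹ c⁻¹ := by
  obtain ⟨f, rfl, rfl⟩ := h
  refine ⟨f⁻¹, ?_, PowerSeries.constantCoeff_inv f⟩
  refine (eq_inv_of_mul_eq_one_right ?_).symm
  rw [← map_mul, PowerSeries.mul_inv_cancel f hc, map_one]

theorem reg_loc (z : Fin 11 → ℂ) (i : Fin 11) : Reg (loc z (some i)) (z i) := by
  simpa [loc] using (reg_C (z i)).add reg_X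

theorem loc_ne_C (z : Fin 11 → ℂ) (p : Option (Fin 11)) (r : ℂ) : loc z p ≠ HahnSeries.C r := by
  intro h
  cases p with
  | none => simpa [loc, C_apply] using congrArg (fun g : LS => g.coeff (-1)) h
  | some i => simpa [loc, C_apply] using congrArg (fun g : LS => g.coeff 1) h

theorem th_loc_some (z : Fin 11 → ℂ) (i : Fin 11) : th (loc z (some i)) = single 1 1 := by
  simp [loc, th_add, th_single]

theorem th_loc_none (z : Fin 11 → ℂ) : th (loc z none) = -single (-1) 1 := by
  simp [loc, th_single]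

/-- the residues of `dx / (x - z_l)`. -/
theorem res_log {z : Fin 11 → ℂ} (hz : Function.Injective z) (l : Fin 11) :
    ∑ p, ((loc z p - HahnSeries.C (z l))⁻¹ * th (loc z p)).coeff 0 = 0 := by
  rw [Fintype.sum_option, Finset.sum_eq_single l]
  · have e1 : loc z (some l) - HahnSeries.C (z l) = single 1 1 := by simp [loc, C_apply]
    have hx : (single 1 1 : LS) ≠ 0 := by simp
    have e2 : (loc z none - HahnSeries.C (z l))⁻¹ * th (loc z none) =
        HahnSeries.C (-1) * (HahnSeries.C 1 - HahnSeries.C (z l) * single 1 1)⁻¹ := by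
      have e3 : loc z none = (single 1 1 : LS)⁻¹ := by simp [loc, inv_single]
      have e4 : th (loc z none) = -(single 1 1 : LS)⁻¹ := by rw [th_loc_none]; simp [inv_single]
      have e5 : (single 1 1 : LS)⁻¹ - HahnSeries.C (z l) =
          (single 1 1 : LS)⁻¹ * (1 - HahnSeries.C (z l) * single 1 1) := by field_simp
      rw [e4, e3, e5, map_neg, map_one (HahnSeries.C : ℂ →+* LS), mul_inv, inv_inv]
      linear_combination (-(1 - HahnSeries.C (z l) * single 1 1 : LS)⁻¹) * mul_inv_cancel₀ hx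
    have r2 := ((reg_C (-1)).mul (((reg_C 1).sub ((reg_C (z l)).mul reg_X)).inv (by simp))).coeff_zero
    rw [e2, r2, e1, th_loc_some, inv_mul_cancel₀ hx]
    simp
  · intro i _ hi
    have := ((((reg_loc z i).sub (reg_C (z l))).inv (sub_ne_zero.2 (hz.ne hi))).mul reg_X).coeff_zero
    rw [th_loc_some, this, mul_zero]
  · simp

end Pool.Agent.MP_cb8d3a_ag.H42.TF
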